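import Pool.Agent.P.MP_119182_lc.AE.IfaceB

/-! Step ALL. -/

set_option autoImplicit false

namespace Pool.Agent.P.MP_119182_lc.AE

open Finset
open scoped Classical
open NU (mr)
open LU (key tch up low isl Nx within beyond LK)
open IT (Marks One mq)

namespace ALLc

theorem mq_mq (Q : ℕ → Finset ℤ) : mq (mq Q) = Q := by
  funext t
  unfold mq
  rw [image_image]
  refine (image_congr (g := id) fun a _ => ?_).trans image_id
  simp only [Function.comp, mr, id]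
  omega

theorem mr_mr (a : ℤ) : mr (mr a) = a := by
  unfold mr
  omega

open GP in
theorem link (hGAP : S_GAP) : ∃ C : ℕ, ∀ (σ J c Z : ℕ) (d : NU.Run) (Q : ℕ → Finset ℤ), d.OK →
    d.L / 2 ^ J = d.R / 2 ^ J → Marks d.L d.R d.m d.x c Z Q → One d.m d.x Q →
    400 * (d.LamR + d.mir.LamR) ≤ d.NR + d.mir.NR +
      C * ((d.R - d.L).toNat + d.m + we σ J d.L d.R d.m d.x Q +
        ∑ t ∈ range d.m, IT.int (σ + 1) d t + ∑ t ∈ range d.m, IT.int (σ + 1) d.mir t +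
        ∑ t ∈ range d.m, IT.up d (tl (σ + 1) d Q) t +
        ∑ t ∈ range d.m, IT.up d.mir (tl (σ + 1) d.mir (mq Q)) t) := by
  obtain ⟨C, hC⟩ := Ap.lp
  obtain ⟨C1, hC1⟩ : ∃ C1, C1 = C * 1600 ^ 3 := ⟨_, rfl⟩
  obtain ⟨C2, hG⟩ := hGAP (8 * (C1 + 1600))
  refine ⟨(C1 + 1600) + C2 + 151 * C1, fun σ J c Z d Q ok hJ mk one => ?_⟩
  have okm := (NU.a_EMIR d).2 ok
  obtain ⟨-, m1, m2, m3⟩ := p_MIRW σ J d.L d.R d.m d.x Q
  have l1 := hC σ 1600 J d (cold σ d Q) ok (p_COLD p_ITEM σ c Z d Q mk) hJ (by norm_num)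
  have l2 := p_LIV (p_COLD p_ITEM) p_BORN Ap.en σ J c Z d Q mk
  obtain ⟨-, s1, s2⟩ := p_SIDE d ok
  have s2 := s2 (cold σ d Q)
  have n1 := p_NPB p_ITEM p_SIDE p_MIRW IT.p_TWO NU.a_EMIR σ d Q ok
  have g1 := hG σ J c Z d Q ok hJ mk one
  have g2 := hG σ J c Z d.mir (mq Q) okm (m1 hJ) (IT.p_LAZY _ _ _ _ _ _ _ mk).2 (m2 one)
  have k1 : (d.mir.R - d.mir.L).toNat = (d.R - d.L).toNat := by
    change (mr d.L - mr d.R).toNat = _
    unfold mr
    omega
  have k2 : d.mir.m = d.m := rfl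
  have k3 : we σ J d.mir.L d.mir.R d.m d.mir.x (mq Q) = we σ J d.L d.R d.m d.x Q := m3
  rw [mq_mq, (NU.a_EMIR d).1, k1, k2, k3] at g2
  rw [← hC1] at l1
  rw [sum_add_distrib, sum_add_distrib] at n1
  generalize (d.R - d.L).toNat = n at *
  generalize we σ J d.L d.R d.m d.x Q = w at *
  generalize ∑ t ∈ range d.m, IT.int (σ + 1) d t = I1 at *
  generalize ∑ t ∈ range d.m, IT.int (σ + 1) d.mir t = I2 at *
  generalize ∑ t ∈ range d.m, IT.up d (tl (σ + 1) d Q) t = U1 at *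
  generalize ∑ t ∈ range d.m, IT.up d.mir (tl (σ + 1) d.mir (mq Q)) t = U2 at *
  obtain ⟨X, hX⟩ : ∃ X, X = n + d.m + w + I1 + I2 + U1 + U2 := ⟨_, rfl⟩
  rw [← hX]
  have w3 : C2 * (n + d.m + U1 + U2 + w) ≤ C2 * X := Nat.mul_le_mul_left _ (by omega)
  have w4 : C2 * (n + d.m + U2 + U1 + w) ≤ C2 * X := Nat.mul_le_mul_left _ (by omega)
  generalize ∑ t ∈ range d.m, out (its σ d.L d.R Q) d t = O1 at *
  generalize ∑ t ∈ range d.m, out (its σ d.mir.L d.mir.R (mq Q)) d.mir t = O2 at *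
  generalize #(LP.NP d (cold σ d Q)) = P at *
  have w5 : (C1 + 1600) * P ≤ (C1 + 1600) * (X + O1 + O2) := Nat.mul_le_mul_left _ (by omega)
  have w6 : C1 * (n + d.m + P + ∑ j ∈ range J, (j - σ) ^ 4 * #(LP.LV d (cold σ d Q) j)) ≤
      C1 * (P + 151 * X) := Nat.mul_le_mul_left _ (by omega)
  rw [mul_assoc] at g1 g2
  have e1 : (C1 + 1600) * (X + O1 + O2) =
      C1 * X + 1600 * X + (C1 + 1600) * O1 + (C1 + 1600) * O2 := by ring
  have e2 : C1 * (P + 151 * X) = C1 * P + 151 * (C1 * X) := by ring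
  have e3 : (C1 + 1600) * P = C1 * P + 1600 * P := by ring
  have e4 : (C1 + 1600 + C2 + 151 * C1) * X = 152 * (C1 * X) + 1600 * X + C2 * X := by ring
  omega

end ALLc

theorem p_ALL (hABS : S_ABS) (hWARM : S_WARM) (hGAP : S_GAP) (hMIR : S_MIR) :
    S_ALL := by
  obtain ⟨C, hC⟩ := ALLc.link hGAP
  obtain ⟨C', hA⟩ := hABS (2 * C)
  refine ⟨3 * C + C', fun σ J c Z c' Z' d S Q Q' ok hJ mk one mk' h1 h2 h3 => ?_⟩
  have l := hC σ J c Z d Q ok.ok hJ mk one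
  have a := hA d S ok
  have okm := (hMIR d S).1 ok
  have sm := LP.p_SM.2.2.2.1 (σ + 1)
  obtain ⟨w1, w2⟩ := hWARM (σ + 1) d S Q Q' ok h1 h2 h3
  obtain ⟨w3, w4⟩ := hWARM (σ + 1) d.mir S.mir (mq Q) (mq Q') okm (fun j hj t c => h1 j hj t (-c))
    (fun a b => by
      change -S.cell S.J (mr a) = -S.cell S.J (mr b) ↔ _
      rw [neg_inj, h2]
      exact sm a b)
    (fun t ht z hz => by
      obtain ⟨y, hy, rfl⟩ := mem_image.1 hz
      rcases h3 t ht y hy with h | h | h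
      · exact Or.inl (mem_image_of_mem _ h)
      · exact Or.inr (Or.inl ((sm y (d.x t)).2 h))
      · refine Or.inr (Or.inr ?_)
        change 2 ≤ S.om S.J t (- -S.cell S.J (mr (mr y)))
        rwa [neg_neg, ALLc.mr_mr])
  have u1 := TV.up ok.ok mk'
  have u2 := TV.up (d := d.mir) (Q := mq Q') okm.ok (IT.p_LAZY _ _ _ _ _ _ _ mk').2
  have k1 : (d.mir.R - d.mir.L).toNat = (d.R - d.L).toNat := by
    change (mr d.L - mr d.R).toNat = _
    unfold mr
    omega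
  have k2 : d.mir.m = d.m := rfl
  rw [k1, k2, TV.sw_mq] at u2
  rw [k2] at w3 w4
  have p1 : (d.R - d.L).toNat + d.m ≤
      ((d.R - d.L).toNat + d.m) * (S.J + 1) * (Nat.size (ht S) + 1) ^ 7 := by
    rw [mul_assoc]
    exact Nat.le_mul_of_pos_right _ (by positivity)
  generalize ((d.R - d.L).toNat + d.m) * (S.J + 1) * (Nat.size (ht S) + 1) ^ 7 = A at *
  generalize TV.sw (d.R - d.L).toNat d.m Q' = V at *
  generalize GP.we σ J d.L d.R d.m d.x Q = w at *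
  generalize (d.R - d.L).toNat = n at *
  generalize #(WM d S) = W1 at *
  generalize #(WM d.mir S.mir) = W2 at *
  obtain ⟨X, hX⟩ : ∃ X, X = A + BB0 d S + BB1 d S + V + w := ⟨_, rfl⟩
  rw [← hX]
  have q1 := l.trans (Nat.add_le_add_left (Nat.mul_le_mul_left C
    (show _ ≤ 3 * X + 2 * (W1 + W2) by omega)) _)
  have q2 : C' * (A + BB0 d S + BB1 d S) ≤ C' * X := Nat.mul_le_mul_left _ (by omega)
  have e1 : C * (3 * X + 2 * (W1 + W2)) = 3 * (C * X) + 2 * C * (W1 + W2) := by ring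
  have e2 : (3 * C + C') * X = 3 * (C * X) + C' * X := by ring
  omega

end Pool.Agent.P.MP_119182_lc.AE
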