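import Pool.Agent.P.MP_119182_lc.AE.IfaceB

/-! Step AVA. -/

set_option autoImplicit false

namespace Pool.Agent.P.MP_119182_lc.AE

open Finset
open scoped Classical
open NU (mr)
open LU (key tch up low isl Nx within beyond LK)
open IT (Marks One mq)

namespace XAVA

open NU hiding sg it
open NU.Avg

/-- The average over the shifts, for one access. -/
theorem one' {D T y z u w : ℕ} (hD : cc T ∣ D) (hu : w + Nat.dist y z ≤ 2 ^ u) :
    ∑ s ∈ range D, ∑ t ∈ range (T + 1), (if t = 0 ∨ cc t < w ∨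
      (y + s) / cc t ≠ (z + s) / cc t then NU.sg t + 1 else 0) ≤ D * (33 * (u + 1)) := by
  have main : ((∑ s ∈ range D, ∑ t ∈ range (T + 1), (if t = 0 ∨ cc t < w ∨
      (y + s) / cc t ≠ (z + s) / cc t then NU.sg t + 1 else 0) : ℕ) : ℝ) ≤ D * (33 * (u + 1)) := by
    rw [sum_comm, Nat.cast_sum]
    have h1 : ∀ t ∈ range (T + 1), ((∑ s ∈ range D, (if t = 0 ∨ cc t < w ∨
        (y + s) / cc t ≠ (z + s) / cc t then NU.sg t + 1 else 0) : ℕ) : ℝ) ≤
        D * (((if NU.sg t ≤ 2 * u then NU.sg t + 1 else 0 : ℕ) : ℝ) + 16 * (1 / 2) ^ t) := fun t ht => by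
      split_ifs with h
      · have h2 := sum_le_card_nsmul (range D) (fun s => if t = 0 ∨ cc t < w ∨
          (y + s) / cc t ≠ (z + s) / cc t then NU.sg t + 1 else 0) (NU.sg t + 1) fun s _ => by
            split_ifs <;> omega
        rw [card_range, smul_eq_mul] at h2
        refine (Nat.cast_le.2 h2).trans ?_
        rw [Nat.cast_mul]
        exact mul_le_mul_of_nonneg_left (le_add_of_nonneg_right (by positivity)) (by positivity)
      · have h3 : 2 ^ u ≤ cc t := Nat.pow_le_pow_right two_pos (by omega)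
        have h4 : t ≠ 0 := fun e => by simp [e, NU.sg] at h
        have h5 : cc t ∣ D :=
          (pow_dvd_pow 2 (Avg.sg_mono (by have := mem_range.1 ht; omega))).trans hD
        have h6 : ∑ s ∈ range D, (if t = 0 ∨ cc t < w ∨ (y + s) / cc t ≠ (z + s) / cc t
            then NU.sg t + 1 else 0) ≤ (NU.sg t + 1) * (2 ^ u * (D / cc t)) := by
          refine le_trans (le_of_eq ?_) (Nat.mul_le_mul_left _ ((split h5 y z).trans
            (Nat.mul_le_mul_right _ (by omega))))
          rw [mul_sum]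
          refine sum_congr rfl fun s _ => ?_
          simp [h4, show ¬ cc t < w by omega]
        have h7 : (NU.sg t + 1) * (2 ^ u * (D / cc t)) * 2 ^ t ≤ D * 16 :=
          calc _ = (NU.sg t + 1) * 2 ^ u * 2 ^ t * (D / cc t) := by ring
            _ ≤ 16 * cc t * (D / cc t) := Nat.mul_le_mul_right _ (large (not_le.1 h))
            _ = _ := by rw [mul_assoc, Nat.mul_div_cancel' h5, mul_comm]
        refine (Nat.cast_le.2 h6).trans ?_
        rw [Nat.cast_zero, zero_add, one_div, inv_pow, ← div_eq_mul_inv, ← mul_div_assoc,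
          le_div_iff₀ (by positivity)]
        exact_mod_cast h7
    refine (sum_le_sum h1).trans ?_
    rw [← mul_sum, sum_add_distrib, ← mul_sum, ← Nat.cast_sum]
    refine mul_le_mul_of_nonneg_left ?_ (by positivity)
    have h8 : ((∑ t ∈ range (T + 1), (if NU.sg t ≤ 2 * u then NU.sg t + 1 else 0) : ℕ) : ℝ) ≤
        3 * (2 * u) + 1 := by exact_mod_cast (small (2 * u) (T + 1)).2
    have h9 := sum_geometric_two_le (T + 1)
    have : (0 : ℝ) ≤ u := u.cast_nonneg
    linarith
  exact_mod_cast main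

/-- The measure for one shift. -/
theorem mm_le {n m T sh : ℕ} {a s : ℕ → ℕ} {E : Finset ℕ} (hs : ∀ i < m, i ∉ E → s i < i)
    {x : ℕ → ℤ} (hx : ∀ i < m, x i = (a i : ℤ) + sh) :
    MM x n m T ≤ 2 * NU.sg (T + 1) * (n + 1 + #E) +
      ∑ i ∈ (range m).filter (fun i => i ∉ E), ∑ t ∈ range (T + 1), (if t = 0 ∨
        cc t < #((Ioc (s i) i).image a) ∨ (a i + sh) / cc t ≠ (a (s i) + sh) / cc t
        then NU.sg t + 1 else 0) := by
  have h3 : ∀ t, (NU.sg t + 1) * jmp x t m ≤ (NU.sg t + 1) * #E +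
      ∑ i ∈ (range m).filter (fun i => i ∉ E), if t = 0 ∨
      cc t < #((Ioc (s i) i).image a) ∨ (a i + sh) / cc t ≠ (a (s i) + sh) / cc t
      then NU.sg t + 1 else 0 := fun t => by
    rw [← sum_filter, sum_const, smul_eq_mul, mul_comm (card _), ← mul_add]
    refine Nat.mul_le_mul_left _ (le_trans (card_le_card fun i hi => ?_) (card_union_le _ _))
    obtain ⟨hi1, hi2⟩ := mem_filter.1 hi
    rw [mem_union, or_iff_not_imp_left]
    intro h5
    refine mem_filter.2 ⟨mem_filter.2 ⟨hi1, h5⟩, by_contra fun h6 => hi2 ?_⟩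
    push Not at h6
    have h8 := mem_range.1 hi1
    have h7 := hs i h8 h5
    refine ⟨by omega, s i, h7, ?_, le_trans ?_ h6.2.1⟩
    · rw [hx _ (by omega), hx _ h8, it_sh, it_sh, h6.2.2]
    · rw [dst, image_congr (g := (fun y : ℕ => (y : ℤ) + sh) ∘ a) fun r hr =>
        hx r ((mem_Ioc.1 hr).2.trans_lt h8), ← image_image]
      exact card_image_le
  rw [MM, sum_comm]
  refine le_trans ?_ (Nat.add_le_add_right (Nat.mul_le_mul_right _ (total _)) _)
  rw [sum_mul, ← sum_add_distrib]
  refine sum_le_sum fun t _ => ?_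
  have := h3 t
  rw [mul_add, mul_add (NU.sg t + 1) (n + 1)]
  omega

/-- The sum of the measure over the shifts. -/
theorem mm_avg {n m T D : ℕ} {a s v : ℕ → ℕ} {E : Finset ℕ} (hD : cc T ∣ D)
    (hs : ∀ i < m, i ∉ E → s i < i ∧
      #((Ioc (s i) i).image a) + Nat.dist (a i) (a (s i)) ≤ 2 ^ v i) :
    ∑ sh ∈ range D, MM (fun i => (a i : ℤ) + sh) n m T ≤
      D * (2 * NU.sg (T + 1) * (n + 1 + #E) +
        33 * ∑ i ∈ (range m).filter (fun i => i ∉ E), (v i + 1)) := by
  refine (sum_le_sum fun sh _ => mm_le (T := T) (n := n) (fun i hi h => (hs i hi h).1)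
    (sh := sh) (a := a) fun _ _ => rfl).trans ?_
  rw [sum_add_distrib, sum_const, card_range, smul_eq_mul, mul_add D, sum_comm, mul_sum, mul_sum]
  refine Nat.add_le_add_left (sum_le_sum fun i hi => ?_) _
  obtain ⟨h1, h2⟩ := mem_filter.1 hi
  exact one' hD (hs i (mem_range.1 h1) h2).2

end XAVA

theorem p_AVA :
    S_AVA := by
  refine ⟨200, fun n u m T T' a s v E hw hT => ?_⟩
  have h0 : NU.sg T ≤ 2 ^ T := by
    have := NU.Avg.sg_mono (show T ≤ T + 1 by omega)
    exact this
  have hD : NU.cc T ∣ 2 ^ T' := pow_dvd_pow 2 (h0.trans hT)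
  have h1 := XAVA.mm_avg (n := n) (m := 4 * m) (a := fun q => a (q / 4))
    (s := fun q => if q % 4 = 0 then 4 * s (q / 4) + 3 else q - 1)
    (v := fun q => if q % 4 = 0 then v (q / 4) else 0) (E := E.image fun i => 4 * i) hD (by
      intro q hq hE
      by_cases c : q % 4 = 0
      · simp only [if_pos c]
        have hi : q / 4 ∉ E := fun h => hE (mem_image.2 ⟨_, h, by omega⟩)
        obtain ⟨w1, -, w3⟩ := hw (q / 4) (by omega) hi
        refine ⟨by omega, le_trans (Nat.add_le_add (card_le_card ?_) (le_of_eq ?_)) w3⟩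
        · intro z hz
          obtain ⟨r, hr, rfl⟩ := mem_image.1 hz
          have := mem_Ioc.1 hr
          exact mem_image.2 ⟨r / 4, mem_Ioc.2 ⟨by omega, by omega⟩, rfl⟩
        · rw [show (4 * s (q / 4) + 3) / 4 = s (q / 4) by omega]
      · simp only [if_neg c]
        refine ⟨by omega, ?_⟩
        rw [show (q - 1) / 4 = q / 4 by omega, Nat.dist_self, add_zero, pow_zero]
        refine card_image_le.trans ?_
        rw [Nat.card_Ioc]
        omega)
  refine h1.trans (Nat.mul_le_mul_left _ ?_)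
  have h2 : #(E.image fun i => 4 * i) ≤ #E := card_image_le
  have h3 : ∑ q ∈ (range (4 * m)).filter (fun q => q ∉ E.image fun i => 4 * i),
      ((if q % 4 = 0 then v (q / 4) else 0) + 1) ≤
      ∑ i ∈ (range m).filter (fun i => i ∉ E), (v i + 1) + 4 * m := by
    rw [sum_add_distrib, sum_const, smul_eq_mul, mul_one]
    refine Nat.add_le_add ?_ ((card_filter_le _ _).trans (by rw [card_range]))
    rw [← sum_filter]
    refine le_trans (sum_le_sum_of_subset (t := ((range m).filter fun i => i ∉ E).image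
      fun i => 4 * i) ?_) ?_
    · intro q hq
      obtain ⟨c1, c2⟩ := mem_filter.1 hq
      obtain ⟨c3, c4⟩ := mem_filter.1 c1
      have := mem_range.1 c3
      exact mem_image.2 ⟨q / 4, mem_filter.2 ⟨mem_range.2 (by omega),
        fun h => c4 (mem_image.2 ⟨_, h, by omega⟩)⟩, by omega⟩
    · rw [sum_image fun i _ j _ h => by simpa using h]
      refine sum_le_sum fun i _ => ?_
      rw [show 4 * i / 4 = i by omega]
      omega
  have h4 : NU.sg (T + 1) = 2 ^ T := rfl
  rw [h4]
  have h5 : 2 * 2 ^ T * (n + 1 + #(E.image fun i => 4 * i)) ≤ 2 * ((n + 1 + #E) * 2 ^ T) := by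
    rw [mul_assoc, mul_comm (2 ^ T)]
    exact Nat.mul_le_mul_left _ (Nat.mul_le_mul_right _ (by omega))
  omega

end Pool.Agent.P.MP_119182_lc.AE
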