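import Pool.Agent.P.MP_119182_lc.AE.IfaceB

/-! Step AVB. -/

set_option autoImplicit false

namespace Pool.Agent.P.MP_119182_lc.AE

open Finset
open scoped Classical
open NU (mr)
open LU (key tch up low isl Nx within beyond LK)
open IT (Marks One mq)

theorem p_AVB :
    S_AVB := by
  intro u m σ T' a s v E hW hu
  have e : ∀ h : ℕ, SP σ (T' + 1) m (fun i => (a i : ℤ) + h) s E =
      ∑ i ∈ (range m).filter (fun i => i ∉ E), ∑ j ∈ Ioo σ (T' + 1),
        if (a i + h) / 2 ^ j ≠ (a (s i) + h) / 2 ^ j then (j - σ) ^ 4 else 0 := by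
    intro h
    unfold SP
    refine sum_congr rfl fun i _ => sum_congr rfl fun j _ => if_congr ?_ rfl rfl
    have k : ∀ w : ℕ, ((w : ℤ) + h) / 2 ^ j = (((w + h) / 2 ^ j : ℕ) : ℤ) := fun w => by
      push_cast
      rfl
    simp only [k, ne_eq, Nat.cast_inj]
  simp only [e]
  rw [sum_comm]
  calc _ ≤ ∑ i ∈ (range m).filter (fun i => i ∉ E), 2 ^ T' * 12800 := by
        refine sum_le_sum fun i hi => (GP.p_AVG σ T' (a i) (a (s i))).trans ?_
        obtain ⟨h1, h2⟩ := mem_filter.1 hi
        obtain ⟨-, w2, w3⟩ := hW i (mem_range.1 h1) h2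
        have w4 : 2 ^ v i ≤ 2 ^ σ := Nat.pow_le_pow_right two_pos (w2.trans hu)
        have w5 : Nat.dist (a i) (a (s i)) / 2 ^ σ ≤ 1 :=
          (Nat.div_le_div_right (by omega)).trans
            (Nat.div_self (Nat.two_pow_pos σ)).le
        have w6 : Nat.log 2 (Nat.dist (a i) (a (s i)) / 2 ^ σ + 1) ≤ 1 :=
          (Nat.log_mono_right (Nat.succ_le_succ w5)).trans (by norm_num)
        have w7 : (Nat.log 2 (Nat.dist (a i) (a (s i)) / 2 ^ σ + 1) + 1) ^ 5 ≤ 2 ^ 5 :=
          Nat.pow_le_pow_left (by omega) 5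
        exact Nat.mul_le_mul_left _ (by omega)
    _ ≤ _ := by
        rw [sum_const, smul_eq_mul]
        have : #((range m).filter fun i => i ∉ E) ≤ m :=
          (card_filter_le _ _).trans (card_range m).le
        calc _ ≤ m * (2 ^ T' * 12800) := Nat.mul_le_mul_right _ this
          _ = _ := by ring

end Pool.Agent.P.MP_119182_lc.AE
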