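import Pool.Agent.P.MP_119182_lc.AE.IfaceB

/-! Step AVC. -/

set_option autoImplicit false

namespace Pool.Agent.P.MP_119182_lc.AE

open Finset
open scoped Classical
open NU (mr)
open LU (key tch up low isl Nx within beyond LK)
open IT (Marks One mq)

theorem avc_near {c y z e s : ℕ} (hd : Nat.dist y z ≤ e) (h : (y + s) / c ≠ (z + s) / c) :
    (z + s) / c ≠ (z + e + s) / c ∨ (z - e + s) / c ≠ (z + s) / c := by
  rcases le_total y z with h1 | h1
  · right
    rw [Nat.dist_eq_sub_of_le h1] at hd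
    have a1 : (z - e + s) / c ≤ (y + s) / c := Nat.div_le_div_right (by omega)
    have a2 : (y + s) / c ≤ (z + s) / c := Nat.div_le_div_right (by omega)
    omega
  · left
    rw [Nat.dist_eq_sub_of_le_right h1] at hd
    have a1 : (y + s) / c ≤ (z + e + s) / c := Nat.div_le_div_right (by omega)
    have a2 : (z + s) / c ≤ (y + s) / c := Nat.div_le_div_right (by omega)
    omega

theorem avc_ends {c D e : ℕ} (hD : c ∣ D) (K : Finset ℕ) :
    ∑ s ∈ range D, #(K.filter fun z => (z + s) / c ≠ (z + e + s) / c ∨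
      (z - e + s) / c ≠ (z + s) / c) ≤ #K * (2 * e * (D / c)) := by
  have h1 : ∀ z, ∑ s ∈ range D, (if (z + s) / c ≠ (z + e + s) / c ∨
      (z - e + s) / c ≠ (z + s) / c then 1 else 0) ≤ 2 * e * (D / c) := fun z => by
    have a1 := NU.Avg.split hD z (z + e)
    have a2 := NU.Avg.split hD (z - e) z
    have a3 : Nat.dist z (z + e) = e := by
      rw [Nat.dist_eq_sub_of_le (Nat.le_add_right _ _), Nat.add_sub_cancel_left]
    have a4 : Nat.dist (z - e) z ≤ e := by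
      rw [Nat.dist_eq_sub_of_le (Nat.sub_le _ _)]
      omega
    rw [a3] at a1
    have a5 := a2.trans (Nat.mul_le_mul_right _ a4)
    refine le_trans (sum_le_sum (g := fun s => (if (z + s) / c ≠ (z + e + s) / c then 1 else 0) +
      (if (z - e + s) / c ≠ (z + s) / c then 1 else 0)) fun s _ => ?_) ?_
    · split_ifs <;> tauto
    · rw [sum_add_distrib, mul_assoc]
      omega
  simp only [card_filter]
  rw [sum_comm]
  exact (sum_le_card_nsmul K _ _ fun z _ => h1 z).trans (le_of_eq (smul_eq_mul _ _))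

theorem p_AVC :
    S_AVC := by
  intro u m A T' a s v E hW hA hT t
  obtain ⟨I, hI⟩ : ∃ I, I = (range m).filter fun i => i ∉ E ∧ 4 * s i + 3 ≤ t ∧ t ≤ 4 * i :=
    ⟨_, rfl⟩
  have mI : ∀ i, i ∈ I ↔ i < m ∧ i ∉ E ∧ 4 * s i + 3 ≤ t ∧ t ≤ 4 * i := fun i => by
    rw [hI, mem_filter, mem_range]
  have pw : ∀ i < m, i ∉ E → 2 ^ v i ≤ 2 ^ u := fun i h1 h2 =>
    Nat.pow_le_pow_right two_pos (hW i h1 h2).2.1
  have k1 : #(I.image fun i => a (s i)) ≤ 2 ^ u + 1 := by
    rcases I.eq_empty_or_nonempty with h | h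
    · simp [h]
    obtain ⟨i0, h0, h1⟩ := exists_min_image I s h
    obtain ⟨b1, b2, b3, b4⟩ := (mI i0).1 h0
    have b5 := (hW i0 b1 b2).2.2
    have b6 := pw i0 b1 b2
    refine (card_le_card (t := insert (a (s i0)) ((Ioc (s i0) i0).image a)) fun z hz => ?_).trans
      ((card_insert_le _ _).trans (by omega))
    obtain ⟨i, hi, rfl⟩ := mem_image.1 hz
    obtain ⟨-, -, c3, -⟩ := (mI i).1 hi
    rcases (h1 i hi).eq_or_lt with e | e
    · rw [e]
      exact mem_insert_self _ _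
    · exact mem_insert_of_mem (mem_image_of_mem _ (mem_Ioc.2 ⟨e, by omega⟩))
  have k2 : ∀ h : ℕ, #(PP A m (fun i => (a i : ℤ) + h) s E t) ≤
      #((I.image fun i => a (s i)).filter fun z => (z + h) / 2 ^ A ≠ (z + 2 ^ u + h) / 2 ^ A ∨
        (z - 2 ^ u + h) / 2 ^ A ≠ (z + h) / 2 ^ A) := fun h => by
    refine le_trans (card_le_card fun z hz => ?_) (card_image_le (f := fun z : ℕ => (z : ℤ) + h))
    obtain ⟨i, hi, rfl⟩ := mem_image.1 hz
    obtain ⟨c1, c2, c3, c4, c5⟩ := mem_filter.1 hi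
    have c6 := mem_range.1 c1
    have c7 := (hW i c6 c2).2.2
    have c8 := pw i c6 c2
    refine mem_image.2 ⟨a (s i), mem_filter.2 ⟨mem_image_of_mem _ ((mI i).2 ⟨c6, c2, c4, c5⟩),
      avc_near (y := a i) (by omega) fun e => c3 ?_⟩, rfl⟩
    have := congrArg (Nat.cast : ℕ → ℤ) e
    push_cast at this
    exact this
  have k3 : 2 ^ A ∣ 2 ^ T' := pow_dvd_pow 2 hT
  refine (sum_le_sum fun h _ => k2 h).trans ((avc_ends k3 _).trans ?_)
  have k4 : 1 ≤ 2 ^ u := Nat.one_le_two_pow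
  have k5 : 2 ^ (2 * u + 2) ≤ 2 ^ A := Nat.pow_le_pow_right two_pos hA
  calc _ ≤ (2 * 2 ^ u) * (2 * 2 ^ u * (2 ^ T' / 2 ^ A)) := Nat.mul_le_mul_right _ (by omega)
    _ = 2 ^ (2 * u + 2) * (2 ^ T' / 2 ^ A) := by ring
    _ ≤ 2 ^ A * (2 ^ T' / 2 ^ A) := Nat.mul_le_mul_right _ k5
    _ = _ := Nat.mul_div_cancel' k3

end Pool.Agent.P.MP_119182_lc.AE
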