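import Pool.Agent.P.MP_119182_lc.AE.IfaceB

/-! The weights cut at a tier, with a top band in which cold items weigh nothing. -/

set_option autoImplicit false

namespace Pool.Agent.P.MP_119182_lc.ADBud

open Finset
open scoped Classical
open NU (sg cc it dst pass jmp MM)

section
variable (y : ℕ → ℤ) (S : Finset ℤ) (m T : ℕ)

/-- The weight of an item of the top band. -/
noncomputable def omT (t : ℕ) (c : ℤ) : ℕ := om y S m (2 ^ T) (T + 1) t c - 1

theorem omT_eq (t : ℕ) (c : ℤ) : omT y S m T t c =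
    if (Nx y m (T + 1) t c).Nonempty then Wc y S (2 ^ T) (T + 1) (sInf (Nx y m (T + 1) t c)) c
      else 0 := by
  have e : 3 * 2 ^ T - 3 * sg (T + 1 + 1) = 0 := by
    have : sg (T + 1 + 1) = 2 ^ (T + 1) := rfl
    rw [this, pow_succ]
    omega
  rw [omT, om, e, pow_zero, Nat.add_sub_cancel_left]

theorem omT_step (t : ℕ) (c : ℤ) (h : c ≠ it (T + 1) (y t)) :
    omT y S m T (t + 1) c = omT y S m T t c := by
  rw [omT, omT, om_step y S m _ _ t c h]

theorem omT_sum (t : ℕ) (I : Finset ℤ) : ∑ c ∈ I, omT y S m T t c ≤ 2 ^ (3 * 2 ^ T + 1) := by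
  have h1 : ∑ c ∈ I, omT y S m T t c ≤ ∑ c ∈ I, Wc y S (2 ^ T) (T + 1) t c := by
    refine sum_le_sum fun c _ => ?_
    rw [omT_eq]
    split_ifs with h
    · refine sum_le_sum fun z hz => wz_anti y _ (Nat.sInf_mem h).1 fun r a b e => ?_
      have a2 := (Nat.sInf_mem h).2.1
      have : sInf (Nx y m (T + 1) t c) ≤ r :=
        Nat.sInf_le ⟨a, by omega, e ▸ (mem_filter.1 hz).2⟩
      omega
    · exact Nat.zero_le _
  refine h1.trans ?_
  unfold Wc
  rw [sum_fiberwise_eq_sum_filter, pow_succ']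
  exact wz_sum y _ _ t

theorem omT_zero (c : ℤ) : omT y S m T 0 c = 0 := by
  rw [omT_eq]
  split_ifs with h
  · refine sum_eq_zero fun z hz => if_neg fun ⟨s, hs, e⟩ => ?_
    have a2 := (Nat.sInf_mem h).2.1
    have : sInf (Nx y m (T + 1) 0 c) ≤ s :=
      Nat.sInf_le ⟨Nat.zero_le _, by omega, e ▸ (mem_filter.1 hz).2⟩
    omega
  · rfl

theorem omT_hot {u r t : ℕ} (hu : 2 * u + 3 ≤ 3 * 2 ^ T) (hS : y r ∈ S) (hr : r < t) (ht : t < m)
    (e : it (T + 1) (y r) = it (T + 1) (y t)) (hd : dst y r t ≤ 2 ^ u) :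
    2 ≤ omT y S m T t (it (T + 1) (y t)) := by
  have hG : t ∈ Nx y m (T + 1) t (it (T + 1) (y t)) := ⟨le_rfl, ht, rfl⟩
  have a1 : sInf (Nx y m (T + 1) t (it (T + 1) (y t))) = t :=
    le_antisymm (Nat.sInf_le hG) (Nat.sInf_mem ⟨t, hG⟩).1
  rw [omT_eq, if_pos ⟨t, hG⟩, a1]
  have a4 := wz_low y (2 ^ (3 * 2 ^ T)) hr hd
  have a6 : 2 ≤ 2 ^ (3 * 2 ^ T) / (2 ^ u + 1) ^ 2 := by
    rw [Nat.le_div_iff_mul_le (by positivity)]
    have b1 : 1 ≤ 2 ^ u := Nat.one_le_two_pow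
    have b2 : 2 ^ u + 1 ≤ 2 ^ (u + 1) := by rw [pow_succ]; omega
    refine (Nat.mul_le_mul_left _ (Nat.pow_le_pow_left b2 2)).trans ?_
    rw [← pow_mul, ← pow_succ']
    exact Nat.pow_le_pow_right two_pos (by omega)
  refine le_trans (a6.trans a4) ?_
  exact single_le_sum (f := fun z => wz y (2 ^ (3 * 2 ^ T)) _ z) (fun _ _ => Nat.zero_le _)
    (mem_filter.2 ⟨hS, e⟩)

/-- The ratio of the top band. -/
noncomputable def BT (t : ℕ) (z : ℤ) : ℕ :=
  Nat.log 2 (2 ^ (3 * 2 ^ T + 1)) - Nat.log 2 (omT y S m T t (it (T + 1) z))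

theorem chainT (t : ℕ) (z : ℤ) :
    ∑ j ∈ range (T + 1), B y S m (2 ^ T) j t z + BT y S m T t z ≤ T + 6 +
      ∑ j ∈ range (T + 1),
        if Q y S m (2 ^ T) j t (it (j + 1) z) then 0 else 12 * (sg j + 1) := by
  have h0 := chain y S m (2 ^ T) t z (T + 1) le_rfl
  have h0' := chain' y S m (2 ^ T) t z (T + 1) le_rfl
  have h1 := log_low y S m (2 ^ T) 0 t (it 0 z)
  have h2 : Nat.log 2 (om y S m (2 ^ T) (T + 1) t (it (T + 1) z)) ≤
      Nat.log 2 (omT y S m T t (it (T + 1) z)) + 1 := by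
    rw [omT]
    generalize om y S m (2 ^ T) (T + 1) t (it (T + 1) z) = w
    rcases Nat.lt_or_ge w 2 with h | h
    · rw [Nat.log_of_lt h]
      exact Nat.zero_le _
    · rw [← Nat.log_mul_base one_lt_two (by omega)]
      exact Nat.log_mono_right (by omega)
  have h3 : sg (0 + 1) = 1 := rfl
  rw [BT, Nat.log_pow one_lt_two]
  omega

/-- The budget with the top band. -/
theorem budgetT (n : ℕ) (hS : ∀ i < m, y i ∈ S) (hn : #S ≤ n) :
    ∑ s ∈ range m, (∑ j ∈ range (T + 1), B y S m (2 ^ T) j s (y s) + BT y S m T s (y s)) +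
      ∑ s ∈ range m, (∑ j ∈ range (T + 1), B y S m (2 ^ T) j (s + 1) (y s) +
        BT y S m T (s + 1) (y s)) ≤ 2 * (m * (T + 6)) + 24 * MM y n m T := by
  have hA : sg (T + 1) ≤ 2 ^ T := le_rfl
  have h1 : ∀ (p : ℕ → ℕ → Prop), ∑ s ∈ range m, ∑ j ∈ range (T + 1),
      (if p j s then 0 else 12 * (sg j + 1)) =
      ∑ j ∈ range (T + 1), 12 * ((sg j + 1) * #((range m).filter fun s => ¬ p j s)) := fun p => by
    rw [sum_comm]
    refine sum_congr rfl fun j _ => ?_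
    rw [sum_ite, sum_const_zero, zero_add, sum_const, smul_eq_mul]
    ring
  have h2 := sum_le_sum (s := range m) fun s _ => chainT y S m T s (y s)
  have h3 := sum_le_sum (s := range m) fun s _ => chainT y S m T (s + 1) (y s)
  rw [sum_add_distrib (f := fun _ => T + 6), sum_const, card_range, smul_eq_mul] at h2 h3
  rw [h1 fun j s => Q y S m (2 ^ T) j s (it (j + 1) (y s))] at h2
  rw [h1 fun j s => Q y S m (2 ^ T) j (s + 1) (it (j + 1) (y s))] at h3
  have h4 : ∑ j ∈ range (T + 1), 12 * ((sg j + 1) *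
      #((range m).filter fun s => ¬ Q y S m (2 ^ T) j s (it (j + 1) (y s)))) ≤
      12 * MM y n m T := by
    rw [MM, mul_sum]
    refine sum_le_sum fun j hj => Nat.mul_le_mul_left _ (Nat.mul_le_mul_left _ ?_)
    have := cnt_back y S m (2 ^ T) hS
      ((NU.Avg.sg_mono (show j + 1 ≤ T + 1 from mem_range.1 hj)).trans hA)
    omega
  have h5 : ∑ j ∈ range (T + 1), 12 * ((sg j + 1) *
      #((range m).filter fun s => ¬ Q y S m (2 ^ T) j (s + 1) (it (j + 1) (y s)))) ≤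
      12 * MM y n m T := by
    rw [MM, mul_sum]
    refine sum_le_sum fun j hj => Nat.mul_le_mul_left _ (Nat.mul_le_mul_left _ ?_)
    have := cnt_fwd y S m (2 ^ T) hS
      ((NU.Avg.sg_mono (show j + 1 ≤ T + 1 from mem_range.1 hj)).trans hA)
    omega
  omega

end

end Pool.Agent.P.MP_119182_lc.ADBud

namespace Pool.Agent.P.MP_119182_lc.AE

open Finset
open scoped Classical
open NU (mr)

/-- The system cut at tier `T + 1`. -/
noncomputable def budSys (d : NU.Run) (T : ℕ) : Sys where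
  J := T + 1
  W := 3 * 2 ^ T + 3
  cell := fun j z => if j ≤ T + 1 then NU.it j z else 0
  om := fun j t c => if j ≤ T then ADBud.om d.x d.keys d.m (2 ^ T) j t c
    else if j = T + 1 then ADBud.omT d.x d.keys d.m T t c else 0
  SG := fun j t z => if j ≤ T then ADBud.SG d.x d.keys d.m (2 ^ T) j t (NU.it (j + 1) z)
    else 2 ^ (3 * 2 ^ T + 1)

theorem bud_cell (d : NU.Run) (T : ℕ) {j : ℕ} (hj : j ≤ T + 1) : (budSys d T).cell j = NU.it j :=
  funext fun _ => if_pos hj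

theorem bud_cell' (d : NU.Run) (T : ℕ) {j : ℕ} (hj : T + 1 < j) (z : ℤ) :
    (budSys d T).cell j z = 0 := if_neg (not_le.2 hj)

theorem bud_om (d : NU.Run) (T : ℕ) {j : ℕ} (hj : j ≤ T) :
    (budSys d T).om j = ADBud.om d.x d.keys d.m (2 ^ T) j :=
  funext fun _ => funext fun _ => if_pos hj

theorem bud_omT (d : NU.Run) (T : ℕ) : (budSys d T).om (T + 1) = ADBud.omT d.x d.keys d.m T :=
  funext fun _ => funext fun _ => (if_neg (by omega)).trans (if_pos rfl)

theorem bud_om' (d : NU.Run) (T : ℕ) {j : ℕ} (hj : T + 1 < j) (t : ℕ) (c : ℤ) :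
    (budSys d T).om j t c = 0 := (if_neg (by omega)).trans (if_neg (by omega))

theorem bud_SG (d : NU.Run) (T : ℕ) {j : ℕ} (hj : j ≤ T) (t : ℕ) (z : ℤ) :
    (budSys d T).SG j t z = ADBud.SG d.x d.keys d.m (2 ^ T) j t (NU.it (j + 1) z) := if_pos hj

theorem bud_SG' (d : NU.Run) (T : ℕ) {j : ℕ} (hj : T < j) (t : ℕ) (z : ℤ) :
    (budSys d T).SG j t z = 2 ^ (3 * 2 ^ T + 1) := if_neg (not_le.2 hj)

theorem bud_sm (d : NU.Run) (T j t : ℕ) (z a b : ℤ)
    (ha : (budSys d T).cell (j + 1) a = (budSys d T).cell (j + 1) z)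
    (hb : (budSys d T).cell (j + 1) b = (budSys d T).cell (j + 1) z) :
    sm (budSys d T) j t ((budSys d T).cell j a) ((budSys d T).cell j b) ≤
      (budSys d T).SG j t z := by
  rcases Nat.lt_or_ge T j with h | h
  · rw [bud_SG' d T h, sm]
    rcases Nat.eq_or_lt_of_le (show T + 1 ≤ j from h) with rfl | h'
    · rw [bud_omT]
      exact ADBud.omT_sum _ _ _ _ _ _
    · rw [sum_eq_zero fun c _ => bud_om' d T h' t c]
      exact Nat.zero_le _
  · rw [bud_cell d T (by omega : j + 1 ≤ T + 1)] at ha hb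
    rw [bud_SG d T h, sm, bud_om d T h, bud_cell d T (by omega : j ≤ T + 1)]
    exact ADBud.sm_le_SG _ _ _ _ t (ADBud.it_mem.2 ha) (ADBud.it_mem.2 hb)

theorem bud_ok (d : NU.Run) (T : ℕ) (hd : d.OK) (hl : d.L < d.R) : OK d (budSys d T) := by
  have hp : ∀ j, (0 : ℤ) < 2 ^ NU.sg j := fun j => by positivity
  refine ⟨hd, hl, fun j a b h => ?_, fun j a b h => ?_, fun a b h => ?_, fun a b _ _ => ?_,
    Nat.le_add_left _ _ |>.trans' (by norm_num), fun j t c _ h => ?_, fun j t a b _ _ h => ?_,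
    fun j t z a b _ _ ha hb => bud_sm d T j t z a b ha hb⟩
  · rcases Nat.lt_or_ge (T + 1) j with hj | hj
    · rw [bud_cell' d T hj, bud_cell' d T hj]
    · rw [bud_cell d T hj]
      exact Int.ediv_le_ediv (hp j) h
  · rcases Nat.lt_or_ge (T + 1) (j + 1) with hj | hj
    · rw [bud_cell' d T hj, bud_cell' d T hj]
    · rw [bud_cell d T (by omega : j ≤ T + 1)] at h
      rw [bud_cell d T hj]
      exact ADBud.up_eq h
  · rw [bud_cell d T (Nat.zero_le _)] at h
    simpa [NU.it, NU.sg] using h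
  · exact (bud_cell' d T (Nat.lt_succ_self _) a).trans (bud_cell' d T (Nat.lt_succ_self _) b).symm
  · rcases Nat.lt_or_ge T j with hj | hj
    · rcases Nat.eq_or_lt_of_le (show T + 1 ≤ j from hj) with rfl | h'
      · rw [bud_cell d T le_rfl] at h
        rw [bud_omT]
        exact ADBud.omT_step _ _ _ _ t c h
      · rw [bud_om' d T h', bud_om' d T h']
    · rw [bud_cell d T (by omega : j ≤ T + 1)] at h
      rw [bud_om d T hj]
      exact ADBud.om_step _ _ _ _ j t c h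
  · refine (bud_sm d T j t b a b h rfl).trans_lt ?_
    change _ < 2 ^ (3 * 2 ^ T + 3)
    rcases Nat.lt_or_ge T j with hj | hj
    · rw [bud_SG' d T hj]
      exact Nat.pow_lt_pow_right one_lt_two (by omega)
    · rw [bud_SG d T hj]
      exact ADBud.SG_lt _ _ _ _ (NU.Avg.sg_mono (show j + 1 ≤ T + 1 by omega)) t _

theorem bud_BB (d : NU.Run) (T n : ℕ) (hd : d.OK) (hR : d.R = d.L + n + 1) :
    BB0 d (budSys d T) + BB1 d (budSys d T) ≤ 2 * (d.m * (T + 6)) + 24 * NU.MM d.x n d.m T := by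
  have a1 := ADBud.budgetT d.x d.keys d.m T n
    (fun i hi => mem_Ioo.2 (hd.step i hi).mem) (by rw [NU.Run.keys, Int.card_Ioo]; omega)
  refine le_trans (le_of_eq ?_) a1
  unfold BB0 BB1
  change ∑ s ∈ range d.m, ∑ j ∈ range (T + 1 + 1), _ +
    ∑ s ∈ range d.m, ∑ j ∈ range (T + 1 + 1), _ = _
  congr 1 <;> refine sum_congr rfl fun s _ => ?_ <;> rw [sum_range_succ] <;> congr 1
  · refine sum_congr rfl fun j hj => ?_
    have h : j ≤ T := Nat.lt_succ_iff.1 (mem_range.1 hj)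
    rw [B0, ADBud.B, bud_SG d T h, bud_om d T h, bud_cell d T (by omega : j ≤ T + 1)]
  · rw [B0, ADBud.BT, bud_SG' d T (Nat.lt_succ_self _), bud_omT, bud_cell d T le_rfl]
  · refine sum_congr rfl fun j hj => ?_
    have h : j ≤ T := Nat.lt_succ_iff.1 (mem_range.1 hj)
    rw [B1, ADBud.B, bud_SG d T h, bud_om d T h, bud_cell d T (by omega : j ≤ T + 1)]
  · rw [B1, ADBud.BT, bud_SG' d T (Nat.lt_succ_self _), bud_omT, bud_cell d T le_rfl]

theorem bud_all (T n u : ℕ) (d : NU.Run) (hd : d.OK) (hR : d.R = d.L + n + 1)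
    (hu : 2 * u + 3 ≤ 3 * 2 ^ T) :
    ∃ S : Sys, S.J = T + 1 ∧ S.W = 3 * 2 ^ T + 3 ∧ OK d S ∧ (∀ j ≤ T + 1, S.cell j = NU.it j) ∧
      (∀ j ≤ T, ∀ t c, 1 ≤ S.om j t c) ∧ (∀ c, S.om (T + 1) 0 c = 0) ∧
      (∀ r t, r < t → t < d.m → NU.it (T + 1) (d.x r) = NU.it (T + 1) (d.x t) →
        NU.dst d.x r t ≤ 2 ^ u → 2 ≤ S.om (T + 1) t (NU.it (T + 1) (d.x t))) ∧
      BB0 d S + BB1 d S ≤ 2 * (d.m * (T + 6)) + 24 * NU.MM d.x n d.m T := by
  refine ⟨budSys d T, rfl, rfl, bud_ok d T hd (by omega), fun j hj => bud_cell d T hj,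
    fun j hj t c => ?_, fun c => ?_, fun r t h1 h2 e h3 => ?_, bud_BB d T n hd hR⟩
  · rw [bud_om d T hj]
    exact ADBud.om_pos _ _ _ _ j t c
  · rw [bud_omT]
    exact ADBud.omT_zero _ _ _ _ c
  · rw [bud_omT]
    exact ADBud.omT_hot _ _ _ _ hu (mem_Ioo.2 (hd.step r (h1.trans h2)).mem) h1 h2 e h3

theorem p_BUD :
    S_BUD := by
  refine ⟨24, fun T n d hd hR hT => ?_⟩
  have h4 : 2 ^ 2 ≤ 2 ^ T := Nat.pow_le_pow_right two_pos hT
  obtain ⟨S, h1, h2, h3, h5, h6, h7, h8, h9⟩ := bud_all T n (2 ^ T) d hd hR (by omega)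
  refine ⟨S, h1, by omega, h3, fun j hj => h6 j (by omega), fun a => ?_, fun c => ?_,
    fun r t a b e f => ?_, h9.trans ?_⟩
  · rw [h1, h5 _ le_rfl]
    rfl
  · rw [h1, h7]
    exact two_pos
  · rw [h1]
    exact h8 r t a b e f
  · have a3 : d.m * (T + 6) ≤ d.m * (3 * (T + 2)) := Nat.mul_le_mul_left _ (by omega)
    rw [mul_left_comm] at a3
    omega

end Pool.Agent.P.MP_119182_lc.AE
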