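import Pool.Agent.P.MP_119182_lc.AE.Iface

/-! Step CHN. -/

set_option autoImplicit false

namespace Pool.Agent.P.MP_119182_lc.AE

open Finset
open scoped Classical
open NU (Run mr)
open LU (key tch up low isl Nx within beyond LK)

lemma chn_split (P : Finset (ℕ × ℕ)) (A : ℕ × ℕ → Prop)
    (h1 : ∀ p ∈ P, ∀ q ∈ P, ¬ A p → ¬ A q → p.1 = q.1 → p.2 = q.2)
    (h2 : ∀ p ∈ P, ∀ q ∈ P, A p → A q → p.2 = q.2 → p.1 = q.1) :
    #P ≤ #(P.image Prod.fst) + #(P.image Prod.snd) := by
  rw [← Finset.card_filter_add_card_filter_not (s := P) A, add_comm]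
  refine add_le_add ?_ ?_
  · refine Finset.card_le_card_of_injOn Prod.fst
      (fun p hp => mem_coe.2 (mem_image_of_mem _ (mem_filter.1 hp).1)) fun p hp q hq e => ?_
    have hp := mem_filter.1 hp
    have hq := mem_filter.1 hq
    exact Prod.ext e (h1 p hp.1 q hq.1 hp.2 hq.2 e)
  · refine Finset.card_le_card_of_injOn Prod.snd
      (fun p hp => mem_coe.2 (mem_image_of_mem _ (mem_filter.1 hp).1)) fun p hp q hq e => ?_
    have hp := mem_filter.1 hp
    have hq := mem_filter.1 hq
    exact Prod.ext (h2 p hp.1 q hq.1 hp.2 hq.2 e) e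

theorem p_CHN :
    S_CHN := by
  refine ⟨fun P h => ?_, fun P m hm h => ?_, fun c B e he => ?_, ?_⟩
  · refine chn_split P (fun p => ∃ q ∈ P, q.1 = p.1 ∧ q.2 < p.2) (fun p hp q hq a b e => ?_)
      fun p hp q hq ⟨p', hp', a1, a2⟩ ⟨q', hq', b1, b2⟩ e => ?_
    · rcases lt_trichotomy p.2 q.2 with c | c | c
      · exact absurd ⟨p, hp, e, c⟩ b
      · exact c
      · exact absurd ⟨q, hq, e.symm, c⟩ a
    · rcases lt_trichotomy p.1 q.1 with c | c | c
      · have := h p' hp' q hq (by omega)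
        omega
      · exact c
      · have := h q' hq' p hp (by omega)
        omega
  · have k := chn_split P (fun p => ∃ r, (p.1, r) ∈ P ∧ p.2 < r) (fun p hp q hq a b e => by
      rcases lt_trichotomy p.2 q.2 with c | c | c
      · exact absurd ⟨q.2, by rw [e]; exact hq, c⟩ a
      · exact c
      · exact absurd ⟨p.2, by rw [← e]; exact hp, c⟩ b)
      fun p hp q hq ⟨r, a1, a2⟩ ⟨r', b1, b2⟩ e => by
        rcases lt_trichotomy p.1 q.1 with c | c | c
        · have := h p.1 q.1 p.2 r' hp (by rw [e]; exact hq) b1 c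
          omega
        · exact c
        · have := h q.1 p.1 q.2 r hq (by rw [← e]; exact hp) a1 c
          omega
    have k1 : #(P.image Prod.fst) ≤ #(range m) := card_le_card fun a ha => by
      obtain ⟨p, hp, rfl⟩ := mem_image.1 ha
      exact mem_range.2 (hm p hp).1
    have k2 : #(P.image Prod.snd) ≤ #(range m) := card_le_card fun a ha => by
      obtain ⟨p, hp, rfl⟩ := mem_image.1 ha
      exact mem_range.2 (hm p hp).2
    rw [card_range] at k1 k2
    omega
  · rw [Nat.card_Icc]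
    have : (c + B) / e ≤ c / e + B / e + 1 := by
      rw [Nat.add_div he]
      split_ifs <;> omega
    generalize (c + B) / e = u at this ⊢
    generalize c / e = v at this ⊢
    generalize B / e = w at this ⊢
    omega
  · have hs : Summable fun i : ℕ => (i : ℝ) ^ 6 * (1 / 2 : ℝ) ^ i :=
      summable_pow_mul_geometric_of_norm_lt_one 6 (by norm_num)
    have hs1 := (summable_nat_add_iff 1).2 hs
    obtain ⟨C, hC⟩ := exists_nat_ge (∑' i : ℕ, ((i + 1 : ℕ) : ℝ) ^ 6 * (1 / 2 : ℝ) ^ (i + 1))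
    refine ⟨4 * C, fun B I => ?_⟩
    have h1 := (hs1.sum_le_tsum (range I) fun i _ => by positivity).trans hC
    have h2 : ((∑ i ∈ range I, (i + 1) ^ 6 * (B / 2 ^ (i - 1)) : ℕ) : ℝ) ≤
        ∑ i ∈ range I, 4 * B * (((i + 1 : ℕ) : ℝ) ^ 6 * (1 / 2 : ℝ) ^ (i + 1)) := by
      rw [Nat.cast_sum]
      refine sum_le_sum fun i _ => ?_
      have a : ((B / 2 ^ (i - 1) : ℕ) : ℝ) ≤ 4 * B * (1 / 2 : ℝ) ^ (i + 1) := by
        refine Nat.cast_div_le.trans ?_
        push_cast
        rw [div_le_iff₀ (by positivity)]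
        have b : (1 : ℝ) ≤ 4 * (1 / 2 : ℝ) ^ (i + 1) * 2 ^ (i - 1) := by
          rcases i with _ | i
          · norm_num
          · rw [Nat.add_sub_cancel, pow_succ, pow_succ, one_div, inv_pow]
            field_simp
            norm_num
        have := mul_le_mul_of_nonneg_left b (Nat.cast_nonneg (α := ℝ) B)
        linarith
      rw [Nat.cast_mul, Nat.cast_pow]
      have := mul_le_mul_of_nonneg_left a (show (0 : ℝ) ≤ ((i + 1 : ℕ) : ℝ) ^ 6 by positivity)
      linarith
    rw [← mul_sum] at h2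
    have h3 := mul_le_mul_of_nonneg_left h1 (show (0 : ℝ) ≤ 4 * B by positivity)
    have : ((∑ i ∈ range I, (i + 1) ^ 6 * (B / 2 ^ (i - 1)) : ℕ) : ℝ) ≤ ((4 * C * B : ℕ) : ℝ) := by
      push_cast at h2 h3 ⊢
      linarith
    exact_mod_cast this

end Pool.Agent.P.MP_119182_lc.AE
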