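import Pool.Agent.P.MP_119182_lc.AE.IfaceB

/-! Step END. -/

set_option autoImplicit false

namespace Pool.Agent.P.MP_119182_lc.AE

open Finset
open scoped Classical
open NU.Avg (term term_mem one_le_term last_spec)

theorem end_best {n : ℕ} (hn : 1 ≤ n) (a : ℕ → ℕ) (i : ℕ) : ∃ j v : ℕ,
    (v : ℝ) + 1 ≤ 3 * term n a i ∧ wset a i j + Nat.dist (a i) j ≤ 2 ^ v := by
  obtain ⟨j, -, h⟩ := term_mem hn a i
  have h1 := one_le_term hn a i
  have h2 : (⌈term n a i⌉₊ : ℝ) + 1 ≤ 3 * term n a i := by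
    have := Nat.ceil_lt_add_one (zero_le_one.trans h1)
    linarith
  refine ⟨j, _, h2, ?_⟩
  have e : (wset a i j : ℝ) + |(a i : ℝ) - (j : ℝ)| = (wset a i j + Nat.dist (a i) j : ℕ) := by
    rw [Nat.cast_add]
    congr 1
    rcases le_total (a i) j with h4 | h4
    · rw [Nat.dist_eq_sub_of_le h4, Nat.cast_sub h4, abs_sub_comm,
        abs_of_nonneg (sub_nonneg.2 (Nat.cast_le.2 h4))]
    · rw [Nat.dist_eq_sub_of_le_right h4, Nat.cast_sub h4,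
        abs_of_nonneg (sub_nonneg.2 (Nat.cast_le.2 h4))]
  rcases Nat.eq_zero_or_pos (wset a i j + Nat.dist (a i) j) with h4 | h4
  · exact h4 ▸ Nat.zero_le _
  · have h5 := ((le_max_right _ _).trans h.le).trans (Nat.le_ceil _)
    rw [e, Real.logb_le_iff_le_rpow one_lt_two (Nat.cast_pos.2 h4), Real.rpow_natCast] at h5
    exact_mod_cast h5

theorem end_wit (a : ℕ → ℕ) (i j v : ℕ) (h3 : wset a i j + Nat.dist (a i) j ≤ 2 ^ v) : ∃ s,
    (s < i ∧ #((Ioc s i).image a) + Nat.dist (a i) (a s) ≤ 2 ^ v) ∨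
    ((¬ ∃ r < i, a r = a i) ∧ #((Ioc 0 i).image a) ≤ 2 ^ v) := by
  by_cases hj : ∃ r < i, a r = j
  · obtain ⟨r, hr, rfl⟩ := hj
    refine ⟨lastIdx a i (a r), Or.inl ⟨(last_spec hr).1, ?_⟩⟩
    rw [(last_spec (a := a) hr).2]
    exact h3
  · have h6 : lastIdx a i j = 0 := by
      rw [lastIdx, filter_eq_empty_iff.2 fun s hs e => hj ⟨s, mem_range.1 hs, e⟩]
      rfl
    rw [wset, h6] at h3
    by_cases hi : ∃ r < i, a r = a i
    · obtain ⟨r, hr, e⟩ := hi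
      refine ⟨r, Or.inl ⟨hr, le_trans ?_ h3⟩⟩
      rw [e, Nat.dist_self]
      exact Nat.add_le_add (card_le_card (image_subset_image (Ioc_subset_Ioc_left r.zero_le)))
        (Nat.zero_le _)
    · exact ⟨0, Or.inr ⟨hi, by omega⟩⟩

theorem end_new (a : ℕ → ℕ) (m w : ℕ) : #((range m).filter fun i =>
    (¬ ∃ r < i, a r = a i) ∧ #((Ioc 0 i).image a) ≤ w) ≤ w + 1 := by
  set F := (range m).filter fun i => (¬ ∃ r < i, a r = a i) ∧ #((Ioc 0 i).image a) ≤ w with hF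
  rcases F.eq_empty_or_nonempty with h | h
  · rw [h]
    simp
  have h1 := (mem_filter.1 (F.max'_mem h)).2.2
  refine le_trans (card_le_card_of_injOn (t := insert (a 0) ((Ioc 0 (F.max' h)).image a)) a
    (fun i hi => ?_) fun i hi i' hi' e => ?_) ((card_insert_le _ _).trans (by omega))
  · have h2 := F.le_max' i hi
    rcases Nat.eq_zero_or_pos i with rfl | h3
    · exact mem_coe.2 (mem_insert_self _ _)
    · exact mem_coe.2 (mem_insert_of_mem (mem_image_of_mem a (mem_Ioc.2 ⟨h3, h2⟩)))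
  · have b1 := (mem_filter.1 (mem_coe.1 hi)).2.1
    have b2 := (mem_filter.1 (mem_coe.1 hi')).2.1
    rcases lt_trichotomy i i' with h4 | h4 | h4
    · exact absurd ⟨i, h4, e⟩ b2
    · exact h4
    · exact absurd ⟨i', h4, e.symm⟩ b1

theorem end_pow (k : ℕ) : (k + 1) ^ 5 ≤ 3125 * 2 ^ k := by
  have h1 : k / 5 < 2 ^ (k / 5) := Nat.lt_two_pow_self
  have h2 : 2 ^ (k / 5 * 5) ≤ 2 ^ k := Nat.pow_le_pow_right two_pos (by omega)
  calc (k + 1) ^ 5 ≤ (5 * 2 ^ (k / 5)) ^ 5 := Nat.pow_le_pow_left (by omega) 5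
    _ = 3125 * 2 ^ (k / 5 * 5) := by
      rw [mul_pow, ← pow_mul]
      norm_num
    _ ≤ _ := Nat.mul_le_mul_left _ h2

theorem end_few {n u L : ℕ} (h : 2 * u + 2 < L) (hL : 2 ^ L ≤ n) :
    (2 ^ u + 1) * (L + 1) ^ 5 ≤ 200000 * n := by
  have h1 := end_pow (L / 2)
  have h2 : 2 ^ u ≤ 2 ^ (L / 2) := Nat.pow_le_pow_right two_pos (by omega)
  have h3 : 1 ≤ 2 ^ (L / 2) := Nat.one_le_two_pow
  have h4 : 2 ^ (L / 2) * 2 ^ (L / 2) ≤ n := by
    rw [← pow_add]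
    exact (Nat.pow_le_pow_right two_pos (by omega)).trans hL
  have h5 : (L + 1) ^ 5 ≤ 32 * (3125 * 2 ^ (L / 2)) :=
    calc (L + 1) ^ 5 ≤ (2 * (L / 2 + 1)) ^ 5 := Nat.pow_le_pow_left (by omega) 5
      _ = 32 * (L / 2 + 1) ^ 5 := by ring
      _ ≤ _ := Nat.mul_le_mul_left _ h1
  calc _ ≤ (2 * 2 ^ (L / 2)) * (32 * (3125 * 2 ^ (L / 2))) := Nat.mul_le_mul (by omega) h5
    _ = 200000 * (2 ^ (L / 2) * 2 ^ (L / 2)) := by ring
    _ ≤ _ := Nat.mul_le_mul_left _ h4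

theorem end_main (hLOC : S_LOC) (hFIN : AD.S_FIN) :
    ∃ C : ℕ, ∀ (n u m : ℕ) (T : BT) (a : ℕ → ℕ) (E : Finset ℕ), T.keys = List.range' 1 n →
    (∀ i < m, 1 ≤ a i ∧ a i ≤ n) → (n : ℝ) * max 1 (Real.logb 2 n) ≤ m →
    (∀ i < m, i ∉ E → ∃ j, 1 ≤ j ∧ j ≤ n ∧ wset a i j + Nat.dist (a i) j ≤ 2 ^ u) →
    (cost T ((List.range m).map a) : ℝ) ≤
      C * (unified n m a + m * ((Nat.log 2 (u + 1) : ℝ) + 1) ^ 8 +
        E.card * ((Nat.log 2 n : ℝ) + 1) ^ 5) := by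
  obtain ⟨C1, h1⟩ := hLOC
  obtain ⟨C2, h2⟩ := hFIN
  refine ⟨256 * C2 + 7000000 * C1, fun n u m T a E hT ha hm hE => ?_⟩
  rcases Nat.eq_zero_or_pos n with rfl | hn
  · rcases Nat.eq_zero_or_pos m with rfl | hm0
    · simp only [List.range_zero, List.map_nil, cost, unified, range_zero, sum_empty,
        Nat.cast_zero]
      positivity
    · have := ha 0 hm0
      omega
  have k8 := NU.le_unified hn m a
  have p0 : (0 : ℝ) ≤ m := Nat.cast_nonneg _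
  have p1 : (0 : ℝ) ≤ C1 := Nat.cast_nonneg _
  have p2 : (0 : ℝ) ≤ C2 := Nat.cast_nonneg _
  have p3 : (0 : ℝ) ≤ m * ((Nat.log 2 (u + 1) : ℝ) + 1) ^ 8 := by positivity
  have p4 : (0 : ℝ) ≤ E.card * ((Nat.log 2 n : ℝ) + 1) ^ 5 := by positivity
  have p5 : (0 : ℝ) ≤ unified n m a := p0.trans k8
  by_cases hc : Nat.log 2 n ≤ 2 * u + 2
  · have a1 : Nat.log 2 (Nat.log 2 n) ≤ Nat.log 2 (u + 1) + 1 := by
      rw [← Nat.log_mul_base one_lt_two (show u + 1 ≠ 0 by omega)]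
      exact Nat.log_mono_right (by omega)
    have a2 : m * (Nat.log 2 (Nat.log 2 n) + 1) ^ 8 ≤ 256 * (m * (Nat.log 2 (u + 1) + 1) ^ 8) :=
      calc _ ≤ m * (2 * (Nat.log 2 (u + 1) + 1)) ^ 8 :=
            Nat.mul_le_mul_left _ (Nat.pow_le_pow_left (by omega) 8)
        _ = _ := by ring
    have a3 : (m : ℝ) * ((Nat.log 2 (Nat.log 2 n) : ℝ) + 1) ^ 8 ≤
        256 * (m * ((Nat.log 2 (u + 1) : ℝ) + 1) ^ 8) := by exact_mod_cast a2
    have a4 := h2 n m T a hT ha hm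
    generalize (m : ℝ) * ((Nat.log 2 (Nat.log 2 n) : ℝ) + 1) ^ 8 = X at a3 a4
    generalize (m : ℝ) * ((Nat.log 2 (u + 1) : ℝ) + 1) ^ 8 = Y at a3 p3 ⊢
    generalize (E.card : ℝ) * ((Nat.log 2 n : ℝ) + 1) ^ 5 = Z at p4 ⊢
    generalize unified n m a = U at a4 p5 ⊢
    push_cast
    nlinarith [mul_le_mul_of_nonneg_left a3 p2, mul_nonneg p1 p3, mul_nonneg p1 p4,
      mul_nonneg p1 p5, mul_nonneg p2 p4, mul_nonneg p2 p5]
  have w : ∀ i, ∃ s v : ℕ, (v : ℝ) + 1 ≤ 3 * term n a i ∧ (i < m → i ∉ E → v ≤ u ∧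
      ((s < i ∧ #((Ioc s i).image a) + Nat.dist (a i) (a s) ≤ 2 ^ v) ∨
      ((¬ ∃ r < i, a r = a i) ∧ #((Ioc 0 i).image a) ≤ 2 ^ v))) := fun i => by
    obtain ⟨j, v, b1, b2⟩ := end_best hn a i
    by_cases hi : i < m ∧ i ∉ E
    · by_cases hv : v ≤ u
      · obtain ⟨s, b3⟩ := end_wit a i j v b2
        exact ⟨s, v, b1, fun _ _ => ⟨hv, b3⟩⟩
      · obtain ⟨j', -, -, b4⟩ := hE i hi.1 hi.2
        obtain ⟨s, b3⟩ := end_wit a i j' u b4
        have b5 : (u : ℝ) ≤ v := by exact_mod_cast (not_le.1 hv).le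
        exact ⟨s, u, by linarith, fun _ _ => ⟨le_rfl, b3⟩⟩
    · exact ⟨0, v, b1, fun c1 c2 => absurd ⟨c1, c2⟩ hi⟩
  choose s v w1 w2 using w
  obtain ⟨F, hF⟩ : ∃ F, F = (range m).filter fun i =>
      (¬ ∃ r < i, a r = a i) ∧ #((Ioc 0 i).image a) ≤ 2 ^ u := ⟨_, rfl⟩
  have f1 : #F ≤ 2 ^ u + 1 := hF ▸ end_new a m (2 ^ u)
  have a1 := h1 n u m T a s v (E ∪ F) hT ha fun i hi hi' => by
    rw [mem_union, not_or] at hi'
    obtain ⟨b1, b2 | b2⟩ := w2 i hi hi'.1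
    · exact ⟨b2.1, b1, b2.2⟩
    · exact absurd (hF ▸ mem_filter.2 ⟨mem_range.2 hi, b2.1,
        b2.2.trans (Nat.pow_le_pow_right two_pos b1)⟩) hi'.2
  obtain ⟨L, hL⟩ : ∃ L, L = Nat.log 2 n := ⟨_, rfl⟩
  rw [← hL] at hc p4 ⊢
  have l1 : 2 ^ L ≤ n := hL ▸ Nat.pow_log_le_self 2 (by omega)
  have l2 : Nat.log 2 (n + 1) ≤ L + 1 := by
    rw [hL, ← Nat.log_mul_base one_lt_two (show n ≠ 0 by omega)]
    exact Nat.log_mono_right (by omega)
  have l3 : n * L ≤ m := by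
    have c1 : (L : ℝ) ≤ Real.logb 2 n := by
      rw [Real.le_logb_iff_rpow_le one_lt_two (by positivity), Real.rpow_natCast]
      exact_mod_cast l1
    have c2 : (n : ℝ) * L ≤ n * max 1 (Real.logb 2 n) :=
      mul_le_mul_of_nonneg_left (c1.trans (le_max_right _ _)) (Nat.cast_nonneg _)
    exact_mod_cast c2.trans hm
  have l4 : n * (u + 1) ≤ m := (Nat.mul_le_mul_left _ (by omega)).trans l3
  have l5 : n ≤ m := (Nat.le_mul_of_pos_right _ (by omega)).trans l4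
  have l6 := end_few (not_le.1 hc) l1
  have l7 : #(E ∪ F) * (Nat.log 2 (n + 1) + u + 1) ^ 5 ≤
      32 * (#E * (L + 1) ^ 5) + 6400000 * m :=
    calc _ ≤ (#E + (2 ^ u + 1)) * (2 * (L + 1)) ^ 5 :=
          Nat.mul_le_mul ((card_union_le _ _).trans (by omega)) (Nat.pow_le_pow_left (by omega) 5)
      _ = 32 * (#E * (L + 1) ^ 5) + 32 * ((2 ^ u + 1) * (L + 1) ^ 5) := by ring
      _ ≤ _ := by omega
  have l8 : (n + m) * (Nat.log 2 (u + 1) + 1) ^ 8 ≤ 2 * (m * (Nat.log 2 (u + 1) + 1) ^ 8) :=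
    (Nat.mul_le_mul_right _ (show n + m ≤ 2 * m by omega)).trans (le_of_eq (by ring))
  obtain ⟨V, hV⟩ : ∃ V, V = ∑ i ∈ (range m).filter (fun i => i ∉ E ∪ F), (v i + 1) := ⟨_, rfl⟩
  have l9 : (V : ℝ) ≤ 3 * unified n m a := by
    have c1 : V ≤ ∑ i ∈ range m, (v i + 1) := hV ▸ sum_le_sum_of_subset (filter_subset _ _)
    have c2 : ((∑ i ∈ range m, (v i + 1) : ℕ) : ℝ) ≤ ∑ i ∈ range m, 3 * term n a i := by
      push_cast
      exact sum_le_sum fun i _ => w1 i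
    rw [← mul_sum] at c2
    exact (Nat.cast_le.2 c1).trans c2
  have a2 : cost T ((List.range m).map a) ≤ C1 * (V + 2 * (m * (Nat.log 2 (u + 1) + 1) ^ 8) +
      32 * (#E * (L + 1) ^ 5) + 6400001 * m) := by
    refine a1.trans (Nat.mul_le_mul_left _ ?_)
    rw [← hV]
    omega
  have a3 : (cost T ((List.range m).map a) : ℝ) ≤ C1 * (V +
      2 * (m * ((Nat.log 2 (u + 1) : ℝ) + 1) ^ 8) + 32 * (E.card * ((L : ℝ) + 1) ^ 5) +
      6400001 * m) := by exact_mod_cast a2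
  generalize (m : ℝ) * ((Nat.log 2 (u + 1) : ℝ) + 1) ^ 8 = Y at a3 p3 ⊢
  generalize (E.card : ℝ) * ((L : ℝ) + 1) ^ 5 = Z at a3 p4 ⊢
  generalize unified n m a = U at l9 k8 p5 ⊢
  push_cast
  have a4 : (V : ℝ) + 2 * Y + 32 * Z + 6400001 * m ≤ 7000000 * (U + Y + Z) := by linarith
  nlinarith [mul_le_mul_of_nonneg_left a4 p1, mul_nonneg p2 p3, mul_nonneg p2 p4,
    mul_nonneg p2 p5]

theorem p_END (hLOC : S_LOC) (hFIN : AD.S_FIN) : S_END := by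
  obtain ⟨C, h⟩ := end_main hLOC hFIN
  refine ⟨256 * C, fun n m u T a E hT ha hm hE => (h n u m T a E hT ha hm hE).trans ?_⟩
  have a1 : Nat.log 2 (u + 1) ≤ Nat.log 2 u + 1 := by
    rcases Nat.eq_zero_or_pos u with rfl | hu
    · simp
    · rw [← Nat.log_mul_base one_lt_two hu.ne']
      exact Nat.log_mono_right (by omega)
  have a2 : m * (Nat.log 2 (u + 1) + 1) ^ 8 ≤ 256 * (m * (Nat.log 2 u + 1) ^ 8) :=
    calc _ ≤ m * (2 * (Nat.log 2 u + 1)) ^ 8 :=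
          Nat.mul_le_mul_left _ (Nat.pow_le_pow_left (by omega) 8)
      _ = _ := by ring
  have a3 : (m : ℝ) * ((Nat.log 2 (u + 1) : ℝ) + 1) ^ 8 ≤
      256 * (m * ((Nat.log 2 u : ℝ) + 1) ^ 8) := by exact_mod_cast a2
  have p0 : (0 : ℝ) ≤ unified n m a := by
    rcases Nat.eq_zero_or_pos n with rfl | hn
    · rcases Nat.eq_zero_or_pos m with rfl | hm0
      · simp [unified]
      · have := ha 0 hm0
        omega
    · exact (Nat.cast_nonneg _).trans (NU.le_unified hn m a)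
  have p1 : (0 : ℝ) ≤ C := Nat.cast_nonneg _
  have p4 : (0 : ℝ) ≤ E.card * ((Nat.log 2 n : ℝ) + 1) ^ 5 := by positivity
  generalize (m : ℝ) * ((Nat.log 2 (u + 1) : ℝ) + 1) ^ 8 = X at a3 ⊢
  generalize (m : ℝ) * ((Nat.log 2 u : ℝ) + 1) ^ 8 = Y at a3 ⊢
  generalize (E.card : ℝ) * ((Nat.log 2 n : ℝ) + 1) ^ 5 = Z at p4 ⊢
  generalize unified n m a = U at p0 ⊢
  push_cast
  nlinarith [mul_le_mul_of_nonneg_left a3 p1, mul_nonneg p1 p0, mul_nonneg p1 p4]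

end Pool.Agent.P.MP_119182_lc.AE
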