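import Pool.Agent.P.MP_119182_lc.AE.IfaceB

/-! Step GAP. -/

set_option autoImplicit false

namespace Pool.Agent.P.MP_119182_lc.AE

open Finset
open scoped Classical
open NU (mr)
open LU (key tch up low isl Nx within beyond LK)
open IT (Marks One mq)

namespace G98

theorem tl_sub (σ : ℕ) (d : NU.Run) (Q : ℕ → Finset ℤ) (t : ℕ) : tl σ d Q t ⊆ Q t := by
  unfold tl
  split_ifs
  · exact filter_subset _ _
  · exact Subset.rfl

theorem div_up {a b : ℤ} {i j : ℕ} (h : i ≤ j) (e : a / 2 ^ i = b / 2 ^ i) :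
    a / 2 ^ j = b / 2 ^ j := by
  obtain ⟨k, rfl⟩ := Nat.exists_eq_add_of_le h
  rw [pow_add, ← Int.ediv_ediv_of_nonneg (by positivity), ← Int.ediv_ediv_of_nonneg (by positivity),
    e]

theorem lv_tl (σ : ℕ) (d : NU.Run) (Q : ℕ → Finset ℤ) (ow : ∀ i < d.m, d.x i ∈ Q i) :
    GP.lv (GP.its σ d.L d.R Q) d.L d.R (tl (σ + 1) d Q) =
      GP.lv (GP.its σ d.L d.R Q) d.L d.R Q := by
  funext t v
  unfold GP.lv
  refine propext (and_congr_right fun _ => and_congr_right fun _ =>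
    ⟨fun h z hz => ?_, fun h z hz => h z (tl_sub (σ + 1) d Q t hz)⟩)
  by_cases hx : t < d.m
  · by_cases c : z / 2 ^ (σ + 1) = d.x t / 2 ^ (σ + 1)
    · obtain ⟨-, -, -, i4, i5, -⟩ := GP.p_ITEM σ d.L d.R (Q t)
      have e : GP.its σ d.L d.R Q t (d.x t) = GP.its σ d.L d.R Q t z :=
        (i5 (d.x t) z).1.2 (div_up (i4 (d.x t)).1 c)
      rw [← e]
      exact h _ (by unfold tl; rw [if_pos hx]; exact mem_filter.2 ⟨ow t hx, Or.inl rfl⟩)
    · exact h z (by unfold tl; rw [if_pos hx]; exact mem_filter.2 ⟨hz, Or.inr c⟩)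
  · exact h z (by unfold tl; rw [if_neg hx]; exact hz)

theorem mr_div (a : ℤ) (j : ℕ) : mr a / 2 ^ j = mr (a / 2 ^ j) := by
  have hp : (0 : ℤ) < 2 ^ j := by positivity
  have h1 := Int.mul_ediv_add_emod a (2 ^ j)
  have h2 := Int.emod_nonneg a hp.ne'
  have h3 := Int.emod_lt_of_pos a hp
  unfold mr
  rw [Int.ediv_eq_iff_of_pos hp]
  constructor <;> nlinarith

theorem tl_mir (σ : ℕ) (d : NU.Run) (Q : ℕ → Finset ℤ) :
    tl σ d.mir (mq Q) = mq (tl σ d Q) := by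
  funext t
  have hx : d.mir.x t = mr (d.x t) := rfl
  have hm : d.mir.m = d.m := rfl
  unfold tl mq
  rw [hx, hm]
  by_cases h : t < d.m
  · simp only [if_pos h]
    rw [filter_image]
    congr 1
    refine filter_congr fun z _ => ?_
    rw [mr_div, mr_div]
    simp only [ne_eq, NU.mr_inj]
  · simp only [if_neg h]

end G98

theorem p_GAP :
    S_GAP := by
  intro K
  obtain ⟨C, hC⟩ := GP.a_LEFT K
  refine ⟨23 * K + 12 * C + 12 * (K * (K + 1)), fun σ J c Z d Q ok hJ mk one => ?_⟩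
  obtain ⟨dt, sd, lab, sy, i1⟩ := GP.a_INST σ J c Z d Q ok hJ mk one
  have e := G98.lv_tl σ d Q mk.own
  have sy' : GP.Sys (GP.its σ d.L d.R Q) d (tl (σ + 1) d Q) sd dt lab :=
    ⟨ok, fun i hi => by
      unfold tl
      rw [if_pos hi]
      exact mem_filter.2 ⟨mk.own i hi, Or.inl rfl⟩, sy.items, e ▸ sy.lives, e ▸ sy.fib⟩
  have i2 : GP.inst (GP.its σ d.L d.R Q) d (tl (σ + 1) d Q) dt =
      GP.inst (GP.its σ d.L d.R Q) d Q dt := by
    unfold GP.inst
    rw [e]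
  have l1 := hC _ d _ dt sd lab sy'
  have l2 := GP.p_RIGHT IT.p_TWO NU.a_EMIR K _ d _ dt sd lab sy'
  rw [i2] at l1 l2
  rw [G98.tl_mir]
  have s1 : ∑ t ∈ range d.m, GP.out (GP.its σ d.L d.R Q) d t ≤
      ∑ t ∈ range d.m, (IT.up d (tl (σ + 1) d Q) t + 4 +
      2 * (#((GP.own (GP.its σ d.L d.R Q) d (tl (σ + 1) d Q) t).filter fun B => sd t B) +
        #((GP.own (GP.its σ d.L d.R Q) d (tl (σ + 1) d Q) t).filter fun B => ¬ sd t B))) :=
    sum_le_sum fun t ht => by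
      rw [card_filter_add_card_filter_not]
      exact GP.p_CLS IT.p_TWO _ d _ ok sy.items t (mem_range.1 ht)
  simp only [sum_add_distrib, ← mul_sum, sum_const, card_range, smul_eq_mul] at s1
  generalize (d.R - d.L).toNat = n at *
  exact GP.GAPx.num s1 l1 l2 (by omega) (by omega) (by omega) (by omega)

end Pool.Agent.P.MP_119182_lc.AE
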