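import Pool.Agent.P.MP_119182_lc.AE.IfaceB

/-! Step LOC. -/

set_option autoImplicit false

namespace Pool.Agent.P.MP_119182_lc.AE

open Finset
open scoped Classical
open NU (mr)
open LU (key tch up low isl Nx within beyond LK)
open IT (Marks One mq)

theorem p_LOC (hRUN : S_RUN) (hALGA : NU.S_ALGA) (hBRG : NU.S_BRG) (hTURN : NU.S_TURN) :
    S_LOC := by
  obtain ⟨C, hC⟩ := hRUN
  refine ⟨C + 160, fun n u m T a s v E h2 h3 hw => ?_⟩
  rcases Nat.eq_zero_or_pos n with rfl | hn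
  · rcases Nat.eq_zero_or_pos m with rfl | hm
    · simp [cost]
    · have := h3 0 hm
      omega
  obtain ⟨h, key⟩ := hC n u m a s v E hn h3 hw
  have c1 := TV.cost_half T a m
  have c2 := TV.cost_half T (fun i => a (i / 2)) (2 * m)
  have e1 : (fun i => a (i / 2 / 2)) = fun q => a (q / 4) := by
    funext q
    rw [Nat.div_div_eq_div_mul]
  have e2 : 2 * (2 * m) = 4 * m := by omega
  simp only [e1, e2] at c2
  have k4 : n + m ≤ (n + m) * (Nat.log 2 (u + 1) + 1) ^ 8 :=
    Nat.le_mul_of_pos_right _ (by positivity)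
  generalize (n + m) * (Nat.log 2 (u + 1) + 1) ^ 8 = A at k4 key ⊢
  generalize ∑ i ∈ (range m).filter (fun i => i ∉ E), (v i + 1) = B at key ⊢
  generalize n * (u + 1) = D at key ⊢
  generalize #E * (Nat.log 2 (n + 1) + u + 1) ^ 5 = F at key ⊢
  obtain ⟨d, d1, d2, d3, d4, d5, d6, d7, d8⟩ :=
    hBRG n (4 * m) h T (fun q => a (q / 4)) h2 fun i hi => h3 _ (by omega)
  obtain ⟨e, e1, e2, e3, e4⟩ := hALGA d d5
  have t := hTURN d e d5 e2 e1 d6 d7
  obtain ⟨f1, f2, f3, f4⟩ := e1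
  have l1 := key d d5 d1 d2 d3 d4
  have l2 := key e e2 (f1.trans d1) (f2.trans d2) (f3.trans d3) (f4.trans d4)
  rw [f3, d3] at e3 e4
  have k3 : (d.R - d.L).toNat = n + 1 := by omega
  rw [k3, d3] at t
  have k5 : (C + 160) * (B + A + D + F) = C * (B + A + D + F) + 160 * (B + A + D + F) := by ring
  omega

end Pool.Agent.P.MP_119182_lc.AE
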