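import Pool.Agent.P.MP_119182_lc.AE.IfaceB

/-! Step MKA. -/

set_option autoImplicit false

namespace Pool.Agent.P.MP_119182_lc.AE

open Finset
open scoped Classical
open NU (mr)
open LU (key tch up low isl Nx within beyond LK)
open IT (Marks One mq)

theorem MKAx.mk {L R : ℤ} {m : ℕ} {x : ℕ → ℤ} {Q : ℕ → Finset ℤ}
    (h1 : ∀ i < m, ∀ z ∈ Q i, L < z ∧ z < R) (h2 : ∀ i < m, x i ∈ Q i)
    (h3 : ∀ i, i + 1 < m → Q (i + 1) ⊆ insert (x (i + 1)) (Q i)) :
    ∃ c Z, Marks L R m x c Z Q :=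
  ⟨∑ i ∈ range m, #(Q i), ∑ i ∈ range (m - 1), (x (i + 1) - x i).natAbs,
    fun _ hi => single_le_sum (f := fun i => #(Q i)) (fun _ _ => Nat.zero_le _) (mem_range.2 hi),
    h1, h2, h3, fun i => (x (i + 1) - x i).natAbs, le_rfl,
    fun i hi => ⟨x i, h2 i (by omega), by rw [Int.natCast_natAbs]⟩⟩

theorem p_MKA :
    S_MKA := by
  intro A m L R y s E hot H
  have p1 : ∀ t < 4 * m, ∀ z ∈ insert (y (t / 4)) (PP A m y s E t), L < z ∧ z < R := by
    intro t ht z hz
    rcases mem_insert.1 hz with rfl | hz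
    · exact H.mem _ (by omega)
    · obtain ⟨i, hi, rfl⟩ := mem_image.1 hz
      obtain ⟨r1, r2, -⟩ := mem_filter.1 hi
      have r1 := mem_range.1 r1
      exact H.mem _ ((H.wit i r1 r2).1.trans r1)
  have p2 : ∀ t, insert (y ((t + 1) / 4)) (PP A m y s E (t + 1)) ⊆
      insert (y ((t + 1) / 4)) (insert (y (t / 4)) (PP A m y s E t)) := by
    intro t z hz
    rcases mem_insert.1 hz with rfl | hz
    · exact mem_insert_self _ _
    · obtain ⟨i, hi, rfl⟩ := mem_image.1 hz
      obtain ⟨r1, r2, r3, r4, r5⟩ := mem_filter.1 hi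
      by_cases c : 4 * s i + 3 ≤ t
      · exact mem_insert_of_mem (mem_insert_of_mem
          (mem_image.2 ⟨i, mem_filter.2 ⟨r1, r2, r3, c, by omega⟩, rfl⟩))
      · rw [show (t + 1) / 4 = s i by omega]
        exact mem_insert_self _ _
  refine ⟨MKAx.mk (fun t ht z hz => ?_) (fun t _ => mem_union_right _ (mem_insert_self _ _))
    fun t _ z hz => ?_, MKAx.mk p1 (fun t _ => mem_insert_self _ _) fun t _ => p2 t, ?_,
    fun t ht z hz => ?_⟩
  · rcases mem_union.1 hz with hz | hz
    · obtain ⟨r, hr, rfl⟩ := mem_image.1 hz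
      have := mem_range.1 (mem_filter.1 hr).1
      exact H.mem _ (by omega)
    · exact p1 t ht z hz
  · rcases mem_union.1 hz with hz | hz
    · obtain ⟨r, hr, rfl⟩ := mem_image.1 hz
      obtain ⟨r1, r2, r3⟩ := mem_filter.1 hr
      have r1 := mem_range.1 r1
      by_cases c : r = t + 1
      · rw [c]
        exact mem_insert_self _ _
      · exact mem_insert_of_mem (mem_union_left _ (mem_image.2 ⟨r, mem_filter.2
          ⟨mem_range.2 (by omega), r2, fun q q1 q2 => r3 q q1 (by omega)⟩, rfl⟩))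
    · rcases mem_insert.1 (p2 t hz) with h | h
      · rw [h]
        exact mem_insert_self _ _
      · exact mem_insert_of_mem (mem_union_right _ h)
  · unfold PP
    rw [image_eq_empty, filter_eq_empty_iff]
    intro i _ h
    omega
  · rcases mem_union.1 hz with hz | hz
    · obtain ⟨r, hr, rfl⟩ := mem_image.1 hz
      obtain ⟨r1, -, r3⟩ := mem_filter.1 hr
      have r1 := mem_range.1 r1
      by_cases c : y (r / 4) / 2 ^ A = y (t / 4) / 2 ^ A
      · exact Or.inr (Or.inl c)
      · exact Or.inr (Or.inr ((H.keep t _ ht c).1 (r3 (t + 1) r1 le_rfl)))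
    · exact Or.inl hz

end Pool.Agent.P.MP_119182_lc.AE
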