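import Pool.Agent.P.MP_119182_lc.AE.IfaceB

/-! Step MKB. -/

set_option autoImplicit false

namespace Pool.Agent.P.MP_119182_lc.AE

open Finset
open scoped Classical
open NU (mr)
open LU (key tch up low isl Nx within beyond LK)
open IT (Marks One mq)

theorem MKBx.del {A m : ℕ} {L R : ℤ} {y : ℕ → ℤ} {s : ℕ → ℕ} {E : Finset ℕ}
    {hot : ℕ → ℤ → Prop} (H : Hot A m L R y s E hot) {t : ℕ} (ht : t + 1 < 4 * m) {z : ℤ}
    (hz : z ∈ insert (y ((t + 1) / 4)) (QM A m y s E hot t) \ QM A m y s E hot (t + 1)) :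
    (t % 4 = 2 ∧ ∃ r ≤ t, z = y (r / 4) ∧ ¬ hot r (y ((t + 1) / 4) / 2 ^ A) ∧
      ∀ q, r < q → q ≤ t + 1 → hot q (y ((t + 1) / 4) / 2 ^ A)) ∨
    (t % 4 = 3 ∧ z = y (t / 4)) ∨ (t % 4 = 0 ∧ z = y (s (t / 4))) := by
  obtain ⟨h1, h2⟩ := mem_sdiff.1 hz
  simp only [QM, mem_union, mem_insert, not_or] at h1 h2
  obtain ⟨k1, k2, k3⟩ := h2
  rcases h1 with h1 | h1 | h1 | h1
  · exact absurd h1 k2
  · obtain ⟨r, hr, rfl⟩ := mem_image.1 h1
    obtain ⟨r1, r2, r3⟩ := mem_filter.1 hr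
    have r1 := mem_range.1 r1
    have c1 := r3 (t + 1) (by omega) le_rfl
    have c2 : ¬ hot (t + 1 + 1) (y (r / 4) / 2 ^ A) := fun h =>
      k1 (mem_image.2 ⟨r, mem_filter.2 ⟨mem_range.2 (by omega), r2, fun q q1 q2 => by
        rcases Nat.lt_or_ge q (t + 1 + 1) with q3 | q3
        · exact r3 q q1 (by omega)
        · rwa [show q = t + 1 + 1 by omega]⟩, rfl⟩)
    have c3 : y (r / 4) / 2 ^ A = y ((t + 1) / 4) / 2 ^ A := by
      by_contra c3
      exact c2 ((H.keep (t + 1) _ ht c3).2 c1)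
    rw [c3] at r2 r3 c2
    refine Or.inl ⟨?_, r, by omega, rfl, r2, r3⟩
    by_contra c4
    have c5 : (t + 1 + 1) / 4 = (t + 1) / 4 := by omega
    have := H.near (t + 1) (t + 1 + 1) (by omega) (by omega) (by rw [c5]) (by
      unfold NU.dst
      refine card_image_le.trans ?_
      simpa using Nat.one_le_two_pow)
    rw [c5] at this
    exact c2 this
  · refine Or.inr (Or.inl ⟨?_, h1⟩)
    by_contra c4
    exact k2 (by rw [h1, show (t + 1) / 4 = t / 4 by omega])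
  · obtain ⟨i, hi, rfl⟩ := mem_image.1 h1
    obtain ⟨r1, r2, r3, r4, r5⟩ := mem_filter.1 hi
    have c1 : t = 4 * i := by
      by_contra c1
      exact k3 (mem_image.2 ⟨i, mem_filter.2 ⟨r1, r2, r3, by omega, by omega⟩, rfl⟩)
    exact Or.inr (Or.inr ⟨by omega, by rw [show t / 4 = i by omega]⟩)

theorem p_MKB :
    S_MKB := by
  intro A m L R y s E hot H t ht
  refine card_le_one.2 fun z hz w hw => ?_
  rcases MKBx.del H ht hz with ⟨a1, r, a2, a3, a4, a5⟩ | ⟨a1, a2⟩ | ⟨a1, a2⟩ <;>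
    rcases MKBx.del H ht hw with ⟨b1, q, b2, b3, b4, b5⟩ | ⟨b1, b2⟩ | ⟨b1, b2⟩ <;>
    try omega
  rcases lt_trichotomy r q with h | h | h
  · exact absurd (a5 q h (by omega)) b4
  · rw [a3, b3, h]
  · exact absurd (b5 r h (by omega)) a4

end Pool.Agent.P.MP_119182_lc.AE
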