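import Pool.Agent.P.MP_119182_lc.AE.Iface

/-! Step ORD. -/

set_option autoImplicit false

namespace Pool.Agent.P.MP_119182_lc.AE

open Finset
open scoped Classical
open NU (Run mr)
open LU (key tch up low isl Nx within beyond LK)

theorem p_ORD (hBD : S_BD) (hGM : S_GM) (hFZ : S_FZ) :
    S_ORD := by
  intro d S h t p u hp hu hpu hj
  rcases hpu.eq_or_lt with rfl | hpu
  · exact ⟨le_rfl, le_rfl, le_rfl⟩
  obtain ⟨-, -, -, z4, z5, z6, z7, -⟩ := hFZ d h.ok
  have ku : key d u := hu.2.1.1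
  have kx := z7 t hu.1
  have hi : it d S t p = it d S t u := by unfold it; rw [hj]
  have hlo : lo d S t p = lo d S t u := by funext s; unfold lo; rw [hj, hi]
  obtain ⟨u1, u2, u3, u4, ⟨u5, u6, u7⟩, u8, -⟩ := hGM d S h t u hu.1
  obtain ⟨p1, p2, p3, p4, ⟨p5, p6, p7⟩, p8, -⟩ := hGM d S h t p hu.1
  have hne : S.cell (bd S (d.x t) u) (d.x t) ≠ S.cell (bd S (d.x t) u) u :=
    (((hBD d S h).2.2.1 (d.x t) u ⟨kx.1.le, kx.2.le⟩ ⟨ku.1.le, ku.2.le⟩).2.2.2 hu.2.2.ne _).1 le_rfl
  have hx : ∀ q, sg d S t u ≤ q → q < t → tch d q u → d.x q < u := by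
    intro q a b c
    have e := u2 q a b c
    have lt := h.mono (bd S (d.x t) u) hu.2.2.le
    by_contra hc
    have := h.mono (bj d S t u) (not_lt.1 hc)
    unfold it bj at *
    omega
  have hsg : sg d S t p ≤ sg d S t u := by
    apply p3
    intro r a b c
    rw [hj, hi]
    apply u2 r a b
    have ht := hu.1
    have g := (z4 r t u ku b.le ht.le fun q a' b' => hx q (by omega) b').1
    have h1 := hu.2.1.2.1
    have h2 := hp.2.2
    have bu := z6 r u (by omega) ku
    have w := z5 r u p (by omega) ku (by omega) (by omega)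
    have w2 := w.2.2.2.1 hpu
    obtain ⟨-, c1, c2⟩ := c
    exact ⟨ku, by omega, by omega⟩
  have hgm : gm d S t p ≤ gm d S t u := by
    rw [← u7, ← hlo]
    exact p4 _ (by omega) u6
  refine ⟨hsg, hgm, ?_⟩
  by_contra hc
  have a := u8 (st d S t p) (by omega) p6
  rw [← hlo] at a
  omega

end Pool.Agent.P.MP_119182_lc.AE
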