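import Pool.Agent.P.MP_119182_lc.AE.Iface

/-! Step RAI. -/

set_option autoImplicit false

namespace Pool.Agent.P.MP_119182_lc.AE

open Finset
open scoped Classical
open NU (Run mr)
open LU (key tch up low isl Nx within beyond LK)

theorem p_RAI (hCRS : S_CRS) (hLNK : S_LNK) (_hLINK : LU.S_LINK) :
    S_RAI := by
  intro d S h
  have hc := hCRS d S h
  have hb : ∑ p ∈ RL d, (if bad d S p.1 p.2 then (sc d S p.1 p.2 + 1) ^ 3 else 0) ≤ BC d S := by
    rw [← sum_filter]
    exact sum_le_sum_of_subset fun p hp =>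
      mem_filter.2 ⟨(mem_filter.1 (mem_filter.1 hp).1).1, (mem_filter.1 hp).2⟩
  have hk : ∀ (c : ℕ) (g : ℕ × ℤ → ℕ), (∀ p ∈ RL d, crs d S p.1 p.2 → g p ≤ c) →
      (∀ p ∈ RL d, ¬ crs d S p.1 p.2 →
        g p ≤ if bad d S p.1 p.2 then (sc d S p.1 p.2 + 1) ^ 3 else 0) →
      ∑ p ∈ RL d, g p ≤ d.m * (S.J + 1) * c + BC d S := fun c g h1 h2 => by
    have a1 : ∑ p ∈ RL d, g p ≤ ∑ p ∈ RL d, ((if crs d S p.1 p.2 then c else 0) +
        if bad d S p.1 p.2 then (sc d S p.1 p.2 + 1) ^ 3 else 0) := sum_le_sum fun p hp => by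
      by_cases e : crs d S p.1 p.2
      · rw [if_pos e]
        exact (h1 p hp e).trans (Nat.le_add_right _ _)
      · rw [if_neg e, zero_add]
        exact h2 p hp e
    rw [sum_add_distrib, ← sum_filter, sum_const, smul_eq_mul] at a1
    exact a1.trans (Nat.add_le_add (Nat.mul_le_mul_right _ hc) hb)
  have hd : ∀ p ∈ RL d, ¬ crs d S p.1 p.2 → ∀ D, D ≤ DD d S p.1 p.2 →
      Nat.size D ^ 3 ≤ if bad d S p.1 p.2 then (sc d S p.1 p.2 + 1) ^ 3 else 0 := by
    intro p hp e D hD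
    rcases Nat.eq_zero_or_pos (DD d S p.1 p.2) with h0 | h0
    · rw [show D = 0 by omega]
      simp
    · rw [if_pos ⟨(mem_filter.1 hp).2, e, Or.inr h0⟩]
      exact Nat.pow_le_pow_left ((Nat.size_le_size hD).trans (Nat.le_succ _)) 3
  have hL := fun p (hp : p ∈ RL d) => hLNK d S h p.1 p.2 (mem_filter.1 hp).2
  constructor
  · set f : ℕ × ℤ → ℕ := fun p => Nat.size (shR d S p.1 p.2 - VR d S p.1 p.2) ^ 3 with hf
    have a1 := hk (Nat.size (ht S) ^ 3) f
      (fun p hp _ => Nat.pow_le_pow_left (Nat.size_le_size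
        ((Nat.sub_le _ _).trans (hL p hp).1.2.2.2.2.2.1)) 3)
      fun p hp e => hd p hp e _ ((hL p hp).2.1 e).2.2.1
    have a2 := hk (Nat.size (ht S) ^ 3) (fun p => f (p.1, low d p.1 p.2))
      (fun p hp _ => Nat.pow_le_pow_left (Nat.size_le_size
        ((Nat.sub_le _ _).trans (hL p hp).1.2.2.2.2.2.2.1)) 3)
      fun p hp e => hd p hp e _ ((hL p hp).2.1 e).2.2.2
    have a3 : ∑ q ∈ (RL d).image (fun p => (p.1, low d p.1 p.2)), f q =
        ∑ p ∈ RL d, f (p.1, low d p.1 p.2) := sum_image fun p hp q hq e => by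
      have e1 : p.1 = q.1 := (Prod.mk.inj e).1
      have e2 : low d p.1 p.2 = low d q.1 q.2 := (Prod.mk.inj e).2
      refine Prod.ext e1 ?_
      rw [← (hL p hp).1.2.2.1, ← (hL q hq).1.2.2.1, e2, e1]
    have a4 := sum_union_inter (s₁ := RL d) (s₂ := (RL d).image fun p => (p.1, low d p.1 p.2))
      (f := f)
    have a5 : RAI d S ≤ ∑ q ∈ RL d ∪ (RL d).image (fun p => (p.1, low d p.1 p.2)), f q := by
      refine sum_le_sum_of_ne_zero fun p hp hne => ?_
      obtain ⟨b1, b2⟩ := mem_filter.1 hp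
      by_cases u : up d p.1 p.2
      · exact mem_union_left _ (mem_filter.2 ⟨b1, b2, u⟩)
      by_cases i : isl d p.1 p.2
      · have i1 := i.1
        have i2 := i.2
        rw [LU.par, if_pos b2.2.2] at i1 i2
        have k := (h.ok.tree p.1 b2.1.le).bnd p.2 b2.2.1.1.1 b2.2.1.1.2
        refine mem_union_right _ (mem_image.2 ⟨(p.1, d.rp p.1 p.2), mem_filter.2
          ⟨mem_product.2 ⟨(mem_product.1 b1).1, mem_Ioo.2 i1.1.1⟩, ⟨b2.1, i1.1, ?_⟩, i1⟩, ?_⟩)
        · exact b2.2.2.trans k.2.2.1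
        · exact Prod.ext rfl i2
      · refine absurd ?_ hne
        simp only [shR, if_neg u, if_neg i, Nat.sub_self, Nat.size_zero]
        rfl
    omega
  · have a1 := hk 1 (fun p => if gp d S p.1 p.2 = 0 ∧ wm d S p.1 p.2 then 1 else 0)
      (fun p _ _ => by split_ifs <;> omega) fun p hp e => by
        by_cases g : gp d S p.1 p.2 = 0 ∧ wm d S p.1 p.2
        · have g1 := g.1
          have g2 := (g.2.resolve_left (by omega)).resolve_left e
          rw [if_pos g, if_pos ⟨(mem_filter.1 hp).2, e, Or.inl ⟨g1, g2⟩⟩]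
          exact Nat.one_le_pow _ _ (Nat.succ_pos _)
        · rw [if_neg g]
          exact Nat.zero_le _
    rw [← card_filter, mul_one] at a1
    have a2 : WM d S ⊆ ((RL d).filter fun p => 1 ≤ gp d S p.1 p.2) ∪
        (RL d).filter fun p => gp d S p.1 p.2 = 0 ∧ wm d S p.1 p.2 := by
      intro p hp
      obtain ⟨b1, b2⟩ := mem_filter.1 hp
      rcases Nat.eq_zero_or_pos (gp d S p.1 p.2) with g | g
      · exact mem_union_right _ (mem_filter.2 ⟨b1, g, b2⟩)
      · exact mem_union_left _ (mem_filter.2 ⟨b1, g⟩)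
    have a3 := (card_le_card a2).trans (card_union_le _ _)
    omega

end Pool.Agent.P.MP_119182_lc.AE
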