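import Pool.Agent.P.MP_119182_lc.AE.Iface

/-! Step RFC. -/

set_option autoImplicit false

namespace Pool.Agent.P.MP_119182_lc.AE

open Finset
open scoped Classical
open NU (Run mr)
open LU (key tch up low isl Nx within beyond LK)

theorem rfc_size (n : ℕ) : Nat.size n ^ 3 ≤ 9 * n := by
  rcases Nat.eq_zero_or_pos n with h | h
  · simp [h]
  have h1 : 2 ^ (Nat.size n - 1) ≤ n := by
    have := Nat.size_pos.2 h
    exact Nat.lt_size.1 (by omega)
  have key : ∀ k : ℕ, (k + 1) ^ 3 ≤ 9 * 2 ^ k := by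
    intro k
    rcases Nat.lt_or_ge k 4 with hk | hk
    · interval_cases k <;> norm_num
    · induction k, hk using Nat.le_induction with
      | base => norm_num
      | succ k hk ih =>
        have : (k + 1 + 1) ^ 3 ≤ 2 * (k + 1) ^ 3 := by
          obtain ⟨j, rfl⟩ := Nat.exists_eq_add_of_le hk
          ring_nf
          nlinarith [Nat.zero_le j, Nat.zero_le (j ^ 2), Nat.zero_le (j ^ 3)]
        rw [pow_succ 2]
        omega
  have h2 := key (Nat.size n - 1)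
  rw [Nat.sub_add_cancel (Nat.size_pos.2 h)] at h2
  omega

theorem rfc_tel (V lo hi : ℤ → ℕ) (a : ℕ) : ∀ (Y : Finset ℤ) (b : ℕ),
    (∀ y ∈ Y, V y + lo y ≤ hi y) → (∀ y ∈ Y, a ≤ lo y) → (∀ y ∈ Y, hi y ≤ b) →
    (∀ y ∈ Y, ∀ y' ∈ Y, y < y' → hi y' ≤ lo y) → ∑ y ∈ Y, V y ≤ b - a := by
  intro Y
  induction Y using Finset.induction_on_min with
  | empty => intros; simp
  | insert y Y hy ih =>
    intro b h1 h2 h3 h4
    have hn : y ∉ Y := fun h => lt_irrefl _ (hy y h)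
    rw [sum_insert hn]
    have i1 := ih (lo y) (fun z hz => h1 z (mem_insert_of_mem hz))
      (fun z hz => h2 z (mem_insert_of_mem hz))
      (fun z hz => h4 y (mem_insert_self _ _) z (mem_insert_of_mem hz) (hy z hz))
      (fun z hz z' hz' => h4 z (mem_insert_of_mem hz) z' (mem_insert_of_mem hz'))
    have := h1 y (mem_insert_self _ _)
    have := h2 y (mem_insert_self _ _)
    have := h3 y (mem_insert_self _ _)
    omega

theorem p_RFC (hBD : S_BD) (hFF : S_FF) (hFZ : S_FZ) :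
    S_RFC := by
  intro d S hS s j hs
  obtain ⟨b1, b2, b3, -⟩ := hBD d S hS
  obtain ⟨-, f2, -, -, -, f6, f7, -⟩ := hFF d S hS
  obtain ⟨-, -, -, -, z5, z6, z7, -⟩ := hFZ d hS.ok
  set Y := d.keys.filter (fun y => bd S y (d.rp (s + 1) y) = j ∧
        S.cell j (d.x s) = S.cell j (d.rp (s + 1) y)) with hY
  have hs1 : s + 1 ≤ d.m := hs
  have hk : ∀ y ∈ Y, key d y ∧ bd S y (d.rp (s + 1) y) = j ∧
      S.cell j (d.x s) = S.cell j (d.rp (s + 1) y) := by
    intro y hy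
    obtain ⟨a1, a2⟩ := mem_filter.1 hy
    exact ⟨mem_Ioo.1 a1, a2⟩
  have hp : ∀ y, key d y → pt d y := fun y hy => ⟨hy.1.le, hy.2.le⟩
  have nest : ∀ y ∈ Y, ∀ y' ∈ Y, y < y' →
      F S (s + 1) (d.lp (s + 1) y') (d.rp (s + 1) y') ≤ F S (s + 1) y (d.rp (s + 1) y) := by
    intro y hy y' hy' l
    obtain ⟨k1, k2, k3⟩ := hk y hy
    obtain ⟨k1', k2', k3'⟩ := hk y' hy'
    obtain ⟨p1, p2, p3, p4⟩ := z6 (s + 1) y hs1 k1
    obtain ⟨p1', p2', p3', p4'⟩ := z6 (s + 1) y' hs1 k1'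
    have hlt : y' < d.rp (s + 1) y := by
      by_contra hc
      have hc := not_lt.1 hc
      have e1 := (b2 j _ y' _ hc p4'.le (k3.symm.trans k3')).2
      have e2 := ((b3 y' _ (hp y' k1') p2').2.2.2 p4'.ne j).1 k2'.ge
      exact e2 e1
    obtain ⟨-, -, q3, -, q5⟩ := z5 (s + 1) y y' hs1 k1 (by omega) hlt
    exact f7 (s + 1) _ _ _ _ (hp y k1) p2 (q5 l) (by omega) q3
  have low1 : ∀ y ∈ Y, j * S.W + Nat.log 2 (S.om j (s + 1) (S.cell j (d.x s))) ≤
      F S (s + 1) y (d.rp (s + 1) y) := by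
    intro y hy
    obtain ⟨k1, k2, k3⟩ := hk y hy
    obtain ⟨p1, p2, p3, p4⟩ := z6 (s + 1) y hs1 k1
    unfold F
    rw [k2, k3]
    exact Nat.add_le_add_left
      (Nat.log_mono_right (f2 j (s + 1) _ _ _ (hS.mono j p4.le) le_rfl)) _
  have up1 : ∀ y ∈ Y, F S (s + 1) y (d.rp (s + 1) y) ≤
      j * S.W + Nat.log 2 (S.SG j (s + 1) (d.x s)) := by
    intro y hy
    obtain ⟨k1, k2, k3⟩ := hk y hy
    obtain ⟨p1, p2, p3, p4⟩ := z6 (s + 1) y hs1 k1
    have e1 := hS.nest j _ _ k3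
    have e2 := ((b3 y _ (hp y k1) p2).2.2.1 j).1 k2.le
    unfold F
    rw [k2]
    exact Nat.add_le_add_left (Nat.log_mono_right
      (hS.sg j (s + 1) (d.x s) _ _ (hp y k1) p2 (e2.trans e1.symm) e1.symm)) _
  have le1 : ∀ y ∈ Y, F S (s + 1) y (d.rp (s + 1) y) ≤
      F S (s + 1) (d.lp (s + 1) y) (d.rp (s + 1) y) ∧
      F S (s + 1) (d.lp (s + 1) y) (d.rp (s + 1) y) < ht S := by
    intro y hy
    obtain ⟨k1, k2, k3⟩ := hk y hy
    obtain ⟨p1, p2, p3, p4⟩ := z6 (s + 1) y hs1 k1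
    exact ⟨f7 (s + 1) _ _ _ _ p1 p2 p3.le p4 le_rfl, (f6 (s + 1) _ _ p1 p2 (by omega)).2.2⟩
  rcases Y.eq_empty_or_nonempty with he | hne
  · rw [he]; simp
  have hm := Y.min'_mem hne
  set y0 := Y.min' hne with hy0
  rw [← add_sum_erase _ _ hm]
  have sub : ∀ y ∈ Y.erase y0, y ∈ Y ∧ y0 < y := by
    intro y hy
    obtain ⟨a1, a2⟩ := mem_erase.1 hy
    exact ⟨a2, lt_of_le_of_ne (Y.min'_le y a2) (Ne.symm a1)⟩
  have t1 := rfc_tel
    (fun y => F S (s + 1) (d.lp (s + 1) y) (d.rp (s + 1) y) - F S (s + 1) y (d.rp (s + 1) y))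
    (fun y => F S (s + 1) y (d.rp (s + 1) y))
    (fun y => F S (s + 1) (d.lp (s + 1) y) (d.rp (s + 1) y))
    (j * S.W + Nat.log 2 (S.om j (s + 1) (S.cell j (d.x s)))) (Y.erase y0)
    (j * S.W + Nat.log 2 (S.SG j (s + 1) (d.x s)))
    (fun y hy => by have := (le1 y (sub y hy).1).1; omega)
    (fun y hy => low1 y (sub y hy).1)
    (fun y hy => (nest y0 hm y (sub y hy).1 (sub y hy).2).trans (up1 y0 hm))
    (fun y hy y' hy' l => nest y (sub y hy).1 y' (sub y' hy').1 l)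
  refine Nat.add_le_add ?_ ?_
  · refine Nat.pow_le_pow_left (Nat.size_le_size ?_) 3
    have := (le1 y0 hm).2
    omega
  · refine (sum_le_sum fun y _ => rfc_size _).trans ?_
    rw [← mul_sum]
    refine Nat.mul_le_mul_left 9 (t1.trans ?_)
    unfold B1
    omega

end Pool.Agent.P.MP_119182_lc.AE
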