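import Pool.Agent.P.MP_119182_lc.AE.Iface

/-! Step RFV. -/

set_option autoImplicit false

namespace Pool.Agent.P.MP_119182_lc.AE

open Finset
open scoped Classical
open NU (Run mr)
open LU (key tch up low isl Nx within beyond LK)

namespace RFVx

variable {d : Run} {S : Sys}

theorem nestle (h : OK d S) {i j : ℕ} (hij : i ≤ j) {a b : ℤ} (e : S.cell i a = S.cell i b) :
    S.cell j a = S.cell j b := by
  induction j, hij using Nat.le_induction with
  | base => exact e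
  | succ n _ ih => exact h.nest _ _ _ ih

theorem bd_spec (h : OK d S) {a b : ℤ} (ha : pt d a) (hb : pt d b) :
    S.cell (bd S a b + 1) a = S.cell (bd S a b + 1) b :=
  Nat.sInf_mem (s := {j | S.cell (j + 1) a = S.cell (j + 1) b}) ⟨S.J, h.top a b ha hb⟩

theorem bd_le {a b : ℤ} {j : ℕ} (e : S.cell (j + 1) a = S.cell (j + 1) b) : bd S a b ≤ j :=
  Nat.sInf_le (s := {j | S.cell (j + 1) a = S.cell (j + 1) b}) e

theorem bd_le_J (h : OK d S) {a b : ℤ} (ha : pt d a) (hb : pt d b) : bd S a b ≤ S.J :=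
  bd_le (h.top a b ha hb)

theorem bd_iff (h : OK d S) {a b : ℤ} (ha : pt d a) (hb : pt d b) (j : ℕ) :
    bd S a b ≤ j ↔ S.cell (j + 1) a = S.cell (j + 1) b :=
  ⟨fun e => nestle h (Nat.succ_le_succ e) (bd_spec h ha hb), bd_le⟩

theorem bd_ne (h : OK d S) {a b : ℤ} (hab : a ≠ b) {j : ℕ} (hj : j ≤ bd S a b) :
    S.cell j a ≠ S.cell j b := by
  intro e
  rcases j with _ | j
  · exact hab (h.inj _ _ e)
  · have := bd_le e
    omega

theorem bd_comm (a b : ℤ) : bd S a b = bd S b a := by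
  unfold bd
  congr 1
  ext j
  exact eq_comm

theorem bd_mono (h : OK d S) {a b a' b' : ℤ} (ha : pt d a) (hb : pt d b) (h1 : a ≤ a')
    (h2 : a' ≤ b') (h3 : b' ≤ b) : bd S a' b' ≤ bd S a b := by
  have e := bd_spec h ha hb
  refine bd_le (le_antisymm (h.mono _ h2) ?_)
  calc S.cell _ b' ≤ S.cell _ b := h.mono _ h3
    _ = S.cell _ a := e.symm
    _ ≤ S.cell _ a' := h.mono _ h1

theorem bd_max (h : OK d S) {a b c : ℤ} (ha : pt d a) (hc : pt d c) (h1 : a ≤ b) (h2 : b ≤ c) :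
    bd S a c = max (bd S a b) (bd S b c) := by
  have hb : pt d b := ⟨ha.1.trans h1, h2.trans hc.2⟩
  refine le_antisymm (bd_le ?_) (max_le (bd_mono h ha hc le_rfl h1 h2)
    (bd_mono h ha hc h1 h2 le_rfl))
  exact ((bd_iff h ha hb _).1 (le_max_left _ _)).trans ((bd_iff h hb hc _).1 (le_max_right _ _))

theorem sm_mono (j t : ℕ) {c c' e e' : ℤ} (h1 : e ≤ c) (h2 : c' ≤ e') :
    sm S j t c c' ≤ sm S j t e e' :=
  sum_le_sum_of_subset (Icc_subset_Icc h1 h2)

theorem om_le (j t : ℕ) {c e e' : ℤ} (h1 : e ≤ c) (h2 : c ≤ e') : S.om j t c ≤ sm S j t e e' :=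
  single_le_sum (f := fun e => S.om j t e) (fun _ _ => Nat.zero_le _) (mem_Icc.2 ⟨h1, h2⟩)

theorem log_lt (h : OK d S) {j t k : ℕ} {a b : ℤ} (ha : pt d a) (hb : pt d b)
    (e : S.cell (j + 1) a = S.cell (j + 1) b)
    (hk : k ≤ sm S j t (S.cell j a) (S.cell j b)) : Nat.log 2 k < S.W := by
  have h1 := h.ht j t a b ha hb e
  rcases Nat.eq_zero_or_pos k with rfl | hk0
  · simp only [Nat.log_zero_right]
    exact h.w1
  · exact Nat.log_lt_of_lt_pow hk0.ne' (hk.trans_lt h1)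

theorem F_lt (h : OK d S) (t : ℕ) {a b : ℤ} (ha : pt d a) (hb : pt d b) :
    F S t a b < (bd S a b + 1) * S.W := by
  unfold F
  have := log_lt h (t := t) ha hb (bd_spec h ha hb) le_rfl
  rw [add_mul, one_mul]
  omega

theorem F_mono (h : OK d S) (t : ℕ) {a b a' b' : ℤ} (ha : pt d a) (hb : pt d b) (h1 : a ≤ a')
    (h2 : a' ≤ b') (h3 : b' ≤ b) : F S t a' b' ≤ F S t a b := by
  have ha' : pt d a' := ⟨ha.1.trans h1, (h2.trans h3).trans hb.2⟩
  have hb' : pt d b' := ⟨(ha.1.trans h1).trans h2, h3.trans hb.2⟩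
  rcases (bd_mono h ha hb h1 h2 h3).eq_or_lt with e | e
  · unfold F
    rw [e]
    exact Nat.add_le_add_left (Nat.log_mono_right (sm_mono _ _ (h.mono _ h1) (h.mono _ h3))) _
  · refine (F_lt h t ha' hb').le.trans ((Nat.mul_le_mul_right _ e).trans ?_)
    exact Nat.le_add_right _ _

theorem sg_le (t : ℕ) (y : ℤ) : sg d S t y ≤ t :=
  Nat.sInf_le fun r h1 h2 => absurd h2 (not_lt.2 h1)

theorem sg_spec (t : ℕ) (y : ℤ) : ∀ r, sg d S t y ≤ r → r < t → tch d r y →
    S.cell (bj d S t y) (d.x r) = it d S t y :=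
  Nat.sInf_mem (s := {s | ∀ r, s ≤ r → r < t → tch d r y →
    S.cell (bj d S t y) (d.x r) = it d S t y}) ⟨t, fun r h1 h2 => absurd h2 (not_lt.2 h1)⟩

theorem sg_min {t s : ℕ} {y : ℤ} (h : ∀ r, s ≤ r → r < t → tch d r y →
    S.cell (bj d S t y) (d.x r) = it d S t y) : sg d S t y ≤ s := Nat.sInf_le h

theorem gm_le {t s : ℕ} {y : ℤ} (h1 : sg d S t y ≤ s) (h2 : s ≤ t) : gm d S t y ≤ lo d S t y s :=
  Nat.sInf_le ⟨s, ⟨h1, h2⟩, rfl⟩

theorem frz (hL : S_FZ) (h : d.OK) {y : ℤ} (hy : key d y) {s t : ℕ} (hst : s ≤ t)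
    (ht : t ≤ d.m) (hn : ∀ r, s ≤ r → r < t → ¬ tch d r y) :
    d.lp t y = d.lp s y ∧ d.rp t y = d.rp s y :=
  ⟨((hL d h).1 s t y hy hst ht hn).1, ((hL d h).1 s t y hy hst ht hn).2.1⟩

theorem omc (h : OK d S) {j : ℕ} {c : ℤ} {s t : ℕ} (hst : s ≤ t) (ht : t ≤ d.m)
    (hn : ∀ r, s ≤ r → r < t → c ≠ S.cell j (d.x r)) : S.om j t c = S.om j s c := by
  induction t, hst using Nat.le_induction with
  | base => rfl
  | succ n hsn ih =>
    rw [h.keep j n c (by omega) (hn n hsn (by omega)), ih (by omega) fun r h1 h2 => hn r h1 (by omega)]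

/-- The last time of a refund. -/
def lst (d : Run) (S : Sys) (t : ℕ) (y : ℤ) (s : ℕ) : Prop :=
  rfa d S t y s ∧ ∀ s', rfa d S t y s' → s' ≤ s

theorem ex_lst {t : ℕ} {y : ℤ} (h : rf d S t y) : ∃ s, lst d S t y s := by
  obtain ⟨s, hs⟩ := h
  obtain ⟨s', h1, h2⟩ := exists_max_image ((range t).filter fun s => rfa d S t y s) id
    ⟨s, mem_filter.2 ⟨mem_range.2 hs.1, hs⟩⟩
  exact ⟨s', (mem_filter.1 h1).2, fun r hr => h2 r (mem_filter.2 ⟨mem_range.2 hr.1, hr⟩)⟩

theorem one (hL : S_FZ) (h : OK d S) {t s : ℕ} {y : ℤ} (hr : rt d t y)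
    (hs : lst d S t y s) : d.lp t y = d.lp (s + 1) y ∧ d.rp t y = d.rp (s + 1) y ∧
      VR d S t y + F S (s + 1) y (d.rp t y) ≤ F S (s + 1) (d.lp t y) (d.rp t y) := by
  obtain ⟨ht, ⟨hk, hl, -⟩, hx⟩ := hr
  obtain ⟨⟨h1, h2, h3⟩, h4⟩ := hs
  have fz := fun r (a : s + 1 ≤ r) (b : r ≤ t) => frz hL h.ok hk a (b.trans ht.le)
    fun q c e => h2 q c (e.trans_le b)
  obtain ⟨e1, e2⟩ := fz t h1 le_rfl
  refine ⟨e1, e2, ?_⟩
  obtain ⟨b1, b2, b3, b4⟩ := (h.ok.tree t ht.le).bnd y hk.1 hk.2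
  have pl : pt d (d.lp t y) := ⟨b1, (b2.trans hk.2).le⟩
  have pr : pt d (d.rp t y) := ⟨(hk.1.trans b3).le, b4⟩
  have py : pt d y := ⟨hk.1.le, hk.2.le⟩
  have m1 : F S (s + 1) y (d.rp t y) ≤ F S (s + 1) (d.lp t y) (d.rp t y) :=
    F_mono h _ pl pr b2.le b3.le le_rfl
  unfold VR tp
  split_ifs with hj
  · omega
  have con : ∀ j c, S.cell j (d.x t) < c → c ≤ S.cell j (d.rp t y) →
      (c = S.cell j (d.rp t y) → j = bd S y (d.rp t y)) → S.om j t c = S.om j (s + 1) c := by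
    intro j c c1 c2 c3
    refine omc h h1 ht.le fun r a b e => ?_
    obtain ⟨f1, f2⟩ := fz r a b.le
    have hn := h2 r a b
    rcases le_or_gt (d.x r) (d.lp r y) with k | k
    · have := h.mono j (show d.x r ≤ d.x t by omega)
      omega
    · have k' : d.rp r y ≤ d.x r := not_lt.1 fun k' => hn ⟨hk, k, k'⟩
      have k1 := h.mono j (show d.rp t y ≤ d.x r by omega)
      have k2 : c = S.cell j (d.rp t y) := by omega
      have k3 := c3 k2
      have := h4 r ⟨b, fun q q1 q2 => h2 q (by omega) q2, by rw [← k3, ← e, k2]⟩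
      omega
  have lt : ∀ j ≤ bj d S t y, S.cell j (d.x t) < S.cell j y := fun j hj =>
    lt_of_le_of_ne (h.mono j hx.le) (bd_ne h hx.ne hj)
  have e3 : F S t y (d.rp t y) = F S (s + 1) y (d.rp t y) := by
    unfold F sm
    rw [sum_congr rfl fun c hc => con _ c ((lt _ (not_lt.1 hj)).trans_le (mem_Icc.1 hc).1)
      (mem_Icc.1 hc).2 fun _ => rfl]
  have m2 : pf d S t y (en S (bj d S t y) y (d.rp t y)) ≤
      F S (s + 1) (d.lp t y) (d.rp t y) := by
    have g1 : gm d S t y ≤ lo d S t y (s + 1) :=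
      gm_le (sg_min fun r a b c => absurd c (h2 r a b)) h1
    have mono := h.mono (bj d S t y)
    have i1 : S.cell (bj d S t y) (d.lp t y) ≤ it d S t y := mono hl.le
    have i2 : it d S t y ≤ S.cell (bj d S t y) (d.rp t y) := mono (hx.trans b3).le
    have i3 : en S (bj d S t y) y (d.rp t y) ≤ S.cell (bj d S t y) (d.rp t y) := by
      unfold en
      split_ifs with k <;> omega
    have g2 : sm S (bj d S t y) t (it d S t y + 1) (en S (bj d S t y) y (d.rp t y)) ≤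
        sm S (bj d S t y) (s + 1) (it d S t y) (S.cell (bj d S t y) (d.rp t y)) := by
      refine le_trans (le_of_eq (sum_congr rfl fun c hc => con _ c (mem_Icc.1 hc).1
        ((mem_Icc.1 hc).2.trans i3) fun e => ?_)) (sm_mono _ _ (by omega) i3)
      refine le_antisymm (not_lt.1 fun k => ?_) (not_lt.1 hj)
      have k1 := nestle h k (bd_spec h py pr)
      have k2 := (mem_Icc.1 hc).2
      unfold en at k2
      rw [if_pos k1] at k2
      omega
    have g3 : max (gm d S t y) (Nat.log 2 (sm S (bj d S t y) t (it d S t y + 1)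
        (en S (bj d S t y) y (d.rp t y)))) ≤ Nat.log 2 (sm S (bj d S t y) (s + 1)
          (it d S t y) (S.cell (bj d S t y) (d.rp t y))) :=
      max_le (g1.trans (Nat.log_mono_right (om_le _ _ le_rfl i2))) (Nat.log_mono_right g2)
    unfold pf
    rcases (show bj d S t y ≤ bd S (d.lp t y) (d.rp t y) from
      bd_mono h pl pr hl.le hx.le b3.le).eq_or_lt with e | e
    · have g4 := Nat.log_mono_right (b := 2) (sm_mono (S := S) (bj d S t y) (s + 1) i1
        (le_refl (S.cell (bj d S t y) (d.rp t y))))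
      unfold F
      rw [← e]
      omega
    · have px : pt d (d.x t) := ⟨pl.1.trans hl.le, hx.le.trans py.2⟩
      have g4 : Nat.log 2 (sm S (bj d S t y) (s + 1) (it d S t y)
          (S.cell (bj d S t y) (d.rp t y))) < S.W :=
        log_lt h px pr ((bd_spec h px py).trans ((bd_iff h py pr _).1 (not_lt.1 hj))) le_rfl
      have g5 := Nat.mul_le_mul_right S.W (Nat.succ_le_of_lt e)
      unfold F
      rw [Nat.succ_mul] at g5
      omega
  omega

end RFVx

theorem p_RFV (hBD : S_BD) (hFF : S_FF) (hGM : S_GM) (hFZ : S_FZ) (hTP : S_TP) :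
    S_RFV := by
  intro d S h t y s hr h1 h2
  obtain ⟨e1, e2, e3⟩ := RFVx.one hFZ h hr ⟨h1, h2⟩
  rw [← e1, ← e2]
  exact ⟨rfl, by omega⟩

end Pool.Agent.P.MP_119182_lc.AE
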