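import Pool.Agent.P.MP_119182_lc.AE.IfaceB

/-! Step RUN. -/

set_option autoImplicit false

namespace Pool.Agent.P.MP_119182_lc.AE

open Finset
open scoped Classical
open NU (mr)
open LU (key tch up low isl Nx within beyond LK)
open IT (Marks One mq)

theorem p_RUN (hALL : S_ALL) (hBUD : S_BUD) (hMKA : S_MKA) (hMKB : S_MKB) (hMKC : S_MKC) (hAVA : S_AVA) (hAVB : S_AVB) (hAVC : S_AVC) :
    S_RUN := by
  obtain ⟨Cl, hl⟩ := hALL
  obtain ⟨Cb, hb⟩ := hBUD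
  obtain ⟨Ca, ha⟩ := hAVA
  obtain ⟨D, hD⟩ : ∃ D, D = 8 * Ca + 12804 := ⟨_, rfl⟩
  refine ⟨Cl * (16 * (Cb + 7) ^ 7 + Cb * (16 + D) + 22 + 6 * D + 7776),
    fun n u m a s v E hn ha1 hw => ?_⟩
  obtain ⟨g, hg⟩ : ∃ g, g = Nat.log 2 (u + 1) + 1 := ⟨_, rfl⟩
  obtain ⟨k, hk⟩ : ∃ k, k = Nat.log 2 (n + 1) + u + 1 := ⟨_, rfl⟩
  rw [← hg, ← hk]
  have g1 : 1 ≤ g := by omega
  have g2 : u + 1 < 2 ^ g := by rw [hg]; exact Nat.lt_pow_succ_log_self (by norm_num) _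
  have g3 : 2 ^ g ≤ 2 * (u + 1) := by
    have := Nat.pow_log_le_self 2 (x := u + 1) (by omega)
    rw [hg, pow_succ]; omega
  obtain ⟨σ, hσ⟩ : ∃ σ, σ + 1 = 2 ^ (g + 1) := ⟨2 ^ (g + 1) - 1, by
    have : 0 < 2 ^ (g + 1) := by positivity
    omega⟩
  have g4 : σ + 1 = 2 * 2 ^ g := by rw [hσ, pow_succ]; omega
  obtain ⟨T', hT'⟩ : ∃ T', T' = Nat.log 2 (n + 1) + 1 + (σ + 1) := ⟨_, rfl⟩
  have t1 : n + 1 < 2 ^ T' :=
    (Nat.lt_pow_succ_log_self (by norm_num) _).trans_le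
      (Nat.pow_le_pow_right (by norm_num) (by omega))
  obtain ⟨V, hV⟩ : ∃ V, V = ∑ i ∈ (range m).filter (fun i => i ∉ E), (v i + 1) := ⟨_, rfl⟩
  have a1 := ha n u m (g + 1) T' a s v E hw (by omega)
  have a2 := hAVB u m σ T' a s v E hw (by omega)
  have a3 := hAVC u m (σ + 1) T' a s v E hw (by omega) (by omega)
  rw [← hV] at a1 ⊢
  obtain ⟨h, hh, hf⟩ := exists_le_of_sum_le (s := range (2 ^ T'))
    (f := fun h : ℕ => NU.MM (fun q => (a (q / 4) : ℤ) + h) n (4 * m) (g + 1) +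
      SP σ (T' + 1) m (fun i => (a i : ℤ) + h) s E +
      ∑ t ∈ range (4 * m), #(PP (σ + 1) m (fun i => (a i : ℤ) + h) s E t))
    (g := fun _ => Ca * (V + m + (n + 1 + #E) * 2 ^ (g + 1)) + 12800 * m + 4 * m)
    ⟨0, mem_range.2 (by positivity)⟩ (by
      rw [sum_add_distrib, sum_add_distrib, sum_comm, sum_const, card_range, smul_eq_mul]
      have := sum_le_card_nsmul (range (4 * m)) _ _ fun t _ => a3 t
      rw [card_range, smul_eq_mul, mul_comm (4 * m)] at this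
      rw [mul_add, mul_add]
      omega)
  have hh' := mem_range.1 hh
  refine ⟨h, fun d ok d1 d2 d3 d4 => ?_⟩
  obtain ⟨S, s1, s2, s3, s4, s5, s6, s7, s8⟩ := hb (g + 1) n d ok (by omega) (by omega)
  rw [← hσ] at s5 s7
  have hot : Hot (σ + 1) m d.L d.R (fun i => (a i : ℤ) + h) s E
      fun t c => 2 ≤ S.om S.J t c := by
    refine ⟨fun i hi => ?_, fun i hi hE => ⟨(hw i hi hE).1, ?_⟩, fun t c ht hc => ?_,
      fun c => not_le.2 (s6 c), fun r t h1 h2 h3 h4 => ?_⟩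
    · have := ha1 i hi
      omega
    · obtain ⟨-, w2, w3⟩ := hw i hi hE
      have e : (Ioc (s i) i).image (fun i => (a i : ℤ) + h) =
          ((Ioc (s i) i).image a).image fun w : ℕ => (w : ℤ) + h := by
        rw [image_image]; rfl
      have : 2 ^ v i ≤ 2 ^ (σ + 1) := Nat.pow_le_pow_right (by norm_num) (by omega)
      unfold NU.dst
      rw [e]
      exact card_image_le.trans (by omega)
    · rw [s3.keep S.J t c (by omega) (by rw [s5, d4]; exact hc)]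
    · have := s7 r t h1 (by omega) (by rw [d4]; exact h3) (by rw [d4]; exact h4)
      rw [d4] at this
      exact this
  obtain ⟨⟨c, Z, m1⟩, ⟨c', Z', m2⟩, m3, m4⟩ := hMKA _ _ _ _ _ _ _ _ hot
  have m5 := hMKB _ _ _ _ _ _ _ _ hot
  have m6 := hMKC σ (T' + 1) _ _ _ _ _ _ _ hot
  have hJ : d.L / 2 ^ (T' + 1) = d.R / 2 ^ (T' + 1) := by
    have h1 : ((h + n + 1 : ℕ) : ℤ) < ((2 ^ (T' + 1) : ℕ) : ℤ) := by
      rw [Nat.cast_lt, pow_succ]; omega
    push_cast at h1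
    rw [d1, d2, Int.ediv_eq_zero_of_lt (by omega) (by omega),
      Int.ediv_eq_zero_of_lt (by omega) h1]
  have l1 := hl σ (T' + 1) c Z c' Z' d S _ _ s3 hJ (by rw [d3, d4]; exact m1)
    (by rw [d3, d4]; exact m5) (by rw [d3, d4]; exact m2) s4 (fun a b => by rw [s5, s5])
    (fun t ht z hz => by
      rw [s5, d4]
      exact m4 t (by omega) z hz)
  have k1 : (d.R - d.L).toNat = n + 1 := by omega
  rw [k1, d3, d4] at l1
  rw [d3, d4] at s8
  refine l1.trans (Nat.add_le_add_left ?_ _)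
  rw [mul_assoc Cl]
  refine Nat.mul_le_mul_left Cl ?_
  have b1 : TV.sw (n + 1) (4 * m) (fun t => insert ((a (t / 4) : ℤ) + h)
      (PP (σ + 1) m (fun i => (a i : ℤ) + h) s E t)) ≤ n + 1 + 5 * (4 * m +
      ∑ t ∈ range (4 * m), #(PP (σ + 1) m (fun i => (a i : ℤ) + h) s E t)) := by
    unfold TV.sw
    refine Nat.add_le_add ?_ (Nat.mul_le_mul_left _ ?_)
    · simp [m3]
    · refine (sum_le_sum (g := fun t => 1 + #(PP (σ + 1) m (fun i => (a i : ℤ) + h) s E t))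
        fun t _ => ?_).trans ?_
      · refine le_trans (Nat.size_le.2 Nat.lt_two_pow_self) ?_
        rw [add_comm 1]
        exact card_insert_le _ _
      · rw [sum_add_distrib, sum_const, card_range, smul_eq_mul, mul_one]
  have b2 : Nat.size (ht S) + 1 ≤ (Cb + 7) * g := by
    have h1 : ht S < 2 ^ (g + 3 + Cb + (g + 1)) := by
      unfold ht
      rw [s1, pow_add, pow_add (2 : ℕ) (g + 3), mul_assoc]
      refine Nat.mul_lt_mul_of_lt_of_le Nat.lt_two_pow_self (s2.trans ?_) (by positivity)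
      exact Nat.mul_le_mul_right _ Nat.lt_two_pow_self.le
    have h2 := Nat.size_le.2 h1
    have h3 : Cb ≤ Cb * g := Nat.le_mul_of_pos_right _ g1
    rw [add_mul]
    omega
  have b3 : (n + 1 + 4 * m) * (S.J + 1) * (Nat.size (ht S) + 1) ^ 7 ≤
      16 * (Cb + 7) ^ 7 * ((n + m) * g ^ 8) :=
    calc _ ≤ (4 * (n + m)) * (4 * g) * ((Cb + 7) * g) ^ 7 :=
          Nat.mul_le_mul (Nat.mul_le_mul (by omega) (by omega)) (Nat.pow_le_pow_left b2 7)
      _ = _ := by ring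
  have b4 : (n + m) * g ≤ (n + m) * g ^ 8 :=
    Nat.mul_le_mul_left _ (Nat.le_self_pow (by norm_num) g)
  have b5 : n + m ≤ (n + m) * g := Nat.le_mul_of_pos_right _ g1
  have b6 : 4 * m * (g + 1 + 2) ≤ 16 * ((n + m) * g) :=
    calc _ ≤ (4 * (n + m)) * (4 * g) := Nat.mul_le_mul (by omega) (by omega)
      _ = _ := by ring
  have b7 : (n + 1 + #E) * 2 ^ (g + 1) ≤ 8 * (n * (u + 1)) + 4 * (#E * k ^ 5) := by
    have h1 : u + 1 ≤ k ^ 5 := le_trans (by omega) (Nat.le_self_pow (by norm_num) k)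
    have h2 := Nat.mul_le_mul_left (#E) h1
    calc _ ≤ (2 * n + #E) * (4 * (u + 1)) := Nat.mul_le_mul (by omega) (by omega)
      _ = 8 * (n * (u + 1)) + 4 * (#E * (u + 1)) := by ring
      _ ≤ _ := by omega
  have b8 : #E * (T' + 1) ^ 5 ≤ 7776 * (#E * k ^ 5) :=
    calc _ ≤ #E * (6 * k) ^ 5 := Nat.mul_le_mul_left _ (Nat.pow_le_pow_left (by omega) 5)
      _ = _ := by ring
  generalize (n + m) * g ^ 8 = X at *
  generalize n * (u + 1) = Y at *
  generalize #E * k ^ 5 = U at *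
  obtain ⟨G, hG⟩ : ∃ G, G = V + X + Y + U := ⟨_, rfl⟩
  rw [← hG]
  have c1 : Ca * (V + m + (n + 1 + #E) * 2 ^ (g + 1)) ≤ Ca * (8 * G) :=
    Nat.mul_le_mul_left _ (by omega)
  have c2 : D * G = Ca * (8 * G) + 12804 * G := by rw [hD]; ring
  generalize NU.MM (fun q => (a (q / 4) : ℤ) + h) n (4 * m) (g + 1) = M1 at *
  have c3 : Cb * (4 * m * (g + 1 + 2) + M1) ≤ Cb * (16 * G + D * G) :=
    Nat.mul_le_mul_left _ (by omega)
  have c4 : 16 * (Cb + 7) ^ 7 * X ≤ 16 * (Cb + 7) ^ 7 * G := Nat.mul_le_mul_left _ (by omega)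
  have c5 : (16 * (Cb + 7) ^ 7 + Cb * (16 + D) + 22 + 6 * D + 7776) * G =
      16 * (Cb + 7) ^ 7 * G + Cb * (16 * G + D * G) + 22 * G + 6 * (D * G) + 7776 * G := by ring
  omega

end Pool.Agent.P.MP_119182_lc.AE
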