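import Pool.Agent.P.MP_119182_lc.AE.Iface

/-! Step TP. -/

set_option autoImplicit false

namespace Pool.Agent.P.MP_119182_lc.AE

open Finset
open scoped Classical
open NU (Run mr)
open LU (key tch up low isl Nx within beyond LK)

theorem p_TP (hBD : S_BD) (hFF : S_FF) (hGM : S_GM) :
    S_TP := by
  intro d S h t y r ht' hy hxy hyr pr
  obtain ⟨-, -, b3, b4⟩ := hBD d S h
  obtain ⟨f1, f2, -, f4, -, f6, f7, -⟩ := hFF d S h
  obtain ⟨g1, -, -, g4, -⟩ := hGM d S h t y ht'
  have hm := (h.ok.step t ht').mem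
  have px : pt d (d.x t) := ⟨hm.1.le, hm.2.le⟩
  have py : pt d y := ⟨hy.1.le, hy.2.le⟩
  have hj : bj d S t y = bd S (d.x t) y := rfl
  have hi : it d S t y = S.cell (bj d S t y) (d.x t) := rfl
  have hJ : bj d S t y ≤ S.J := (b3 _ _ px py).2.1
  have hg : gm d S t y ≤ Nat.log 2 (S.om (bj d S t y) t (it d S t y)) := g4 t g1 le_rfl
  have hne : S.cell (bj d S t y) (d.x t) ≠ S.cell (bj d S t y) y :=
    ((b3 _ _ px py).2.2.2 hxy.ne _).mp hj.le
  have hX : it d S t y < S.cell (bj d S t y) y :=
    lt_of_le_of_ne (h.mono _ hxy.le) hne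
  have hL : S.cell (bj d S t y) d.L ≤ it d S t y := h.mono _ px.1
  have hyr' : S.cell (bj d S t y) y ≤ S.cell (bj d S t y) r := h.mono _ hyr.le
  have hR : S.cell (bj d S t y) r ≤ S.cell (bj d S t y) d.R := h.mono _ pr.2
  have hup : ∀ e e', e ≤ e' → it d S t y ≤ e' → pf d S t y e ≤ bj d S t y * S.W +
      Nat.log 2 (sm S (bj d S t y) t (it d S t y) e') := by
    intro e e' h1 h2
    unfold pf
    refine Nat.add_le_add_left (max_le ?_ ?_) _
    · exact hg.trans (Nat.log_mono_right (f2 _ _ _ _ _ le_rfl h2))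
    · exact Nat.log_mono_right (f1 _ _ _ _ _ _ (by omega) h1)
  have hpf : ∀ e z, pt d z → S.cell (bj d S t y + 1) z = S.cell (bj d S t y + 1) (d.x t) →
      e ≤ S.cell (bj d S t y) z → bj d S t y * S.W ≤ pf d S t y e ∧
      pf d S t y e < (bj d S t y + 1) * S.W := by
    intro e z pz hz he
    refine ⟨Nat.le_add_right _ _, ?_⟩
    have h2 := f4 (bj d S t y) t (d.x t) z (it d S t y + 1) e px pz hz.symm (by omega) he
    have h3 := f4 (bj d S t y) t (d.x t) (d.x t) (it d S t y) (it d S t y) px px rfl hi.ge hi.le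
    have h4 := hg.trans (Nat.log_mono_right (f2 _ t _ _ _ le_rfl le_rfl))
    unfold pf
    rw [Nat.add_mul]
    omega
  have hmo : ∀ e e', e ≤ e' → pf d S t y e ≤ pf d S t y e' := by
    intro e e' he
    unfold pf
    exact Nat.add_le_add_left
      (max_le_max le_rfl (Nat.log_mono_right (f1 _ _ _ _ _ _ le_rfl he))) _
  have hF := f6 t y r py pr hyr
  have hiff := (b3 _ _ py pr).2.2.2 hyr.ne (bj d S t y)
  by_cases hc : bj d S t y < bd S y r
  · have e : tp d S t y r = F S t y r := if_pos hc
    rw [e]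
    exact ⟨le_rfl, f7 t y r _ r px pr hxy.le hyr le_rfl, hF.2.2, hpf, hmo,
      fun q => absurd q (hiff.mp hc.le)⟩
  · have e : tp d S t y r = pf d S t y (en S (bj d S t y) y r) := if_neg hc
    have hen : en S (bj d S t y) y r ≤ S.cell (bj d S t y) r := by
      unfold en
      split_ifs <;> omega
    have hb : bd S (d.x t) r = bj d S t y := by
      rw [b4 _ y r px pr hxy.le hyr.le, ← hj]
      exact max_eq_left (not_lt.mp hc)
    have hp := hpf _ r pr (((b3 _ _ px pr).2.2.1 _).1 hb.le).symm hen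
    have hin : S.cell (bj d S t y) y = S.cell (bj d S t y) r → F S t y r < tp d S t y r := by
      intro q
      have h1 : bd S y r + 1 ≤ bj d S t y := by
        by_contra h2
        exact hiff.mp (by omega) q
      have h2 := Nat.mul_le_mul_right S.W h1
      rw [e]
      omega
    refine ⟨?_, ?_, ?_, hpf, hmo, hin⟩
    · by_cases q : S.cell (bj d S t y) y = S.cell (bj d S t y) r
      · exact (hin q).le
      · have h1 : bd S y r = bj d S t y := le_antisymm (not_lt.mp hc) (hiff.mpr q)
        have h2 : en S (bj d S t y) y r = S.cell (bj d S t y) r := if_neg q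
        rw [e, h2]
        unfold F pf
        rw [h1]
        exact Nat.add_le_add_left
          (le_max_of_le_right (Nat.log_mono_right (f1 _ _ _ _ _ _ (by omega) le_rfl))) _
    · rw [e]
      unfold F
      rw [hb]
      exact hup _ _ hen (by omega)
    · have h1 : (bj d S t y + 1) * S.W ≤ (S.J + 1) * S.W :=
        Nat.mul_le_mul_right _ (by omega)
      rw [e]
      unfold ht
      omega

end Pool.Agent.P.MP_119182_lc.AE
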