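import Pool.Agent.P.MP_119182_lc.AE.Iface

/-! Step VS. -/

set_option autoImplicit false

namespace Pool.Agent.P.MP_119182_lc.AE

open Finset
open scoped Classical
open NU (Run mr)
open LU (key tch up low isl Nx within beyond LK)

theorem p_VS (hBD : S_BD) (hGM : S_GM) (hFZ : S_FZ) (hLNK : S_LNK) (hLINK : LU.S_LINK) :
    S_VS := by
  intro d S h t u hb
  obtain ⟨⟨_, hpu, _⟩, _, h3⟩ := hLNK d S h t u hb.1
  obtain ⟨_, hXp, _⟩ := h3 hb
  obtain ⟨⟨⟨htm, htu, hxu⟩, _⟩, _⟩ := hb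
  obtain ⟨_, g2, _, _, ⟨_, g6, _⟩, _, _⟩ := hGM d S h t u htm
  obtain ⟨_, _, _, f4, f5, f6, f7, _⟩ := hFZ d h.ok
  obtain ⟨_, b2, b3, _⟩ := hBD d S h
  have hku : key d u := htu.1
  have hXu : it d S t u < S.cell (bj d S t u) u := lt_of_lt_of_le hXp (h.mono _ hpu.le)
  have ptk : ∀ y, key d y → pt d y := fun y hy => ⟨hy.1.le, hy.2.le⟩
  have hc : ∀ r, sg d S t u ≤ r → r ≤ t → tch d r u →
      S.cell (bj d S t u) (d.x r) = it d S t u := by
    intro r h1 h2 h3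
    rcases h2.lt_or_eq with e | e
    · exact g2 r h1 e h3
    · rw [e]; rfl
  have hlt : ∀ a z, S.cell (bj d S t u) a = it d S t u → it d S t u < S.cell (bj d S t u) z →
      a < z := by
    intro a z e1 e2
    by_contra hn
    have := h.mono (bj d S t u) (not_lt.1 hn)
    omega
  have hl : ∀ r, sg d S t u ≤ r → r ≤ t → tch d r u → d.x r < u :=
    fun r h1 h2 h3 => hlt _ _ (hc r h1 h2 h3) hXu
  have hlp : ∀ r, sg d S t u ≤ r → r ≤ t → d.lp r u < d.x t := by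
    intro r h1 h2
    have := (f4 r t u hku h2 htm.le fun q q1 q2 q3 => hl q (h1.trans q1) q2.le q3).1
    have := htu.2.1
    omega
  have hne : {r | st d S t u ≤ r ∧ tch d r u}.Nonempty := ⟨t, g6, htu⟩
  have r1 : st d S t u ≤ ro d S t u ∧ tch d (ro d S t u) u := Nat.sInf_mem hne
  have r2 : ro d S t u ≤ t := Nat.sInf_le ⟨g6, htu⟩
  refine ⟨fun r h1 h2 h3 => ⟨hl r h1 h2 h3, hc r h1 h2 h3, fun h4 h5 => ?_⟩,
    fun r z h1 h2 h3 h4 => ?_, hXu, (b3 _ _ (ptk _ (f7 t htm)) (ptk _ hku)).2.1, by omega,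
    r1.1, r2, ?_, ?_, fun r h1 h2 h3 => ?_⟩
  · have hrm : r < d.m := by omega
    have hxr := hl r h1 h2 h3
    refine ⟨⟨⟨hrm, h3, hxr⟩, h5⟩, ?_⟩
    obtain ⟨l1, _, _, _, _, l6⟩ := (hLINK d h.ok r hrm).1 u h5
    have a1 := hlp (r + 1) (by omega) h4
    have a2 := hc r h1 h2 h3
    have a3 : S.cell (bj d S t u) (d.x t) = it d S t u := rfl
    obtain ⟨_, p2, _, p4⟩ := f6 r u hrm.le hku
    rcases l6 with ⟨m1, m2, _, _, _, m6, _⟩ | ⟨m1, m2, _⟩
    · have a4 := b2 (bj d S t u) (d.x r) (low d r u) (d.x t) m1.le (by omega) (a2.trans a3.symm)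
      have a5 := (b3 _ _ (ptk _ (f7 r hrm)) (ptk _ l1.1)).2.2.2 m1.ne (bj d S t u)
      have a6 := (b3 _ _ (ptk _ l1.1) p2).2.2.2 (by omega) (bj d S t u)
      have a7 := h.mono (bj d S t u) p4.le
      have a8 : bj d S t u ≤ bd S (low d r u) (d.rp r u) := a6.2 (by omega)
      have a9 : ¬ bj d S t u ≤ bd S (d.x r) (low d r u) := fun e => a5.1 e a4.1
      show bd S (d.x r) (low d r u) < bd S (low d r u) (d.rp r u)
      omega
    · omega
  · have a1 := hlp r h1 h2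
    have a2 := hlt (d.x t) z rfl h3
    refine ⟨by omega, fun h5 => ?_⟩
    obtain ⟨_, _, _, p4⟩ := f6 r u (by omega) hku
    obtain ⟨_, q2, q3, _⟩ := f5 r u z (by omega) hku (by omega) (by omega)
    have := h5.2.1
    have := h5.2.2
    exact ⟨hku, by omega, by omega⟩
  · exact mem_filter.2 ⟨mem_Icc.2 ⟨r1.1, r2⟩, r1.2⟩
  · exact mem_filter.2 ⟨mem_Icc.2 ⟨g6, le_rfl⟩, htu⟩
  · have : ro d S t u ≤ r := Nat.sInf_le ⟨h1, h3⟩
    omega

end Pool.Agent.P.MP_119182_lc.AE
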