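import Pool.Agent.P.MP_119182_lc.AE.IfaceB

/-! Step WARM. -/

set_option autoImplicit false

namespace Pool.Agent.P.MP_119182_lc.AE

open Finset
open scoped Classical
open NU (mr)
open LU (key tch up low isl Nx within beyond LK)
open IT (Marks One mq)

namespace W35

/-- Links inside a top item and links over a heavy item are warm. -/
theorem point (hBD : S_BD) (hFF : S_FF) (hTP : S_TP) (hLNK : S_LNK)
    {d : NU.Run} {S : Sys} (h : OK d S) (hp : ∀ j < S.J, ∀ t c, 1 ≤ S.om j t c) {t : ℕ} {u : ℤ}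
    (hr : rl d t u)
    (hc : S.cell S.J (low d t u) = S.cell S.J (d.rp t u) ∨
      ∃ z, d.x t < z ∧ z ≤ d.rp t u ∧ S.cell S.J z ≠ S.cell S.J (d.x t) ∧
        2 ≤ S.om S.J t (S.cell S.J z)) : wm d S t u := by
  obtain ⟨⟨⟨tm, c1, a1⟩, a2, -⟩, l2, -⟩ := hLNK d S h t u hr
  obtain ⟨⟨-, htc, hx⟩, -⟩ := hr
  obtain ⟨-, -, ur, pr'⟩ := (h.ok.tree t tm.le).bnd u htc.1.1 htc.1.2
  have pr : pt d (d.rp t u) := ⟨(htc.1.1.trans ur).le, pr'⟩
  have kx := (h.ok.step t tm).mem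
  have px : pt d (d.x t) := ⟨kx.1.le, kx.2.le⟩
  have pu : pt d u := ⟨htc.1.1.le, htc.1.2.le⟩
  have pp : pt d (low d t u) := ⟨c1.1.1.le, c1.1.2.le⟩
  obtain ⟨-, -, b3, -⟩ := hBD d S h
  obtain ⟨-, f2, -⟩ := hFF d S h
  have p6 := (hTP d S h t (low d t u) (d.rp t u) tm c1.1 a1 (a2.trans ur) pr).2.2.2.2.2
  by_contra hw
  unfold wm at hw
  rw [not_or, not_or] at hw
  obtain ⟨w1, w2, w3⟩ := hw
  obtain ⟨e1, -⟩ := l2 w2
  have hJ : bj d S t u ≤ S.J := (b3 _ _ px pu).2.1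
  have k := h.mono (bj d S t u) (a2.trans ur).le
  have eJ : bj d S t u = S.J := by
    by_contra ne
    exact w3 ((hp _ (by omega) t _).trans (f2 _ t _ _ _ le_rfl k))
  have g2 : gp d S t u = tp d S t (low d t u) (d.rp t u) - F S t (low d t u) (d.rp t u) := rfl
  have ne : S.cell S.J (low d t u) ≠ S.cell S.J (d.rp t u) := fun e => by
    have := p6 (by rw [e1, eJ]; exact e)
    omega
  obtain ⟨z, z1, z2, z3, z4⟩ := hc.resolve_left ne
  obtain ⟨-, q1, -, q2⟩ := b3 _ _ pp pr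
  have eb : bd S (low d t u) (d.rp t u) = S.J :=
    le_antisymm q1 ((q2 (a2.trans ur).ne _).2 ne)
  have m0 : mw d S t u = sm S S.J t (S.cell S.J (low d t u)) (S.cell S.J (d.rp t u)) := by
    unfold mw; rw [eJ]
  have eF : F S t (low d t u) (d.rp t u) = S.J * S.W := by
    unfold F
    rw [eb, ← m0, show mw d S t u = 0 by omega, Nat.log_zero_right, add_zero]
  have k1 := h.mono S.J z1.le
  have k2 := h.mono S.J z2
  have s1 : 2 ^ 1 ≤ sm S S.J t (S.cell S.J (d.x t) + 1) (S.cell S.J (d.rp t u)) :=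
    z4.trans (f2 _ t _ _ _ (by omega) k2)
  have s2 := Nat.le_log_of_pow_le (by norm_num) s1
  have eT : S.J * S.W + 1 ≤ tp d S t (low d t u) (d.rp t u) := by
    unfold tp
    rw [if_neg (by rw [e1, eJ, eb]; exact lt_irrefl _)]
    unfold pf en it
    rw [e1, eJ, if_neg ne]
    exact Nat.add_le_add_left (le_max_of_le_right s2) _
  omega

/-- Counting upper nodes with a warm link. -/
theorem count {d : NU.Run} {S : Sys} (c : ℕ → ℤ → Prop)
    (hc : ∀ t u, rl d t u → low d t u = d.lp (t + 1) u → c t u → wm d S t u) (h : OK d S) :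
    ∑ t ∈ range d.m, #((d.U t).filter (c t)) ≤ #(WM d S) := by
  rw [← card_sigma]
  refine card_le_card_of_injOn (fun p => (p.1, p.2)) (fun p hp => ?_) ?_
  · obtain ⟨t, u⟩ := p
    simp only [coe_sigma, Set.mem_sigma_iff, mem_coe, mem_range, mem_filter, NU.Run.U, NU.Run.P,
      mem_Ioo] at hp
    obtain ⟨tm, ⟨⟨⟨x1, x2⟩, x3⟩, x4⟩, x5⟩ := hp
    have hm := (h.ok.step t tm).mem
    have ku : LU.key d u := ⟨hm.1.trans x1, x2⟩
    have b := (h.ok.tree t tm.le).bnd u ku.1 ku.2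
    have tc : tch d t u := ⟨ku, x3, x1.trans b.2.2.1⟩
    have r : rl d t u := ⟨⟨tm, tc, x1⟩, tc, Or.inl ⟨x1, x4⟩⟩
    exact mem_coe.2 (mem_filter.2 ⟨mem_filter.2 ⟨mem_product.2 ⟨mem_range.2 tm, mem_Ioo.2 ku⟩, r⟩,
      hc t u r (if_pos x1) x5⟩)
  · rintro ⟨a, b⟩ - ⟨c, e⟩ - q
    simp only [Prod.mk.injEq] at q
    obtain ⟨rfl, rfl⟩ := q
    rfl

end W35

theorem p_WARM (hBD : S_BD) (hFF : S_FF) (hTP : S_TP) (hLNK : S_LNK) (_hLINK : LU.S_LINK) :
    S_WARM := by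
  intro σ d S Q Q' h hp hc hq
  refine ⟨le_trans (le_of_eq (sum_congr rfl fun t _ => by unfold IT.int; congr))
    (W35.count (fun t u => IT.bl σ (d.lp (t + 1) u) = IT.bl σ (d.rp t u))
    (fun t u r e c => W35.point hBD hFF hTP hLNK h hp r (Or.inl ((hc _ _).2 (e ▸ c)))) h), ?_⟩
  refine le_trans ?_ (Nat.add_le_add_left (W35.count
    (fun t u => ∃ z, d.x t < z ∧ z ≤ d.rp t u ∧ S.cell S.J z ≠ S.cell S.J (d.x t) ∧
      2 ≤ S.om S.J t (S.cell S.J z))
    (fun t u r _ c => W35.point hBD hFF hTP hLNK h hp r (Or.inr c)) h) _)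
  rw [← sum_add_distrib]
  refine sum_le_sum fun t ht => ?_
  have tm := mem_range.1 ht
  unfold IT.up
  refine le_trans (card_le_card fun u hu => ?_) (card_union_le _ _)
  obtain ⟨hu, z, hz, z1, z2⟩ := mem_filter.1 hu
  unfold tl at hz
  rw [if_pos tm, mem_filter] at hz
  have z3 := hz.2.resolve_left z1.ne'
  rcases hq t tm z hz.1 with k | k | k
  · exact mem_union_left _ (mem_filter.2 ⟨hu, z, k, z1, z2⟩)
  · exact absurd k z3
  · exact mem_union_right _ (mem_filter.2 ⟨hu, z, z1, z2.le, fun e => z3 ((hc _ _).1 e), k⟩)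

end Pool.Agent.P.MP_119182_lc.AE
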