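import Pool.Agent.P.MP_119182_lc.AE.IfaceB

/-! Step WIT. -/

set_option autoImplicit false

namespace Pool.Agent.P.MP_119182_lc.AE

open Finset
open scoped Classical
open NU (mr)
open LU (key tch up low isl Nx within beyond LK)
open IT (Marks One mq)
open NU.Avg (term term_mem one_le_term last_spec)

theorem wit_cast (a : ℕ → ℕ) (i j : ℕ) :
    (wset a i j : ℝ) + |(a i : ℝ) - (j : ℝ)| = (wset a i j + Nat.dist (a i) j : ℕ) := by
  rw [Nat.cast_add]
  congr 1
  rcases le_total (a i) j with h4 | h4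
  · rw [Nat.dist_eq_sub_of_le h4, Nat.cast_sub h4, abs_sub_comm,
      abs_of_nonneg (sub_nonneg.2 (Nat.cast_le.2 h4))]
  · rw [Nat.dist_eq_sub_of_le_right h4, Nat.cast_sub h4,
      abs_of_nonneg (sub_nonneg.2 (Nat.cast_le.2 h4))]

theorem wit_le {n u : ℕ} (a : ℕ → ℕ) (i j : ℕ) (h1 : 1 ≤ j) (h2 : j ≤ n)
    (h : wset a i j + Nat.dist (a i) j ≤ 2 ^ u) : term n a i ≤ (u + 1 : ℕ) := by
  refine le_trans (csInf_le ((Set.finite_Icc 1 n).image _).bddBelow ⟨j, ⟨h1, h2⟩, rfl⟩) ?_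
  have hu : (0 : ℝ) ≤ u := u.cast_nonneg
  refine max_le (by push_cast; linarith) ?_
  rw [wit_cast]
  rcases Nat.eq_zero_or_pos (wset a i j + Nat.dist (a i) j) with h4 | h4
  · rw [h4]
    simp only [Nat.cast_zero, Real.logb_zero]
    positivity
  · rw [Real.logb_le_iff_le_rpow one_lt_two (Nat.cast_pos.2 h4), Real.rpow_natCast]
    exact_mod_cast h.trans (Nat.pow_le_pow_right two_pos (Nat.le_succ u))

theorem wit_one {n u : ℕ} (hn : 1 ≤ n) (a : ℕ → ℕ) (i : ℕ) (hu : term n a i ≤ (u + 1 : ℕ))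
    (hB : ¬ ((¬ ∃ r < i, a r = a i) ∧ #((Ioc 0 i).image a) ≤ 2 ^ (u + 1))) :
    ∃ s v : ℕ, (v : ℝ) + 1 ≤ 3 * term n a i ∧ s < i ∧ v ≤ u + 1 ∧
      #((Ioc s i).image a) + Nat.dist (a i) (a s) ≤ 2 ^ v := by
  obtain ⟨j, -, h⟩ := term_mem hn a i
  have h1 := one_le_term hn a i
  have h2 : (⌈term n a i⌉₊ : ℝ) + 1 ≤ 3 * term n a i := by
    have := Nat.ceil_lt_add_one (zero_le_one.trans h1)
    linarith
  have h0 : ⌈term n a i⌉₊ ≤ u + 1 := Nat.ceil_le.2 hu
  have h3 : wset a i j + Nat.dist (a i) j ≤ 2 ^ ⌈term n a i⌉₊ := by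
    rcases Nat.eq_zero_or_pos (wset a i j + Nat.dist (a i) j) with h4 | h4
    · exact h4 ▸ Nat.zero_le _
    · have h5 := ((le_max_right _ _).trans h.le).trans (Nat.le_ceil _)
      rw [wit_cast, Real.logb_le_iff_le_rpow one_lt_two (Nat.cast_pos.2 h4),
        Real.rpow_natCast] at h5
      exact_mod_cast h5
  by_cases hj : ∃ r < i, a r = j
  · obtain ⟨r, hr, rfl⟩ := hj
    refine ⟨lastIdx a i (a r), _, h2, (last_spec hr).1, h0, ?_⟩
    rw [(last_spec (a := a) hr).2]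
    exact h3
  · have h6 : lastIdx a i j = 0 := by
      rw [lastIdx, filter_eq_empty_iff.2 fun s hs e => hj ⟨s, mem_range.1 hs, e⟩]
      rfl
    rw [wset, h6] at h3
    by_cases hi : ∃ r < i, a r = a i
    · obtain ⟨r, hr, e⟩ := hi
      refine ⟨r, _, h2, hr, h0, le_trans ?_ h3⟩
      rw [e, Nat.dist_self]
      exact Nat.add_le_add (card_le_card (image_subset_image (Ioc_subset_Ioc_left r.zero_le)))
        (Nat.zero_le _)
    · exact absurd ⟨hi, (Nat.le_add_right _ _).trans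
        (h3.trans (Nat.pow_le_pow_right two_pos h0))⟩ hB

theorem wit_few (a : ℕ → ℕ) (m w : ℕ) :
    #((range m).filter fun i => (¬ ∃ r < i, a r = a i) ∧ #((Ioc 0 i).image a) ≤ w) ≤ w + 1 := by
  set F := (range m).filter fun i => (¬ ∃ r < i, a r = a i) ∧ #((Ioc 0 i).image a) ≤ w with hF
  rcases F.eq_empty_or_nonempty with h | h
  · rw [h]; simp
  have h1 := (mem_filter.1 (F.max'_mem h)).2.2
  have h2 : #(F.erase 0) ≤ #((Ioc 0 (F.max' h)).image a) := by
    refine card_le_card_of_injOn a (fun i hi => ?_) fun i hi j hj e => ?_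
    · have h3 := mem_erase.1 hi
      exact mem_coe.2 (mem_image_of_mem a (mem_Ioc.2 ⟨Nat.pos_of_ne_zero h3.1, F.le_max' i h3.2⟩))
    · have h3 := (mem_filter.1 (mem_erase.1 hi).2).2.1
      have h4 := (mem_filter.1 (mem_erase.1 hj).2).2.1
      rcases lt_trichotomy i j with h | h | h
      · exact absurd ⟨i, h, e⟩ h4
      · exact h
      · exact absurd ⟨j, h, e.symm⟩ h3
  have h5 := pred_card_le_card_erase (s := F) (a := 0)
  omega

theorem p_WIT :
    S_WIT := by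
  intro n u m a E hn _ hE
  let F := (range m).filter fun i => (¬ ∃ r < i, a r = a i) ∧ #((Ioc 0 i).image a) ≤ 2 ^ (u + 1)
  have key : ∀ i, ∃ s v : ℕ, i < m → i ∉ E ∪ F → (v : ℝ) + 1 ≤ 3 * term n a i ∧ s < i ∧
      v ≤ u + 1 ∧ #((Ioc s i).image a) + Nat.dist (a i) (a s) ≤ 2 ^ v := by
    intro i
    by_cases h : i < m ∧ i ∉ E ∪ F
    · obtain ⟨j, h1, h2, h3⟩ := hE i h.1 fun e => h.2 (mem_union_left _ e)
      obtain ⟨s, v, h4⟩ := wit_one hn a i (wit_le a i j h1 h2 h3) fun e =>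
        h.2 (mem_union_right _ (mem_filter.2 ⟨mem_range.2 h.1, e⟩))
      exact ⟨s, v, fun _ _ => h4⟩
    · exact ⟨0, 0, fun h1 h2 => absurd ⟨h1, h2⟩ h⟩
  choose s v hs using key
  refine ⟨s, v, E ∪ F, fun i h1 h2 => (hs i h1 h2).2, ?_, ?_⟩
  · have h1 := card_union_le E F
    have h2 : #F ≤ 2 ^ (u + 1) + 1 := wit_few a m _
    omega
  · rw [Nat.cast_sum]
    refine le_trans (sum_le_sum (g := fun i => 3 * term n a i) fun i hi => ?_) ?_
    · have h1 := mem_filter.1 hi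
      push_cast
      exact (hs i (mem_range.1 h1.1) h1.2).1
    · rw [← mul_sum]
      refine mul_le_mul_of_nonneg_left ?_ (by norm_num)
      exact sum_le_sum_of_subset_of_nonneg (filter_subset _ _) fun i _ _ =>
        zero_le_one.trans (one_le_term hn a i)

end Pool.Agent.P.MP_119182_lc.AE
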