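import Pool.Agent.P.MP_119182_lc.AE.Iface

/-! Step ZG. -/

set_option autoImplicit false

namespace Pool.Agent.P.MP_119182_lc.AE

open Finset
open scoped Classical
open NU (Run mr)
open LU (key tch up low isl Nx within beyond LK)

theorem p_ZG (hMIR : S_MIR) (hMIRA : LU.S_MIRA) (hLINK : LU.S_LINK) :
    S_ZG := by
  intro d S _
  have hmm : ∀ a : ℤ, mr (mr a) = a := fun a => by unfold mr; ring
  obtain ⟨-, hT, hU, -⟩ := hMIRA d (val d S)
  have hinj : Function.Injective fun p : ℕ × ℤ => (p.1, mr p.2) := by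
    intro p q e
    have e1 : p.1 = q.1 := (Prod.mk.inj e).1
    have e2 : mr p.2 = mr q.2 := (Prod.mk.inj e).2
    refine Prod.ext e1 ?_
    rw [← hmm p.2, e2, hmm]
  rw [← card_image_of_injective ((RL d.mir).filter fun p => 1 ≤ gp d.mir S.mir p.1 p.2) hinj,
    ← card_union_of_disjoint]
  · refine card_le_card fun p hp => ?_
    rcases mem_union.1 hp with a | a
    · obtain ⟨a1, a2⟩ := mem_filter.1 a
      obtain ⟨a3, a4⟩ := mem_filter.1 a1
      refine mem_filter.2 ⟨mem_filter.2 ⟨a3, a4.2⟩, ?_⟩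
      show 1 ≤ gg d S p.1 p.2
      unfold gg
      rw [if_pos a4.1.2.2]
      exact a2
    · obtain ⟨q, hq, rfl⟩ := mem_image.1 a
      obtain ⟨a1, a2⟩ := mem_filter.1 hq
      obtain ⟨a3, a4⟩ := mem_filter.1 a1
      have u1 : up d q.1 (mr q.2) := (hU q.1 (mr q.2)).1 (by rw [hmm]; exact a4.2)
      have u2 : mr (d.x q.1) < q.2 := a4.1.2.2
      refine mem_filter.2 ⟨mem_filter.2 ⟨mem_product.2 ⟨(mem_product.1 a3).1,
        mem_Ioo.2 u1.1.1⟩, u1⟩, ?_⟩
      show 1 ≤ gg d S q.1 (mr q.2)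
      unfold gg
      rw [if_neg (by unfold mr at *; omega), hmm]
      exact a2
  · rw [disjoint_left]
    intro p a b
    obtain ⟨q, hq, rfl⟩ := mem_image.1 b
    have u1 : d.x q.1 < mr q.2 := (mem_filter.1 (mem_filter.1 a).1).2.1.2.2
    have u2 : mr (d.x q.1) < q.2 := (mem_filter.1 (mem_filter.1 hq).1).2.1.2.2
    unfold mr at *
    omega

end Pool.Agent.P.MP_119182_lc.AE
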