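import Pool.Agent.P.MP_119182_lc.LU.Iface

/-! Bands of cells with weights that change only at an access, levels, values. -/

set_option autoImplicit false

namespace Pool.Agent.P.MP_119182_lc.AE

open Finset
open scoped Classical
open NU (Run mr)
open LU (key tch up low isl Nx within beyond LK)

/-- Nested cells, weights of the items (band, time, item) and bounds for the total weight of the
items in the next larger cell (band, time, point). -/
structure Sys where
  J : ℕ
  W : ℕ
  cell : ℕ → ℤ → ℤ
  om : ℕ → ℕ → ℤ → ℕ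
  SG : ℕ → ℕ → ℤ → ℕ

/-- The mirror image. -/
def Sys.mir (S : Sys) : Sys where
  J := S.J
  W := S.W
  cell := fun j a => -S.cell j (mr a)
  om := fun j t c => S.om j t (-c)
  SG := fun j t z => S.SG j t (mr z)

section
variable (d : Run) (S : Sys)

/-- The weight of the items from `c` to `c'`. -/
noncomputable def sm (j t : ℕ) (c c' : ℤ) : ℕ := ∑ e ∈ Icc c c', S.om j t e

/-- A point of the closed range. -/
def pt (a : ℤ) : Prop := d.L ≤ a ∧ a ≤ d.R

/-- The hypotheses. -/
structure OK : Prop where
  ok : d.OK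
  lr : d.L < d.R
  mono : ∀ j, Monotone (S.cell j)
  nest : ∀ j a b, S.cell j a = S.cell j b → S.cell (j + 1) a = S.cell (j + 1) b
  inj : ∀ a b, S.cell 0 a = S.cell 0 b → a = b
  top : ∀ a b, pt d a → pt d b → S.cell (S.J + 1) a = S.cell (S.J + 1) b
  w1 : 1 ≤ S.W
  keep : ∀ j t c, t < d.m → c ≠ S.cell j (d.x t) → S.om j (t + 1) c = S.om j t c
  ht : ∀ j t a b, pt d a → pt d b → S.cell (j + 1) a = S.cell (j + 1) b →
    sm S j t (S.cell j a) (S.cell j b) < 2 ^ S.W
  sg : ∀ j t z a b, pt d a → pt d b → S.cell (j + 1) a = S.cell (j + 1) z →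
    S.cell (j + 1) b = S.cell (j + 1) z → sm S j t (S.cell j a) (S.cell j b) ≤ S.SG j t z

/-- The top level. -/
def ht : ℕ := (S.J + 1) * S.W

/-- The band of two points. -/
noncomputable def bd (a b : ℤ) : ℕ := sInf {j | S.cell (j + 1) a = S.cell (j + 1) b}

/-- The level of the closed interval from `a` to `b`. -/
noncomputable def F (t : ℕ) (a b : ℤ) : ℕ :=
  bd S a b * S.W + Nat.log 2 (sm S (bd S a b) t (S.cell (bd S a b) a) (S.cell (bd S a b) b))

/-- The budget of access `s` in band `j`, before the change of the weight. -/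
noncomputable def B0 (j s : ℕ) : ℕ :=
  Nat.log 2 (S.SG j s (d.x s)) - Nat.log 2 (S.om j s (S.cell j (d.x s)))

/-- The budget of access `s` in band `j`, after the change of the weight. -/
noncomputable def B1 (j s : ℕ) : ℕ :=
  Nat.log 2 (S.SG j (s + 1) (d.x s)) - Nat.log 2 (S.om j (s + 1) (S.cell j (d.x s)))

noncomputable def BB0 : ℕ := ∑ s ∈ range d.m, ∑ j ∈ range (S.J + 1), B0 d S j s

noncomputable def BB1 : ℕ := ∑ s ∈ range d.m, ∑ j ∈ range (S.J + 1), B1 d S j s

/-- The band in which the access `t` sees `y`. -/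
noncomputable def bj (t : ℕ) (y : ℤ) : ℕ := bd S (d.x t) y

/-- The item of the access `t` in that band. -/
noncomputable def it (t : ℕ) (y : ℤ) : ℤ := S.cell (bj d S t y) (d.x t)

/-- The first time from which `y` is touched only from the item of access `t`. -/
noncomputable def sg (t : ℕ) (y : ℤ) : ℕ :=
  sInf {s | ∀ r, s ≤ r → r < t → tch d r y → S.cell (bj d S t y) (d.x r) = it d S t y}

/-- The level of the item of access `t` at time `s`. -/
noncomputable def lo (t : ℕ) (y : ℤ) (s : ℕ) : ℕ := Nat.log 2 (S.om (bj d S t y) s (it d S t y))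

/-- The least level of the item since then. -/
noncomputable def gm (t : ℕ) (y : ℤ) : ℕ := sInf (lo d S t y '' Set.Icc (sg d S t y) t)

/-- The last time with the least level. -/
noncomputable def st (t : ℕ) (y : ℤ) : ℕ :=
  sSup {s | sg d S t y ≤ s ∧ s ≤ t ∧ lo d S t y s = gm d S t y}

/-- The level of the viewer when the items up to `e` are counted. -/
noncomputable def pf (t : ℕ) (y e : ℤ) : ℕ :=
  bj d S t y * S.W + max (gm d S t y) (Nat.log 2 (sm S (bj d S t y) t (it d S t y + 1) e))

/-- The last item that is counted for the token from `y` to `r`. -/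
noncomputable def en (j : ℕ) (y r : ℤ) : ℤ :=
  if S.cell j y = S.cell j r then S.cell j y - 1 else S.cell j r

/-- The level up to which the token from `y` to `r` is funded for the access `t`. -/
noncomputable def tp (t : ℕ) (y r : ℤ) : ℕ :=
  if bj d S t y < bd S y r then F S t y r else pf d S t y (en S (bj d S t y) y r)

/-- The value of the right token of `y` shown to an access on its left. -/
noncomputable def VR (t : ℕ) (y : ℤ) : ℕ := tp d S t y (d.rp t y) - F S t y (d.rp t y)

/-- The level of the right link with upper node `u`. -/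
noncomputable def AA (t : ℕ) (u : ℤ) : ℕ := tp d S t (low d t u) (d.rp t u)

/-- The gap of the right link with upper node `u`. -/
noncomputable def gp (t : ℕ) (u : ℤ) : ℕ := AA d S t u - F S t (low d t u) (d.rp t u)

/-- The value after the raise. -/
noncomputable def shR (t : ℕ) (y : ℤ) : ℕ :=
  if up d t y then max (VR d S t y) (AA d S t y - F S t y (d.rp t y))
  else if isl d t y then max (VR d S t y) (AA d S t (d.rp t y) - F S t y (d.rp t y))
  else VR d S t y

/-- The item of the far end of the token was accessed at `s`, and `y` was not touched since. -/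
def rfa (t : ℕ) (y : ℤ) (s : ℕ) : Prop :=
  s < t ∧ (∀ r, s < r → r < t → ¬ tch d r y) ∧
    S.cell (bd S y (d.rp t y)) (d.x s) = S.cell (bd S y (d.rp t y)) (d.rp t y)

def rf (t : ℕ) (y : ℤ) : Prop := ∃ s, rfa d S t y s

/-- The node `y` is the key of the access before `t`. -/
def ac (t : ℕ) (y : ℤ) : Prop := 1 ≤ t ∧ d.x (t - 1) = y

/-- The value before the raises of the touch. -/
noncomputable def preR (t : ℕ) (y : ℤ) : ℕ := if rf d S t y ∨ ac d t y then 0 else VR d S t y

/-- A touch from the left. -/
def rt (t : ℕ) (y : ℤ) : Prop := t < d.m ∧ tch d t y ∧ d.x t < y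

noncomputable def RT : Finset (ℕ × ℤ) := (range d.m ×ˢ d.keys).filter fun p => rt d p.1 p.2

/-- Both sides. -/
noncomputable def pre (t : ℕ) (y : ℤ) : ℕ :=
  if d.x t < y then preR d S t y else preR d.mir S.mir t (mr y)

noncomputable def sh (t : ℕ) (y : ℤ) : ℕ :=
  if d.x t < y then shR d S t y else shR d.mir S.mir t (mr y)

noncomputable def gg (t : ℕ) (u : ℤ) : ℕ :=
  if d.x t < u then gp d S t u else gp d.mir S.mir t (mr u)

/-- The value before the raises of the next touch. -/
noncomputable def pv (s : ℕ) (y : ℤ) : ℕ :=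
  sSup {k | ∃ t, Nx d s y t ∧ d.x t ≠ y ∧ k = pre d S t y}

/-- The values. -/
noncomputable def val : LU.Val where
  v0 := fun s y => if s = 0 then 0 else pv d S s y
  v := fun s y => if s < d.m ∧ tch d s y ∧ y ≠ d.x s then sh d S s y else pv d S s y
  hi := fun s u => ∀ t, Nx d (s + 1) u t → within d s u t
  g := fun s u => gg d S s u

/-- The price of the refunds on the right. -/
noncomputable def REF : ℕ :=
  ∑ p ∈ (RT d).filter fun p => rf d S p.1 p.2, Nat.size (VR d S p.1 p.2) ^ 3

/-- The price of the raises at right links. -/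
noncomputable def RAI : ℕ :=
  ∑ p ∈ RT d, Nat.size (shR d S p.1 p.2 - VR d S p.1 p.2) ^ 3

/-- A right link. -/
def rl (t : ℕ) (u : ℤ) : Prop := rt d t u ∧ up d t u

noncomputable def RL : Finset (ℕ × ℤ) := (range d.m ×ˢ d.keys).filter fun p => rl d p.1 p.2

/-- A right link across bands. -/
def crs (t : ℕ) (u : ℤ) : Prop := bj d S t (low d t u) < bd S (low d t u) (d.rp t u)

/-- The bound for the two raises of a link. -/
noncomputable def DD (t : ℕ) (u : ℤ) : ℕ :=
  AA d S t u - pf d S t (low d t u) (S.cell (bj d S t u) u - 1)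

/-- The weight of the items met by the merged token. -/
noncomputable def mw (t : ℕ) (u : ℤ) : ℕ :=
  sm S (bj d S t u) t (S.cell (bj d S t u) (low d t u)) (S.cell (bj d S t u) (d.rp t u))

/-- A bad right link. -/
def bad (t : ℕ) (u : ℤ) : Prop :=
  rl d t u ∧ ¬ crs d S t u ∧ ((gp d S t u = 0 ∧ 1 ≤ mw d S t u) ∨ 0 < DD d S t u)

/-- A warm link. -/
def wm (t : ℕ) (u : ℤ) : Prop := 1 ≤ gp d S t u ∨ crs d S t u ∨ 1 ≤ mw d S t u

/-- The warm right links. -/
noncomputable def WM : Finset (ℕ × ℤ) := (RL d).filter fun p => wm d S p.1 p.2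

noncomputable def BAD : Finset (ℕ × ℤ) := (range d.m ×ˢ d.keys).filter fun p => bad d S p.1 p.2

/-- The scale of a link. -/
noncomputable def sc (t : ℕ) (u : ℤ) : ℕ := Nat.size (DD d S t u)

/-- The cost of the bad links. -/
noncomputable def BC : ℕ := ∑ p ∈ BAD d S, (sc d S p.1 p.2 + 1) ^ 3

/-- The level of the items before the item of `u`. -/
noncomputable def QQ (t : ℕ) (u : ℤ) : ℕ := pf d S t u (S.cell (bj d S t u) u - 1)

/-- The annulus of a link. -/
noncomputable def an (t : ℕ) (u : ℤ) : ℕ := QQ d S t u / 2 ^ (sc d S t u - 1)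

/-- The touches of `u` since the time of the least level. -/
noncomputable def vs (t : ℕ) (u : ℤ) : Finset ℕ :=
  (Icc (st d S t u) t).filter fun r => tch d r u

/-- The first of them. -/
noncomputable def ro (t : ℕ) (u : ℤ) : ℕ := sInf {r | st d S t u ≤ r ∧ tch d r u}

/-- The node `u` was no upper node since it is seen from the item only. -/
def cln (t : ℕ) (u : ℤ) : Prop := ∀ r, sg d S t u ≤ r → r < t → ¬ up d r u

/-- The clean bad links. -/
noncomputable def CL : Finset (ℕ × ℤ) := (BAD d S).filter fun p => cln d S p.1 p.2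

/-- The clean bad links of band `j`, minimum time `s` and scale `i`. -/
noncomputable def CF (j s i : ℕ) : Finset (ℕ × ℤ) :=
  (CL d S).filter fun p => bj d S p.1 p.2 = j ∧ st d S p.1 p.2 = s ∧ sc d S p.1 p.2 = i

/-- The pairs (minimum time, first view) of band `j`. -/
noncomputable def PR (j : ℕ) : Finset (ℕ × ℕ) :=
  ((CL d S).filter fun p => bj d S p.1 p.2 = j).image fun p => (st d S p.1 p.2, ro d S p.1 p.2)

end

end Pool.Agent.P.MP_119182_lc.AE
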