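import Pool.Agent.P.MP_119182_lc.AE.Iface
import Pool.Agent.P.MP_119182_lc.AD.TBUD
import Pool.Agent.P.MP_119182_lc.TV.Main

/-! The links in the cold gap next to the access, marks, shifts and the end. -/

set_option autoImplicit false

namespace Pool.Agent.P.MP_119182_lc.AE

open Finset
open scoped Classical
open NU (mr)
open LU (key tch up low isl Nx within beyond LK)
open IT (Marks One mq)

/-- The marks without the other marks in the item of the access. -/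
noncomputable def tl (σ : ℕ) (d : NU.Run) (Q : ℕ → Finset ℤ) (t : ℕ) : Finset ℤ :=
  if t < d.m then (Q t).filter fun z => z = d.x t ∨ z / 2 ^ σ ≠ d.x t / 2 ^ σ else Q t

-- deps: BD FF TP LNK LU.LINK
/-- Links inside one item and links over a hot item are paid by the system. -/
def S_WARM : Prop :=
  ∀ (σ : ℕ) (d : NU.Run) (S : Sys) (Q Q' : ℕ → Finset ℤ), OK d S →
    (∀ j < S.J, ∀ t c, 1 ≤ S.om j t c) →
    (∀ a b, S.cell S.J a = S.cell S.J b ↔ a / 2 ^ σ = b / 2 ^ σ) →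
    (∀ t < d.m, ∀ z ∈ Q t, z ∈ Q' t ∨ z / 2 ^ σ = d.x t / 2 ^ σ ∨
      2 ≤ S.om S.J t (S.cell S.J z)) →
    ∑ t ∈ range d.m, IT.int σ d t ≤ #(WM d S) ∧
      ∑ t ∈ range d.m, IT.up d (tl σ d Q) t ≤ ∑ t ∈ range d.m, IT.up d Q' t + #(WM d S)

-- deps:
/-- The links that leave an item (copy `TV.gap`, with `tl` in place of the marks). -/
def S_GAP : Prop :=
  ∀ K : ℕ, ∃ C : ℕ, ∀ (σ J c Z : ℕ) (d : NU.Run) (Q : ℕ → Finset ℤ), d.OK →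
    d.L / 2 ^ J = d.R / 2 ^ J → Marks d.L d.R d.m d.x c Z Q → One d.m d.x Q →
    K * ∑ t ∈ range d.m, GP.out (GP.its σ d.L d.R Q) d t ≤ 16 * d.NR +
      C * ((d.R - d.L).toNat + d.m + ∑ t ∈ range d.m, IT.up d (tl (σ + 1) d Q) t +
        ∑ t ∈ range d.m, IT.up d.mir (tl (σ + 1) d.mir (mq Q)) t +
        GP.we σ J d.L d.R d.m d.x Q)

-- deps: ABS WARM GAP MIR
/-- All links (copy `TV.link`). -/
def S_ALL : Prop :=
  ∃ C : ℕ, ∀ (σ J c Z c' Z' : ℕ) (d : NU.Run) (S : Sys) (Q Q' : ℕ → Finset ℤ), OK d S →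
    d.L / 2 ^ J = d.R / 2 ^ J → Marks d.L d.R d.m d.x c Z Q → One d.m d.x Q →
    Marks d.L d.R d.m d.x c' Z' Q' → (∀ j < S.J, ∀ t c, 1 ≤ S.om j t c) →
    (∀ a b, S.cell S.J a = S.cell S.J b ↔ a / 2 ^ (σ + 1) = b / 2 ^ (σ + 1)) →
    (∀ t < d.m, ∀ z ∈ Q t, z ∈ Q' t ∨ z / 2 ^ (σ + 1) = d.x t / 2 ^ (σ + 1) ∨
      2 ≤ S.om S.J t (S.cell S.J z)) →
    100 * (d.LamR + d.mir.LamR) ≤ d.NR + d.mir.NR +
      C * (((d.R - d.L).toNat + d.m) * (S.J + 1) * (Nat.size (ht S) + 1) ^ 7 + BB0 d S + BB1 d S +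
        TV.sw (d.R - d.L).toNat d.m Q' + GP.we σ J d.L d.R d.m d.x Q)

-- deps:
/-- The weights of `ADBud` below the top band, the weights without the base in the top band. -/
def S_BUD : Prop :=
  ∃ C : ℕ, ∀ (T n : ℕ) (d : NU.Run), d.OK → d.R = d.L + n + 1 → 2 ≤ T →
    ∃ S : Sys, S.J = T + 1 ∧ S.W ≤ C * 2 ^ T ∧ OK d S ∧ (∀ j < S.J, ∀ t c, 1 ≤ S.om j t c) ∧
      (∀ a, S.cell S.J a = a / 2 ^ 2 ^ T) ∧ (∀ c, S.om S.J 0 c < 2) ∧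
      (∀ r t, r < t → t < d.m → d.x r / 2 ^ 2 ^ T = d.x t / 2 ^ 2 ^ T →
        NU.dst d.x r t ≤ 2 ^ 2 ^ T → 2 ≤ S.om S.J t (d.x t / 2 ^ 2 ^ T)) ∧
      BB0 d S + BB1 d S ≤ C * (d.m * (T + 2) + NU.MM d.x n d.m T)

/-- The witnesses in another item that wait at time `t` of the fourfold sequence. -/
noncomputable def PP (A m : ℕ) (y : ℕ → ℤ) (s : ℕ → ℕ) (E : Finset ℕ) (t : ℕ) : Finset ℤ :=
  ((range m).filter fun i => i ∉ E ∧ y i / 2 ^ A ≠ y (s i) / 2 ^ A ∧ 4 * s i + 3 ≤ t ∧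
    t ≤ 4 * i).image fun i => y (s i)

/-- The weight of the levels at which an access and its witness are separated. -/
noncomputable def SP (σ J m : ℕ) (y : ℕ → ℤ) (s : ℕ → ℕ) (E : Finset ℕ) : ℕ :=
  ∑ i ∈ (range m).filter (fun i => i ∉ E), ∑ j ∈ Ioo σ J,
    if y i / 2 ^ j ≠ y (s i) / 2 ^ j then (j - σ) ^ 4 else 0

/-- The first keys of the hot items. -/
noncomputable def HH (A : ℕ) (y : ℕ → ℤ) (hot : ℕ → ℤ → Prop) (t : ℕ) : Finset ℤ :=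
  ((range (t + 1)).filter fun r => ¬ hot r (y (r / 4) / 2 ^ A) ∧
    ∀ q, r < q → q ≤ t + 1 → hot q (y (r / 4) / 2 ^ A)).image fun r => y (r / 4)

/-- The marks. -/
noncomputable def QM (A m : ℕ) (y : ℕ → ℤ) (s : ℕ → ℕ) (E : Finset ℕ) (hot : ℕ → ℤ → Prop)
    (t : ℕ) : Finset ℤ :=
  HH A y hot t ∪ insert (y (t / 4)) (PP A m y s E t)

/-- The hypotheses on the hot items and the witnesses. -/
structure Hot (A m : ℕ) (L R : ℤ) (y : ℕ → ℤ) (s : ℕ → ℕ) (E : Finset ℕ)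
    (hot : ℕ → ℤ → Prop) : Prop where
  mem : ∀ i < m, L < y i ∧ y i < R
  wit : ∀ i < m, i ∉ E → s i < i ∧ NU.dst y (s i) i ≤ 2 ^ A
  keep : ∀ t c, t < 4 * m → c ≠ y (t / 4) / 2 ^ A → (hot (t + 1) c ↔ hot t c)
  zero : ∀ c, ¬ hot 0 c
  near : ∀ r t, r < t → t < 4 * m → y (r / 4) / 2 ^ A = y (t / 4) / 2 ^ A →
    NU.dst (fun q => y (q / 4)) r t ≤ 2 ^ A → hot t (y (t / 4) / 2 ^ A)

-- deps:
def S_MKA : Prop :=
  ∀ (A m : ℕ) (L R : ℤ) (y : ℕ → ℤ) (s : ℕ → ℕ) (E : Finset ℕ) (hot : ℕ → ℤ → Prop),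
    Hot A m L R y s E hot →
    (∃ c Z, Marks L R (4 * m) (fun q => y (q / 4)) c Z (QM A m y s E hot)) ∧
    (∃ c Z, Marks L R (4 * m) (fun q => y (q / 4)) c Z
      fun t => insert (y (t / 4)) (PP A m y s E t)) ∧
    PP A m y s E 0 = ∅ ∧
    ∀ t < 4 * m, ∀ z ∈ QM A m y s E hot t, z ∈ insert (y (t / 4)) (PP A m y s E t) ∨
      z / 2 ^ A = y (t / 4) / 2 ^ A ∨ hot t (z / 2 ^ A)

-- deps:
def S_MKB : Prop :=
  ∀ (A m : ℕ) (L R : ℤ) (y : ℕ → ℤ) (s : ℕ → ℕ) (E : Finset ℕ) (hot : ℕ → ℤ → Prop),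
    Hot A m L R y s E hot → One (4 * m) (fun q => y (q / 4)) (QM A m y s E hot)

-- deps:
def S_MKC : Prop :=
  ∀ (σ J m : ℕ) (L R : ℤ) (y : ℕ → ℤ) (s : ℕ → ℕ) (E : Finset ℕ) (hot : ℕ → ℤ → Prop),
    Hot (σ + 1) m L R y s E hot →
    GP.we σ J L R (4 * m) (fun q => y (q / 4)) (QM (σ + 1) m y s E hot) ≤
      #E * J ^ 5 + SP σ J m y s E

/-- The witnesses of the accesses outside `E`. -/
def Wit (u m : ℕ) (a s v : ℕ → ℕ) (E : Finset ℕ) : Prop :=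
  ∀ i < m, i ∉ E → s i < i ∧ v i ≤ u ∧
    #((Ioc (s i) i).image a) + Nat.dist (a i) (a (s i)) ≤ 2 ^ v i

-- deps:
/-- Copy `NU.Avg.one` and `NU.avg`, cut at tier `T`. -/
def S_AVA : Prop :=
  ∃ C : ℕ, ∀ (n u m T T' : ℕ) (a s v : ℕ → ℕ) (E : Finset ℕ), Wit u m a s v E → 2 ^ T ≤ T' →
    ∑ h ∈ range (2 ^ T'), NU.MM (fun q => (a (q / 4) : ℤ) + h) n (4 * m) T ≤
      2 ^ T' * (C * (∑ i ∈ (range m).filter (fun i => i ∉ E), (v i + 1) + m +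
        (n + 1 + #E) * 2 ^ T))

-- deps:
def S_AVB : Prop :=
  ∀ (u m σ T' : ℕ) (a s v : ℕ → ℕ) (E : Finset ℕ), Wit u m a s v E → u ≤ σ →
    ∑ h ∈ range (2 ^ T'), SP σ (T' + 1) m (fun i => (a i : ℤ) + h) s E ≤ 2 ^ T' * (12800 * m)

-- deps:
def S_AVC : Prop :=
  ∀ (u m A T' : ℕ) (a s v : ℕ → ℕ) (E : Finset ℕ), Wit u m a s v E → 2 * u + 2 ≤ A → A ≤ T' →
    ∀ t, ∑ h ∈ range (2 ^ T'), #(PP A m (fun i => (a i : ℤ) + h) s E t) ≤ 2 ^ T'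

-- deps: ALL BUD MKA MKB MKC AVA AVB AVC
/-- The link bound for one shift and all runs on the fourfold sequence. -/
def S_RUN : Prop :=
  ∃ C : ℕ, ∀ (n u m : ℕ) (a s v : ℕ → ℕ) (E : Finset ℕ), 1 ≤ n → (∀ i < m, 1 ≤ a i ∧ a i ≤ n) →
    Wit u m a s v E → ∃ h : ℕ, ∀ d : NU.Run, d.OK → d.L = h → d.R = (h : ℤ) + n + 1 → d.m = 4 * m →
      (d.x = fun q => (a (q / 4) : ℤ) + h) →
      100 * (d.LamR + d.mir.LamR) ≤ d.NR + d.mir.NR +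
        C * (∑ i ∈ (range m).filter (fun i => i ∉ E), (v i + 1) +
          (n + m) * (Nat.log 2 (u + 1) + 1) ^ 8 + n * (u + 1) +
          #E * (Nat.log 2 (n + 1) + u + 1) ^ 5)

-- deps: RUN NU.ALGA NU.BRG NU.TURN
/-- The bound with witnesses (`TV.cost_half` twice). -/
def S_LOC : Prop :=
  ∃ C : ℕ, ∀ (n u m : ℕ) (T : BT) (a s v : ℕ → ℕ) (E : Finset ℕ), T.keys = List.range' 1 n →
    (∀ i < m, 1 ≤ a i ∧ a i ≤ n) → Wit u m a s v E →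
    cost T ((List.range m).map a) ≤
      C * (∑ i ∈ (range m).filter (fun i => i ∉ E), (v i + 1) +
        (n + m) * (Nat.log 2 (u + 1) + 1) ^ 8 + n * (u + 1) +
        #E * (Nat.log 2 (n + 1) + u + 1) ^ 5)

-- deps:
/-- Witnesses from the terms of the unified bound (copy `NU.Avg.wit`). -/
def S_WIT : Prop :=
  ∀ (n u m : ℕ) (a : ℕ → ℕ) (E : Finset ℕ), 1 ≤ n → (∀ i < m, 1 ≤ a i ∧ a i ≤ n) →
    (∀ i < m, i ∉ E → ∃ j, 1 ≤ j ∧ j ≤ n ∧ wset a i j + Nat.dist (a i) j ≤ 2 ^ u) →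
    ∃ (s v : ℕ → ℕ) (E' : Finset ℕ), Wit (u + 1) m a s v E' ∧ #E' ≤ #E + 2 ^ (u + 1) + 1 ∧
      ((∑ i ∈ (range m).filter (fun i => i ∉ E'), (v i + 1) : ℕ) : ℝ) ≤ 3 * unified n m a

-- deps: LOC WIT AD.FIN
/-- The end statement. -/
def S_END : Prop :=
  ∃ C : ℕ, ∀ (n m u : ℕ) (T : BT) (a : ℕ → ℕ) (E : Finset ℕ), T.keys = List.range' 1 n →
    (∀ i < m, 1 ≤ a i ∧ a i ≤ n) → (n : ℝ) * max 1 (Real.logb 2 n) ≤ m →
    (∀ i < m, i ∉ E → ∃ j, 1 ≤ j ∧ j ≤ n ∧ wset a i j + Nat.dist (a i) j ≤ 2 ^ u) →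
    (cost T ((List.range m).map a) : ℝ) ≤
      C * (unified n m a + m * ((Nat.log 2 u : ℝ) + 1) ^ 8 + E.card * ((Nat.log 2 n : ℝ) + 1) ^ 5)

end Pool.Agent.P.MP_119182_lc.AE
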