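import Pool.Agent.P.MP_119182_lc.AE.IfaceB

/-! Step MKC. -/

set_option autoImplicit false

namespace Pool.Agent.P.MP_119182_lc.AE

open Finset
open scoped Classical
open NU (mr)
open LU (key tch up low isl Nx within beyond LK)
open IT (Marks One mq)

namespace MKCy

theorem up_eq {A j : ℕ} (h : A ≤ j) {a b : ℤ} (e : a / 2 ^ A = b / 2 ^ A) :
    a / 2 ^ j = b / 2 ^ j := by
  obtain ⟨k, rfl⟩ := Nat.exists_eq_add_of_le h
  rw [pow_add, ← Int.ediv_ediv_of_nonneg (by positivity),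
    ← Int.ediv_ediv_of_nonneg (by positivity), e]

theorem hh_ex {A m : ℕ} {y : ℕ → ℤ} {H : ℕ → ℤ → Prop} (h0 : ∀ C, ¬ H 0 C)
    (hk : ∀ t C, t < m → C ≠ y (t / 4) / 2 ^ A → (H (t + 1) C ↔ H t C)) (C : ℤ) :
    ∀ t < m, H (t + 1) C → ∃ z ∈ HH A y H t, z / 2 ^ A = C := by
  intro t
  induction t with
  | zero =>
    intro ht h
    have e : C = y (0 / 4) / 2 ^ A := by
      by_contra hne
      exact h0 C ((hk 0 C ht hne).1 h)
    refine ⟨y (0 / 4), mem_image.2 ⟨0, mem_filter.2 ⟨by simp, h0 _, fun q a b => ?_⟩, rfl⟩,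
      e.symm⟩
    rw [show q = 0 + 1 by omega, ← e]
    exact h
  | succ t ih =>
    intro ht h
    by_cases h1 : H (t + 1) C
    · obtain ⟨z, hz, e⟩ := ih (by omega) h1
      obtain ⟨r, hr, rfl⟩ := mem_image.1 hz
      obtain ⟨a, b, c⟩ := mem_filter.1 hr
      refine ⟨_, mem_image.2 ⟨r, mem_filter.2 ⟨mem_range.2 (by
        have := mem_range.1 a; omega), b, fun q a' b' => ?_⟩, rfl⟩, e⟩
      rcases Nat.eq_or_lt_of_le b' with rfl | b''
      · rw [e]; exact h
      · exact c q a' (by omega)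
    · have e : C = y ((t + 1) / 4) / 2 ^ A := by
        by_contra hne
        exact h1 ((hk _ C ht hne).1 h)
      refine ⟨_, mem_image.2 ⟨t + 1, mem_filter.2 ⟨by simp, e ▸ h1, fun q a b => ?_⟩,
        rfl⟩, e.symm⟩
      rw [show q = t + 1 + 1 by omega, ← e]
      exact h

theorem sum_four (g : ℕ → ℕ) (m : ℕ) :
    ∑ q ∈ range (4 * m), (if 4 ∣ q then g (q / 4) else 0) = ∑ i ∈ range m, g i := by
  induction m with
  | zero => simp
  | succ m ih =>
    rw [show 4 * (m + 1) = 4 * m + 1 + 1 + 1 + 1 by ring, sum_range_succ, sum_range_succ,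
      sum_range_succ, sum_range_succ, sum_range_succ, ih, if_pos (Dvd.intro _ rfl),
      if_neg (by omega), if_neg (by omega), if_neg (by omega), show 4 * m / 4 = m by omega]
    rfl

theorem dst_four (y : ℕ → ℤ) (s i : ℕ) :
    NU.dst (fun q => y (q / 4)) (4 * s + 3) (4 * i) ≤ NU.dst y s i := by
  refine card_le_card fun z hz => ?_
  obtain ⟨q, hq, rfl⟩ := mem_image.1 hz
  have := mem_Ioc.1 hq
  exact mem_image_of_mem _ (mem_Ioc.2 ⟨by omega, by omega⟩)

end MKCy

theorem p_MKC : S_MKC := by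
  intro σ J m L R y s E hot h
  have h2 : ∑ i ∈ range m, (if i ∈ E then J ^ 5 else ∑ j ∈ Ioo σ J,
      if y i / 2 ^ j ≠ y (s i) / 2 ^ j then (j - σ) ^ 4 else 0) ≤
      #E * J ^ 5 + SP σ J m y s E := by
    rw [sum_ite, sum_const, smul_eq_mul]
    exact Nat.add_le_add (Nat.mul_le_mul_right _ (card_le_card fun i hi => (mem_filter.1 hi).2))
      le_rfl
  refine le_trans ?_ h2
  rw [← MKCy.sum_four]
  rcases Nat.eq_zero_or_pos m with rfl | hm
  · simp [GP.we]
  obtain ⟨M, hM⟩ : ∃ M, 4 * m = M + 1 := ⟨4 * m - 1, by omega⟩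
  rw [GP.we, hM, Nat.add_sub_cancel, sum_range_succ']
  refine le_trans (sum_le_sum fun t ht => ?_) (Nat.le_add_right _ _)
  have h1 : t + 1 < 4 * m := by have := mem_range.1 ht; omega
  split_ifs with g1 g2
  · refine (sum_le_card_nsmul _ _ (J ^ 4) fun j hj => Nat.pow_le_pow_left ?_ 4).trans ?_
    · have := (mem_Ioo.1 (mem_filter.1 hj).1).2
      omega
    · rw [smul_eq_mul, pow_succ' J 4]
      refine Nat.mul_le_mul_right _ ((card_filter_le _ _).trans ?_)
      rw [Nat.card_Ioo]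
      omega
  · obtain ⟨i, hi⟩ := g1
    have e0 : (t + 1) / 4 = i := by omega
    rw [e0] at g2 ⊢
    obtain ⟨b1, b2⟩ := h.wit i (by omega) g2
    rw [GP.hit, sum_filter]
    refine sum_le_sum fun j hj => ?_
    have hj' : σ + 1 ≤ j := (mem_Ioo.1 hj).1
    simp only [e0]
    split_ifs with c1 c2
    · exact le_rfl
    · exfalso
      by_cases e : y i / 2 ^ (σ + 1) = y (s i) / 2 ^ (σ + 1)
      · have e1 : (4 * s i + 3) / 4 = s i := by omega
        have h3 := h.near (4 * s i + 3) (t + 1) (by omega) h1 (by rw [e0, e1, e])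
          (by rw [hi]; exact (MKCy.dst_four y _ _).trans b2)
        rw [e0] at h3
        obtain ⟨z, hz, e'⟩ := MKCy.hh_ex h.zero h.keep _ t (by omega) h3
        exact c1.2.2 z (mem_union_left _ hz) (MKCy.up_eq hj' e')
      · exact c1.2.2 _ (mem_union_right _ (mem_insert_of_mem (mem_image.2
          ⟨i, mem_filter.2 ⟨mem_range.2 (by omega), g2, e, by omega, by omega⟩, rfl⟩)))
          (not_not.1 c2).symm
    · exact Nat.zero_le _
    · exact le_rfl
  · refine le_of_eq (sum_eq_zero fun j hj => absurd ?_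
      ((mem_filter.1 hj).2.2.2 (y (t / 4)) (mem_union_right _ (mem_insert_self _ _))))
    beta_reduce
    rw [show (t + 1) / 4 = t / 4 by omega]

end Pool.Agent.P.MP_119182_lc.AE
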