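import Pool.Agent.P.MP_119182_lc.AE.Iface

/-! Step PAIR. -/

set_option autoImplicit false

namespace Pool.Agent.P.MP_119182_lc.AE

open Finset
open scoped Classical
open NU (Run mr)
open LU (key tch up low isl Nx within beyond LK)

namespace PAIRx
variable {d : Run} {S : Sys}

theorem nest_le (h : OK d S) {j j' : ℕ} {a b : ℤ} (hj : j ≤ j') (e : S.cell j a = S.cell j b) :
    S.cell j' a = S.cell j' b := by
  induction j', hj using Nat.le_induction with
  | base => exact e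
  | succ k _ ih => exact h.nest k a b ih

theorem bd_mem (h : OK d S) {a b : ℤ} (ha : pt d a) (hb : pt d b) :
    S.cell (bd S a b + 1) a = S.cell (bd S a b + 1) b :=
  Nat.sInf_mem (s := {j | S.cell (j + 1) a = S.cell (j + 1) b}) ⟨S.J, h.top a b ha hb⟩

theorem bd_le {j : ℕ} {a b : ℤ} (e : S.cell (j + 1) a = S.cell (j + 1) b) : bd S a b ≤ j :=
  Nat.sInf_le (s := {j | S.cell (j + 1) a = S.cell (j + 1) b}) e

theorem bd_leJ (h : OK d S) {a b : ℤ} (ha : pt d a) (hb : pt d b) : bd S a b ≤ S.J :=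
  bd_le (h.top a b ha hb)

theorem bd_ne (h : OK d S) {a b : ℤ} (hab : a ≠ b) :
    S.cell (bd S a b) a ≠ S.cell (bd S a b) b := by
  intro e
  rcases Nat.eq_zero_or_pos (bd S a b) with h0 | h0
  · rw [h0] at e; exact hab (h.inj a b e)
  · obtain ⟨k, hk⟩ : ∃ k, bd S a b = k + 1 := ⟨bd S a b - 1, by omega⟩
    rw [hk] at e
    have := bd_le e
    omega

theorem sg_mem (t : ℕ) (y : ℤ) : ∀ r, sg d S t y ≤ r → r < t → tch d r y →
    S.cell (bj d S t y) (d.x r) = it d S t y :=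
  Nat.sInf_mem (s := {s | ∀ r, s ≤ r → r < t → tch d r y →
    S.cell (bj d S t y) (d.x r) = it d S t y}) ⟨t, fun r h1 h2 => absurd h2 (by omega)⟩

theorem sg_le {t s : ℕ} {y : ℤ} (h : ∀ r, s ≤ r → r < t → tch d r y →
    S.cell (bj d S t y) (d.x r) = it d S t y) : sg d S t y ≤ s :=
  Nat.sInf_le (s := {s | ∀ r, s ≤ r → r < t → tch d r y →
    S.cell (bj d S t y) (d.x r) = it d S t y}) h

theorem sg_le_t (t : ℕ) (y : ℤ) : sg d S t y ≤ t := sg_le fun r h1 h2 => absurd h2 (by omega)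

theorem gm_le {t s : ℕ} {y : ℤ} (h1 : sg d S t y ≤ s) (h2 : s ≤ t) :
    gm d S t y ≤ lo d S t y s :=
  Nat.sInf_le ⟨s, ⟨h1, h2⟩, rfl⟩

theorem gm_ex (t : ℕ) (y : ℤ) : ∃ s, sg d S t y ≤ s ∧ s ≤ t ∧ lo d S t y s = gm d S t y := by
  obtain ⟨s, ⟨h1, h2⟩, h3⟩ := Nat.sInf_mem (s := lo d S t y '' Set.Icc (sg d S t y) t)
    ⟨_, t, ⟨sg_le_t t y, le_rfl⟩, rfl⟩
  exact ⟨s, h1, h2, h3⟩

theorem st_bdd (t : ℕ) (y : ℤ) :
    BddAbove {s | sg d S t y ≤ s ∧ s ≤ t ∧ lo d S t y s = gm d S t y} :=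
  ⟨t, fun _ hs => hs.2.1⟩

theorem st_mem (t : ℕ) (y : ℤ) : sg d S t y ≤ st d S t y ∧ st d S t y ≤ t ∧
    lo d S t y (st d S t y) = gm d S t y :=
  Nat.sSup_mem (s := {s | sg d S t y ≤ s ∧ s ≤ t ∧ lo d S t y s = gm d S t y}) (gm_ex t y)
    (st_bdd t y)

theorem le_st {t s : ℕ} {y : ℤ} (h1 : sg d S t y ≤ s) (h2 : s ≤ t)
    (h3 : lo d S t y s = gm d S t y) : s ≤ st d S t y :=
  le_csSup (st_bdd t y) ⟨h1, h2, h3⟩

theorem st_it (h : OK d S) {t : ℕ} (ht : t < d.m) (y : ℤ) :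
    S.cell (bj d S t y) (d.x (st d S t y)) = it d S t y := by
  obtain ⟨h1, h2, h3⟩ := st_mem (d := d) (S := S) t y
  rcases h2.eq_or_lt with e | e
  · rw [e]; rfl
  · by_contra hne
    have hk := h.keep (bj d S t y) (st d S t y) (it d S t y) (by omega) (Ne.symm hne)
    have : st d S t y + 1 ≤ st d S t y :=
      le_st (by omega) (by omega) (by rw [← h3]; unfold lo; rw [hk])
    omega

theorem lp_step (hd : d.OK) {T : ℕ} (hT : T < d.m) {v : ℤ} (hv : key d v)
    (h : tch d T v → d.x T < v) : d.lp T v ≤ d.lp (T + 1) v := by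
  have st := hd.step T hT
  have b := (hd.tree T hT.le).bnd v hv.1 hv.2
  by_cases ht : tch d T v
  · have hx := h ht
    by_cases e : d.lp (T + 1) v = d.x T
    · rw [e]; exact ht.2.1.le
    · have := (st.losR v hx hv.2 ht.2.1 e).1
      have := ht.2.1
      omega
  · have hne : v ≠ d.x T := by
      intro e
      exact ht ⟨hv, by rw [← e]; exact b.2.1, by rw [← e]; exact b.2.2.1⟩
    rw [(st.off v hv.1 hv.2 hne fun c => ht ⟨hv, c.1, c.2⟩).1]

theorem lp_mono (hd : d.OK) {r r' : ℕ} (hr : r ≤ r') (hm : r' ≤ d.m) {v : ℤ} (hv : key d v)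
    (h : ∀ T, r ≤ T → T < r' → tch d T v → d.x T < v) : d.lp r v ≤ d.lp r' v := by
  induction r', hr using Nat.le_induction with
  | base => exact le_rfl
  | succ k hk ih =>
    exact (ih (by omega) fun T a b => h T a (by omega)).trans
      (lp_step hd (by omega) hv (h k hk (by omega)))

theorem pt_x (hd : d.OK) {t : ℕ} (ht : t < d.m) : pt d (d.x t) :=
  ⟨(hd.step t ht).mem.1.le, (hd.step t ht).mem.2.le⟩

theorem pt_key {y : ℤ} (hy : key d y) : pt d y := ⟨hy.1.le, hy.2.le⟩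

/-- The item of the viewer is left of the item of the node. -/
theorem it_lt (h : OK d S) {t : ℕ} {y : ℤ} (hy : d.x t < y) :
    it d S t y < S.cell (bj d S t y) y :=
  lt_of_le_of_ne (h.mono _ hy.le) (bd_ne h hy.ne)

/-- A point of the item of the viewer is left of the node. -/
theorem lt_of_it (h : OK d S) {t : ℕ} {y z : ℤ} (hy : d.x t < y)
    (hz : S.cell (bj d S t y) z = it d S t y) : z < y := by
  by_contra c
  have h1 := h.mono (bj d S t y) (not_lt.mp c)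
  have h2 := it_lt h hy
  omega

/-- Since `sg` the left parent only grows. -/
theorem lp_sg (h : OK d S) {t q : ℕ} {y : ℤ} (hy : rt d t y) (h1 : sg d S t y ≤ q) (h2 : q ≤ t) :
    d.lp q y < d.x t :=
  lt_of_le_of_lt (lp_mono h.ok h2 hy.1.le hy.2.1.1 fun T a b c =>
    lt_of_it h hy.2.2 (sg_mem t y T (h1.trans a) b c)) hy.2.1.2.1

/-- A touch of a node between the viewer and `u` is a touch of `u`. -/
theorem tch_up (h : OK d S) {t q : ℕ} {u p : ℤ} (hu : rt d t u) (h1 : sg d S t u ≤ q) (h2 : q ≤ t)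
    (hp : d.x t ≤ p) (hpu : p < u) (c : tch d q p) : tch d q u := by
  have a := lp_sg h hu h1 h2
  have tr := h.ok.tree q (by have := hu.1; omega)
  have k := hu.2.1.1
  have b := tr.lamL u p k.1 k.2 (by omega) hpu
  have e := tr.bnd u k.1 k.2
  exact ⟨k, by have := c.2.1; omega, by have := c.2.2; omega⟩

theorem ro_mem {t : ℕ} {u : ℤ} (hu : rt d t u) :
    st d S t u ≤ ro d S t u ∧ tch d (ro d S t u) u :=
  Nat.sInf_mem (s := {r | st d S t u ≤ r ∧ tch d r u}) ⟨t, (st_mem t u).2.1, hu.2.1⟩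

theorem ro_le {t r : ℕ} {u : ℤ} (h1 : st d S t u ≤ r) (h2 : tch d r u) : ro d S t u ≤ r :=
  Nat.sInf_le (s := {r | st d S t u ≤ r ∧ tch d r u}) ⟨h1, h2⟩

theorem ro_le_t {t : ℕ} {u : ℤ} (hu : rt d t u) : ro d S t u ≤ t :=
  ro_le (st_mem t u).2.1 hu.2.1

/-- A touch of a node right of the item and left of `u` is a touch of `u`. -/
theorem tch_up' (h : OK d S) {t t' q : ℕ} {u p : ℤ} (hu : rt d t u) (hp : rt d t' p)
    (ej : bj d S t' p = bj d S t u) (ei : it d S t' p = it d S t u)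
    (h1 : sg d S t u ≤ q) (h2 : q ≤ t) (hpu : p < u) (c : tch d q p) : tch d q u := by
  refine tch_up h hu h1 h2 (le_of_lt (lt_of_it h hp.2.2 ?_)) hpu c
  rw [ej, ei]; rfl

theorem pair_core (h : OK d S) {t1 t2 : ℕ} {u1 u2 : ℤ} (h1 : rt d t1 u1) (h2 : rt d t2 u2)
    (ej : bj d S t1 u1 = bj d S t2 u2) (ei : it d S t1 u1 = it d S t2 u2)
    (a : st d S t1 u1 < st d S t2 u2) (b : st d S t2 u2 ≤ ro d S t1 u1)
    (c : ro d S t1 u1 < ro d S t2 u2) : False := by
  have el : lo d S t1 u1 = lo d S t2 u2 := by funext s; unfold lo; rw [ej, ei]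
  obtain ⟨a1, a2, a3⟩ := st_mem (d := d) (S := S) t1 u1
  obtain ⟨b1, b2, b3⟩ := st_mem (d := d) (S := S) t2 u2
  have r1 := ro_mem (S := S) h1
  have r1' := ro_le_t (S := S) h1
  have r2' := ro_le_t (S := S) h2
  have nt : ¬ tch d (ro d S t1 u1) u2 := fun k => by
    have := ro_le (S := S) b k
    omega
  have hlt : u2 < u1 := by
    rcases lt_trichotomy u1 u2 with e | e | e
    · exact absurd (tch_up' h h2 h1 ej ei (by omega) (by omega) e r1.2) nt
    · exact absurd (e ▸ r1.2) nt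
    · exact e
  have hs : sg d S t2 u2 ≤ sg d S t1 u1 := sg_le fun r k1 k2 k3 => by
    by_cases e : st d S t2 u2 ≤ r
    · exact sg_mem t2 u2 r (by omega) k2 k3
    · rw [← ej, ← ei]
      exact sg_mem t1 u1 r k1 (by omega)
        (tch_up' h h1 h2 ej.symm ei.symm k1 (by omega) hlt k3)
  have g2 : gm d S t2 u2 ≤ lo d S t2 u2 (st d S t1 u1) := gm_le (by omega) (by omega)
  have g1 : gm d S t1 u1 ≤ lo d S t1 u1 (st d S t2 u2) := gm_le (by omega) (by omega)
  have : st d S t2 u2 ≤ st d S t1 u1 := le_st (by omega) (by omega) (by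
    rw [el] at a3 g1 ⊢
    omega)
  omega

/-- The pairs of band `j`. -/
theorem pair_card (h : OK d S) (j : ℕ) (Y : Finset (ℕ × ℕ))
    (hY : ∀ q ∈ Y, ∃ t u, rt d t u ∧ bj d S t u = j ∧ st d S t u = q.1 ∧ ro d S t u = q.2) :
    #Y ≤ 2 * d.m := by
  have key1 : ∀ q ∈ Y, q.1 ≤ q.2 ∧ q.2 < d.m := by
    intro q hq
    obtain ⟨t, u, a, -, c, e⟩ := hY q hq
    have := ro_mem (S := S) a
    have := ro_le_t (S := S) a
    have := a.1
    omega
  have itr : ∀ t u, rt d t u → S.cell (bj d S t u) (d.x (ro d S t u)) = it d S t u := by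
    intro t u a
    rcases (ro_le_t (S := S) a).eq_or_lt with e | e
    · rw [e]; rfl
    · exact sg_mem t u _ ((st_mem t u).1.trans (ro_mem a).1) e (ro_mem a).2
  have h1 : #(Y.filter fun q => ∀ q' ∈ Y, q'.1 = q.1 → q'.2 ≤ q.2) ≤ #(range d.m) := by
    refine card_le_card_of_injOn (fun q => q.1) ?_ ?_
    · intro q hq
      have := key1 q (mem_filter.1 (mem_coe.1 hq)).1
      exact mem_coe.2 (mem_range.2 (by show q.1 < d.m; omega))
    · intro q hq q' hq' e
      obtain ⟨a, b⟩ := mem_filter.1 (mem_coe.1 hq)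
      obtain ⟨a', b'⟩ := mem_filter.1 (mem_coe.1 hq')
      exact Prod.ext e (le_antisymm (b' q a e) (b q' a' e.symm))
  have h2 : #(Y.filter fun q => ¬ ∀ q' ∈ Y, q'.1 = q.1 → q'.2 ≤ q.2) ≤ #(range d.m) := by
    have aux : ∀ q ∈ Y, ∀ q' ∈ Y, q.2 = q'.2 → q.1 < q'.1 →
        ∀ q'' ∈ Y, q''.1 = q'.1 → q''.2 ≤ q'.2 := by
      intro q hq q' hq' e lt q'' hq'' e''
      by_contra c
      obtain ⟨t1, u1, a1, b1, c1, e1⟩ := hY q hq
      obtain ⟨t2, u2, a2, b2, c2, e2⟩ := hY q' hq'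
      obtain ⟨t3, u3, a3, b3, c3, e3⟩ := hY q'' hq''
      have i1 := itr t1 u1 a1
      have i2 := itr t2 u2 a2
      have s2 := st_it h a2.1 u2
      have s3 := st_it h a3.1 u3
      have k2 := key1 q' hq'
      rw [b1, e1] at i1
      rw [b2, e2] at i2
      rw [b2, c2] at s2
      rw [b3, c3, e''] at s3
      refine pair_core h a1 a3 (b1.trans b3.symm) ?_ (by omega) (by omega) (by omega)
      rw [← i1, ← s3, s2, ← i2, e]
    refine card_le_card_of_injOn (fun q => q.2) ?_ ?_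
    · intro q hq
      have := key1 q (mem_filter.1 (mem_coe.1 hq)).1
      exact mem_coe.2 (mem_range.2 this.2)
    · intro q hq q' hq' e
      obtain ⟨a, b⟩ := mem_filter.1 (mem_coe.1 hq)
      obtain ⟨a', b'⟩ := mem_filter.1 (mem_coe.1 hq')
      rcases lt_trichotomy q.1 q'.1 with c | c | c
      · exact absurd (aux q a q' a' e c) b'
      · exact Prod.ext c e
      · exact absurd (aux q' a' q a e.symm c) b
  have := card_filter_add_card_filter_not (s := Y) fun q => ∀ q' ∈ Y, q'.1 = q.1 → q'.2 ≤ q.2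
  rw [card_range] at h1 h2
  omega

end PAIRx

theorem p_PAIR (_hGM : S_GM) (_hVS : S_VS) (_hCHN : S_CHN) :
    S_PAIR := by
  intro d S h j
  refine PAIRx.pair_card h j _ fun q hq => ?_
  simp only [PR, CL, BAD, mem_image, mem_filter] at hq
  obtain ⟨p, ⟨⟨⟨-, hb⟩, -⟩, hj⟩, rfl⟩ := hq
  exact ⟨p.1, p.2, hb.1.1, hj, rfl, rfl⟩

end Pool.Agent.P.MP_119182_lc.AE
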